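import Mathlib
import Pool.Agent.Lib.MP_89bcae_ag.Z.H1
import Pool.Agent.Lib.MP_89bcae_ag.Z.Kum
import Pool.Agent.Lib.MP_89bcae_ag.Zp.Loc

/-!
# The Tate cocycles which are trivial in the cohomology of the Jacobian
-/

attribute [local instance 100000] Pool.Agent.Lib.MP_89bcae_ag.Brt.tffFields
attribute [local instance 100000] Pool.Agent.Lib.MP_89bcae_ag.Wt.ifrNF Pool.Agent.Lib.MP_89bcae_ag.Wt.iddNF

open Polynomial IsDedekindDomain

open scoped Classical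

namespace Pool.Agent.Lib.MP_89bcae_ag.Zq

open Pool.Agent.Lib.MP_89bcae_ag.Wt Pool.Agent.Lib.MP_89bcae_ag.Wt.Lns

section

variable {L Ω : Type} [Field L] [Field Ω] [Algebra L Ω]

/-- The cochains `c n` are coboundaries in the Jacobian. -/
def IsTrivialJ (ℓ : ℕ) (f : L[X]) (c : ℕ → (Ω ≃ₐ[L] Ω) → JacOver ℓ f Ω) : Prop :=
  ∀ n, ∃ A : JacOver ℓ f Ω, ∀ g : Ω ≃ₐ[L] Ω, c n g = push ℓ f (g : Ω →ₐ[L] Ω) A - A

/-- The classes of the cochains `c n` in the cohomology of the Jacobian are fixed by `γ`. -/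
def IsFixedByJ (ℓ : ℕ) (f : L[X]) (c : ℕ → (Ω ≃ₐ[L] Ω) → JacOver ℓ f Ω) (γ : Ω ≃+* Ω)
    (hγ : (f.map (algebraMap L Ω)).map (γ : Ω →+* Ω) = f.map (algebraMap L Ω)) : Prop :=
  ∀ n, ∃ A : JacOver ℓ f Ω, ∀ g h : Ω ≃ₐ[L] Ω, (∀ x, γ (g x) = h (γ x)) →
    jacMap ℓ (γ : Ω →+* Ω) hγ (c n g) - c n h = push ℓ f (h : Ω →ₐ[L] Ω) A - A

/-- The Tate cocycles with the local property `LT` whose classes in the cohomology of the Jacobian are fixed by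
the elements of `Γ` are trivial there. -/
def NTJ (ℓ : ℕ) (f : L[X]) (LT : ((Ω ≃ₐ[L] Ω) → JacOver ℓ f Ω) → Prop) (Γ : Set (Ω ≃+* Ω)) : Prop :=
  ∀ c : ℕ → (Ω ≃ₐ[L] Ω) → JacOver ℓ f Ω, Wt.IsTateCocycle ℓ f c → (∀ n, LT (c n)) →
    (∀ (γ : Ω ≃+* Ω) hγ, γ ∈ Γ → IsFixedByJ ℓ f c γ hγ) → IsTrivialJ ℓ f c

/-- The group generated by the `ℓ`-th powers of the nonzero elements of `L(θ₀)` and by the elements `h(θ₀)`, for the monic
polynomials `h` which divide `b ^ ℓ - f`, for some `b`. -/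
def ptGroup (ℓ : ℕ) (f : L[X]) (θ₀ : Ω) : Subgroup Ωˣ :=
  Subgroup.closure ({u | ∃ w ∈ IntermediateField.adjoin L {θ₀}, (u : Ω) = w ^ ℓ} ∪
    {u | ∃ h b : L[X], h.Monic ∧ h ∣ b ^ ℓ - f ∧ (u : Ω) = aeval θ₀ h})

end

section

variable {k F L Ω : Type} [Field k] [Field F] [Algebra k F] [Field L] [Algebra F[X] L]
  [Field Ω] [Algebra L Ω] [IsAlgClosure k F] [IsFractionRing F[X] L] [IsAlgClosure L Ω]
  {ℓ : ℕ} {P : k[X][X]} {ζ : k} [hG : IsGood ℓ (cOver k F L Ω P)]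

/-- The Tate cocycles which are coboundaries in the Jacobian. -/
def TrJ (c : Coch ℓ k F L Ω P) : Prop :=
  Wt.IsTateCocycle ℓ (curveL k F L P) c ∧ IsTrivialJ ℓ (curveL k F L P) c

/-- A Tate cocycle with the local property whose class, in the cohomology of the Jacobian, is fixed by a subgroup of
finite index of the stabilizer of `θ₀`. -/
def IsWJ (LT : Zs.Co1 ℓ k F L Ω P → Prop) (θ₀ : Ω) (c : Coch ℓ k F L Ω P) : Prop :=
  Wt.IsTateCocycle ℓ (curveL k F L P) c ∧ (∀ n, LT (c n)) ∧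
    ∃ U : Subgroup (Zs.Gst k F L θ₀), U.FiniteIndex ∧
      ∀ γ ∈ U, TrJ (act ((γ : Zs.Gst k F L θ₀) : AutO k F L Ω) c - c)

end

end Pool.Agent.Lib.MP_89bcae_ag.Zq
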