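import Mathlib
import Pool.Agent.Lib.MP_89bcae_ag.Zp.Fin
import Pool.Agent.Lib.MP_89bcae_ag.Zq.Loc

/-!
# From the Selmer groups modulo the points to the Brauer groups
-/

attribute [local instance 100000] Pool.Agent.Lib.MP_89bcae_ag.Brt.tffFields
attribute [local instance 100000] Pool.Agent.Lib.MP_89bcae_ag.Wt.ifrNF Pool.Agent.Lib.MP_89bcae_ag.Wt.iddNF

open Polynomial IsDedekindDomain

open scoped Classical

namespace Pool.Agent.Lib.MP_89bcae_ag.Zq

open Pool.Agent.Lib.MP_89bcae_ag.Wt Pool.Agent.Lib.MP_89bcae_ag.Wt.Lns Pool.Agent.Lib.MP_89bcae_ag.Bra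
  Pool.Agent.Lib.MP_89bcae_ag.Brt

open Pool.Agent.Lib.MP_89bcae_ag.Zc

open Pool.Agent.Lib.MP_89bcae_ag.Zs (IsCoverField)

section

variable {L Ω : Type} [Field L] [Field Ω] [Algebra L Ω] {ℓ : ℕ} {f : L[X]}

/-- A relation up to a multiple prime to `ℓ` holds exactly, for Tate cocycles. -/
theorem exact_of_coprime (hℓ : ℓ.Prime) {c : ℕ → (Ω ≃ₐ[L] Ω) → Jac ℓ (f.map (algebraMap L Ω))}
    (hc : Wt.IsTateCocycle ℓ f c) (γ : Ω ≃+* Ω)
    (hγ : (f.map (algebraMap L Ω)).map (γ : Ω →+* Ω) = f.map (algebraMap L Ω)) (n : ℕ)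
    (h : ∃ m : ℕ, m.Coprime ℓ ∧ ∃ Q : Jac ℓ (f.map (algebraMap L Ω)), ∀ g g' : Ω ≃ₐ[L] Ω,
      (∀ z, γ (g z) = g' (γ z)) →
        m • (symJ ⟨γ, hγ⟩ (c n g) - c n g') = symJ (gs f g') Q - Q) :
    ∃ A : Jac ℓ (f.map (algebraMap L Ω)), ∀ g g' : Ω ≃ₐ[L] Ω, (∀ z, γ (g z) = g' (γ z)) →
      symJ ⟨γ, hγ⟩ (c n g) - c n g' = symJ (gs f g') A - A := by
  obtain ⟨m, hm, Q, hQ⟩ := h
  have hc0 : ∀ n σ, ℓ ^ n • c n σ = 0 := by
    intro n σ
    induction n with
    | zero => rw [hc.zero, smul_zero]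
    | succ n ih => rw [pow_succ, mul_smul, hc.smul, ih]
  obtain ⟨u, hu⟩ : ∃ u : ℕ, u * m ≡ 1 [MOD ℓ ^ n] := by
    rcases Nat.eq_zero_or_pos n with h0 | h0
    · exact ⟨0, by rw [h0, pow_zero]; exact Nat.modEq_one⟩
    · have hk : 1 < ℓ ^ n := Nat.one_lt_pow h0.ne' hℓ.one_lt
      obtain ⟨u, -, hu⟩ := Nat.exists_mul_mod_eq_one_of_coprime (Nat.Coprime.pow_right n hm) hk
      refine ⟨u, ?_⟩
      show u * m % ℓ ^ n = 1 % ℓ ^ n
      rw [mul_comm, hu, Nat.mod_eq_of_lt hk]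
  have key : ∀ X : Jac ℓ (f.map (algebraMap L Ω)), ℓ ^ n • X = 0 → (u * m) • X = X := by
    intro X hX
    have h1 : ∀ a : ℕ, a • X = (a % ℓ ^ n) • X := by
      intro a
      conv_lhs => rw [← Nat.mod_add_div a (ℓ ^ n)]
      rw [add_smul, mul_comm (ℓ ^ n), mul_smul, hX, smul_zero, add_zero]
    rw [h1 (u * m), hu, ← h1 1, one_smul]
  refine ⟨u • Q, fun g g' hgg => ?_⟩
  have h0 : ℓ ^ n • (symJ ⟨γ, hγ⟩ (c n g) - c n g') = 0 := by
    rw [smul_sub, ← map_nsmul, hc0, hc0, map_zero, sub_zero]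
  rw [← key _ h0, mul_smul, hQ g g' hgg, map_nsmul, ← smul_sub]

end

section

variable {K S : Type} [Field K] [Field S] [Algebra K S]
  {L Ω : Type} [Field L] [Field Ω] [Algebra L Ω] {ℓ : ℕ} {f : L[X]}
  {F : Type} [Field F] [Algebra F K] [Algebra F[X] L]
  {i : L →+* K} [IsAlgClosed F] [IsAlgClosure K S] [IsAlgClosure L Ω]
  [hG : IsGood ℓ (f.map (algebraMap L Ω))] {x y : K}
  {Φ : FunField ℓ (f.map (algebraMap L Ω)) →+* S}

private lemma module_auxJ {A : Type*} [AddCommGroup A] {m w : ℕ} {X Y P V U R Q Q' : A}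
    (h : m • (w • X - w • Y) = w • (Q' - Q)) :
    m • (w • X + (P - V) - (w • Y + (U - R))) = w • Q' + m • (P - U) - (w • Q + m • (V - R)) := by
  have h1 : m • (w • X + (P - V) - (w • Y + (U - R))) =
      m • (w • X - w • Y) + m • (P - V - (U - R)) := by
    rw [← smul_add]
    congr 1
    abel
  rw [h1, h]
  simp only [smul_sub]
  abel

/-- The transfer theorem, modulo the points of the Jacobian. -/
theorem transferJ (hℓ : ℓ.Prime)
    (hΦ : IsModel F i x y Φ) (hBr : BrTriv ℓ L Ω)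
    {Γ : Set (Ω ≃+* Ω)} {LT : ((Ω ≃ₐ[L] Ω) → JacOver ℓ f Ω) → Prop}
    (hV : ∀ (b : (Ω ≃ₐ[L] Ω) → (Ω ≃ₐ[L] Ω) → (FunField ℓ (f.map (algebraMap L Ω)))ˣ)
      (C : (Ω ≃ₐ[L] Ω) → (Pt ℓ (f.map (algebraMap L Ω)) →₀ ℤ)), ICoc b → IUnr F b → IDiv b C →
        LT fun g => cl (C g))
    (hNT : NTJ ℓ f LT Γ) {A : (S ≃+* S) → Prop}
    (hA : ∀ γ ∈ Γ, ∃ s : L ≃+* L, (∀ z, γ (algebraMap L Ω z) = algebraMap L Ω (s z)) ∧
      ∀ γ' : S ≃+* S, (∀ z : L, γ' (algebraMap K S (i z)) = algebraMap K S (i (s z))) →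
        γ' (algebraMap K S x) = algebraMap K S x → γ' (algebraMap K S y) = algebraMap K S y → A γ')
    (b : ℕ → (S ≃ₐ[K] S) → (S ≃ₐ[K] S) → Sˣ) (hb : IsTateSequence ℓ b)
    (hu : ∀ n, IsUnramified F (b n)) (hfix : ∀ γ : S ≃+* S, A γ → ∀ n, Bra.IsFixedBy (b n) γ) :
    ∀ n, IsCoboundary (b n) := by
  have hrep := fun n => exists_rep hℓ hΦ (b n) (hb.cocycle n) (hu n)
  choose m b' C hR using hrep
  have h0 : ∃ u : ℕ, u.Coprime ℓ ∧ (u • fun g => (cl (C 0 g) : Jac ℓ (f.map (algebraMap L Ω)))) ∈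
      cob1 (ℓ := ℓ) (Ω := Ω) f := by
    have e1 : IsCoboundary (infl hΦ (b' 0)) := by
      have e2 := ((hb.zero.pow (m 0)).mul (hR 0).infl.inv)
      refine Eq.mp (congrArg IsCoboundary ?_) e2
      funext g h
      rw [inv_div, mul_div_cancel]
    obtain ⟨u, hu, hcob⟩ := icob_of_infl hℓ hΦ _ (hR 0).cocycle e1
    obtain ⟨Q, hQ⟩ := cl_of_icob ((hR 0).div.pow u) hcob
    exact ⟨u, hu, Q, fun g => by rw [← hQ g, Pi.smul_apply, Pi.smul_apply, map_nsmul]⟩
  have h1 : ∀ n, ∃ u : ℕ, u.Coprime ℓ ∧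
      u • ((ℓ * m n) • (fun g => (cl (C (n + 1) g) : Jac ℓ (f.map (algebraMap L Ω)))) -
        m (n + 1) • fun g => (cl (C n g) : Jac ℓ (f.map (algebraMap L Ω)))) ∈
      cob1 (ℓ := ℓ) (Ω := Ω) f := by
    intro n
    obtain ⟨u, hu, Q, hQ⟩ := (hR (n + 1)).relation hℓ (hR n) ℓ (hb.pow n)
    exact ⟨u, hu, Q, fun g => hQ g⟩
  obtain ⟨w, hw0, hw1, hw2⟩ := exists_weights hℓ (cob1 (ℓ := ℓ) (Ω := Ω) f)
    (fun n g => cl (C n g)) m (fun n => (hR n).coprime) h0 h1
  obtain ⟨R, hR0, hR1⟩ := exists_exact hℓ (f := f)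
    (fun n g => w n • (cl (C n g) : Jac ℓ (f.map (algebraMap L Ω)))) hw0 hw1
  choose D hD using fun n => cl_surjective (N := ℓ) (f := f.map (algebraMap L Ω)) (R n)
  have hdiv : ∀ n, IDiv (fun g h => b' n g h ^ w n)
      (fun g => (w n • C n) g + ((D n).mapDomain (Pt.sym (gs f g)) - D n)) := fun n =>
    ((hR n).div.pow (w n)).add_coboundary (D n)
  set c : ℕ → (Ω ≃ₐ[L] Ω) → Jac ℓ (f.map (algebraMap L Ω)) := fun n g =>
    cl ((w n • C n) g + ((D n).mapDomain (Pt.sym (gs f g)) - D n)) with hc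
  have hc' : ∀ n g, c n g = w n • cl (C n g) + (symJ (gs f g) (R n) - R n) := by
    intro n g
    show cl ((w n • C n) g + ((D n).mapDomain (Pt.sym (gs f g)) - D n)) = _
    rw [← hD n, symJ_cl, map_add, map_sub, Pi.smul_apply, map_nsmul]
  have hT : Wt.IsTateCocycle ℓ f c := by
    refine ⟨fun σ => ?_, fun n σ => ?_, fun n σ τ => ?_, fun n => ?_⟩
    · rw [hc']
      exact hR0 σ
    · rw [hc', hc']
      exact hR1 n σ
    · rw [push_gs]
      exact (hdiv n).cl_cocycle σ τ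
    · apply isLocallyConstant_of_isCts
      obtain ⟨T, hT⟩ := (hdiv n).continuous
      exact ⟨T, fun g g' h => congrArg cl (hT g g' h)⟩
  have hLT' : ∀ n : ℕ, LT (c n) := fun n =>
    hV _ _ ((hR n).cocycle.pow (w n)) ((hR n).unr.pow (w n)) (hdiv n)
  have hF : ∀ (γ : Ω ≃+* Ω) (hγ : (f.map (algebraMap L Ω)).map (γ : Ω →+* Ω) = f.map (algebraMap L Ω)), γ ∈ Γ →
      ∀ n, ∃ A : JacOver ℓ f Ω, ∀ g h : Ω ≃ₐ[L] Ω, (∀ x, γ (g x) = h (γ x)) →
        jacMap ℓ (γ : Ω →+* Ω) hγ (c n g) - c n h = push ℓ f (h : Ω →ₐ[L] Ω) A - A := by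
    intro γ hγ hγk n
    obtain ⟨s, hs, hsA⟩ := hA γ hγk
    obtain ⟨γ', hγ', hγF⟩ := exists_lift hΦ γ hγ s hs
    refine exact_of_coprime hℓ hT γ hγ n ?_
    have e1 : Bra.IsFixedBy (b n) γ' := by
      refine hfix γ' (hsA γ' hγF ?_ ?_) n
      · rw [← hΦ.fx, hγ', funMap_polyF, map_X]
      · rw [← hΦ.fy, hγ', funMap_yF]
    obtain ⟨m', hm', a, ha, hab⟩ := icob_of_fixed hℓ hΦ (b n) (hb.cocycle n) (m n) (b' n)
      (hR n).cocycle (hR n).infl γ hγ s hs γ' hγ' e1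
    obtain ⟨Q, hQ⟩ := cl_of_fixed (hR n).div γ hγ s hs m' a ha hab
    refine ⟨m', hm', w n • Q + m' • (symJ ⟨γ, hγ⟩ (R n) - R n), fun g g' hg => ?_⟩
    have e2 := hQ g g' hg
    have e3 : symJ ⟨γ, hγ⟩ (symJ (gs f g) (R n)) = symJ (gs f g') (symJ ⟨γ, hγ⟩ (R n)) := by
      rw [← symJ_mul, ← symJ_mul]
      congr 1
      congr 1
      apply Subtype.ext
      apply RingEquiv.ext
      exact hg
    rw [hc', hc', map_add, map_sub, map_nsmul, e3, map_add, map_nsmul, map_nsmul, map_sub]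
    have e4 : m' • (w n • symJ ⟨γ, hγ⟩ (cl (C n g)) - w n • cl (C n g')) =
        w n • (symJ (gs f g') Q - Q) := by
      rw [← e2, smul_comm, smul_sub, smul_sub, smul_sub]
    exact module_auxJ e4
  have hNTk := hNT c hT hLT' hF
  -- the cocycles are trivial
  intro n
  obtain ⟨A, hA⟩ := hNTk n
  obtain ⟨u, hu', hcob⟩ := icob_of_cl hBr ((hR n).cocycle.pow (w n)) (hdiv n) A hA
  rcases Nat.eq_zero_or_pos n with rfl | hn
  · exact hb.zero
  have e2 : IsCoboundary fun g h => b n g h ^ (m n * w n * u) := by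
    have e3 := (icob_infl hΦ hcob).mul ((hR n).infl.pow (w n * u))
    refine Eq.mp (congrArg IsCoboundary ?_) e3
    funext g h
    unfold infl
    simp only [map_pow, div_pow, ← pow_mul]
    rw [mul_div_cancel, mul_assoc]
  refine IsCoboundary.of_coprime ?_ e2 (hb.pow_coboundary n)
  have e4 : (w n * m n).Coprime ℓ := by
    have e5 := ((hw2 n).of_dvd (dvd_pow_self ℓ hn.ne')).gcd_eq
    rw [Nat.gcd_one_left] at e5
    exact e5
  exact Nat.Coprime.pow_right n ((Nat.mul_comm (w n) (m n) ▸ e4).mul_left hu')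

end

/-- The theorem for general fields `L = F(t)` and algebraic closures. -/
theorem zq_aux {ℓ e : ℕ} (hℓ : ℓ.Prime) {k F K L Ω S : Type} [Field k] [Field F] [Algebra k F]
    [IsAlgClosure k F] [Field K] [Algebra F K] [Field S] [Algebra K S] [IsAlgClosure K S]
    [Field L] [Algebra F[X] L] [IsFractionRing F[X] L] [Algebra (RatFunc F) L]
    [FiniteDimensional (RatFunc F) L] [Field Ω] [Algebra L Ω] [IsAlgClosure L Ω]
    (hk : (ℓ : k) ≠ 0) {f : k[X][X]} (hB : Zp.IsBranchCurve ℓ e F f) (k' : IntermediateField k F)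
    (hNT : ∀ [IsGood ℓ ((f.map (base k F L L)).map (algebraMap L Ω))],
      NTJ ℓ (f.map (base k F L L)) (Zp.UB F ℓ (f.map (base k F L L))) (AutK k F L Ω k'))
    {t x y : K} (hind : AlgebraicIndependent F ![t, x]) (hy : y ^ ℓ = Zs.val F f t x) (i : L →+* K)
    (hi : ∀ p : F[X], i (algebraMap F[X] L p) = aeval t p)
    (hgen : ∀ M : Subfield K, (∀ z : L, i z ∈ M) → x ∈ M → y ∈ M → M = ⊤) :
    BrauerInvariantsTrivial ℓ S k' t x y := by
  have hFa : IsAlgClosed F := IsAlgClosure.isAlgClosed k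
  have hF0 : (ℓ : F) ≠ 0 := by
    rw [← map_natCast (algebraMap k F)]
    exact (_root_.map_ne_zero _).mpr hk
  obtain ⟨hsep, hG⟩ := Zp.good_of' (Ω := Ω) (L := L) hℓ hk hB
  obtain ⟨Φ, hΦ⟩ := exists_model_gen (Ω := Ω) (S := S) hind hy i hi hgen (map_base_eq F L f)
  have hinj : Function.Injective (algebraMap F[X] L) := IsFractionRing.injective F[X] L
  have hBr : BrTriv ℓ L Ω := by
    intro b hb
    refine tsen (C := F) hℓ ?_ b hb
    have h1 : algebraMap F[X] L (C (ℓ : F)) = (ℓ : L) := by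
      rw [map_natCast, map_natCast]
    rw [← h1]
    intro h0
    have h2 := hinj (h0.trans (map_zero _).symm)
    exact hF0 (C_eq_zero.1 h2)
  intro b hb hu hfix
  refine transferJ hℓ hΦ hBr (fun b C hb hu hC => ⟨b, C, hb, hu, hC, fun _ => rfl⟩) hNT
    (A := fun γ => (∀ c : F, c ∈ k' → γ (algebraMap K S (algebraMap F K c)) =
      algebraMap K S (algebraMap F K c)) ∧ γ (algebraMap K S t) = algebraMap K S t ∧
      γ (algebraMap K S x) = algebraMap K S x ∧
      γ (algebraMap K S y) = algebraMap K S y) ?_ b hb hu ?_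
  · intro γ hγ
    obtain ⟨σ, τ, h1, h2, h3⟩ := exists_of_mem_autK' k' hγ
    refine ⟨σ, h1, fun γ' h4 h5 h6 => ⟨fun c hc => ?_, ?_, h5, h6⟩⟩
    · have h7 := h4 (algebraMap F[X] L (C c))
      rw [h3, hi, hi, map_C, aeval_C, aeval_C] at h7
      rw [h7]
      congr 2
      exact h2 c hc
    · have h7 := h4 (algebraMap F[X] L X)
      rw [h3, hi, hi, map_X, aeval_X] at h7
      exact h7
  · intro γ hγ n
    exact hfix γ hγ.1 hγ.2.1 hγ.2.2.1 hγ.2.2.2 n

/-- The Brauer side: if the invariant classes in the Selmer groups come from the points of the Jacobians, there are no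
nontrivial invariant classes in the Tate modules of the Brauer groups. -/
theorem brauer_of_ntj {ℓ e : ℕ} {k F : Type} [Field k] [Field F] [Algebra k F] [IsAlgClosure k F] (hℓ : ℓ.Prime)
    (hk : (ℓ : k) ≠ 0) {f : k[X][X]} (hB : Zp.IsBranchCurve ℓ e F f)
    (hNT : ∀ (L Ω : Type) [Field L] [Algebra F[X] L] [IsFractionRing F[X] L] [Field Ω] [Algebra L Ω]
      [IsAlgClosure L Ω] [IsGood ℓ ((f.map (base k F L L)).map (algebraMap L Ω))] (k' : IntermediateField k F),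
      FiniteDimensional k k' →
      NTJ ℓ (f.map (base k F L L)) (Zp.UB F ℓ (f.map (base k F L L))) (AutK k F L Ω k')) :
    ∀ (K S : Type) [Field K] [Algebra F K] [Field S] [Algebra K S] [IsAlgClosure K S] (t x y : K),
      IsCoverField ℓ F f t x y → ∀ k' : IntermediateField k F, FiniteDimensional k k' →
        BrauerInvariantsTrivial ℓ S k' t x y := by
  intro K S _ _ _ _ _ t x y hK k' hk'
  have htr : Transcendental F t := by
    have h4 := hK.independent.transcendental 0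
    exact h4
  have hinj : Function.Injective ((aeval t : F[X] →ₐ[F] K) : F[X] →+* K) := by
    rw [injective_iff_map_eq_zero]
    intro p hp
    exact (transcendental_iff.1 htr) p hp
  let i : RatFunc F →+* K := IsFractionRing.lift hinj
  have hi : ∀ p : F[X], i (algebraMap F[X] (RatFunc F) p) = aeval t p := fun p =>
    IsFractionRing.lift_algebraMap hinj p
  have hgen : ∀ M : Subfield K, (∀ z : RatFunc F, i z ∈ M) → x ∈ M → y ∈ M → M = ⊤ := by
    intro M h1 h2 h3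
    rw [eq_top_iff]
    intro z _
    let M' : IntermediateField F K := { M with
      algebraMap_mem' := fun c => by
        have h4 := h1 (algebraMap F[X] (RatFunc F) (C c))
        rw [hi, aeval_C] at h4
        exact h4 }
    have h4 : IntermediateField.adjoin F {t, x, y} ≤ M' := by
      rw [IntermediateField.adjoin_le_iff]
      intro w hw
      rcases hw with rfl | rfl | hw
      · have h4 := h1 (algebraMap F[X] (RatFunc F) X)
        rw [hi, aeval_X] at h4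
        exact h4
      · exact h2
      · rw [Set.mem_singleton_iff.1 hw]
        exact h3
    rw [hK.generate] at h4
    exact h4 IntermediateField.mem_top
  exact zq_aux (S := S) (Ω := AlgebraicClosure (RatFunc F)) (L := RatFunc F) hℓ hk hB k'
    (fun {_} => hNT (RatFunc F) (AlgebraicClosure (RatFunc F)) k' hk') hK.independent hK.equation i hi hgen

end Pool.Agent.Lib.MP_89bcae_ag.Zq
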