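import Mathlib
import Pool.Agent.Lib.MP_89bcae_ag.Zq.Loc
import Pool.Agent.Lib.MP_89bcae_ag.Zl.Lift

/-!
# The classes in the cohomology of the Jacobian which are fixed by a subgroup of finite index
-/

attribute [local instance 100000] Pool.Agent.Lib.MP_89bcae_ag.Brt.tffFields
attribute [local instance 100000] Pool.Agent.Lib.MP_89bcae_ag.Wt.ifrNF Pool.Agent.Lib.MP_89bcae_ag.Wt.iddNF

open Polynomial IsDedekindDomain

open scoped Classical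

namespace Pool.Agent.Lib.MP_89bcae_ag.Zq

open Pool.Agent.Lib.MP_89bcae_ag.Wt Pool.Agent.Lib.MP_89bcae_ag.Wt.Lns

open Pool.Agent.Lib.MP_89bcae_ag.Zs (Gst Co1 actA LTprop tc_sub act_neg' Ufix Ufix_finiteIndex
  mem_autK_of_Ufix toTm tc_zl zA1)

set_option linter.unusedSectionVars false

section

variable {k F L Ω : Type} [Field k] [Field F] [Algebra k F] [Field L] [Algebra F[X] L]
  [Field Ω] [Algebra L Ω] [IsAlgClosure k F] [IsFractionRing F[X] L] [IsAlgClosure L Ω]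
  {ℓ : ℕ} {P : k[X][X]} {ζ : k} [hG : IsGood ℓ (cOver k F L Ω P)]

attribute [local instance] actA

lemma TrJ.of_trc {c : Coch ℓ k F L Ω P} (hc : Trc c) : TrJ c :=
  ⟨hc.1, fun n => by
    obtain ⟨A, _, hA⟩ := hc.2 n
    exact ⟨A, hA⟩⟩

lemma TrJ.zero : TrJ (0 : Coch ℓ k F L Ω P) := TrJ.of_trc Trc.zero

lemma TrJ.add {c c' : Coch ℓ k F L Ω P} (hc : TrJ c) (hc' : TrJ c') : TrJ (c + c') := by
  refine ⟨tc_add hc.1 hc'.1, fun n => ?_⟩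
  obtain ⟨A, hcA⟩ := hc.2 n
  obtain ⟨B, hcB⟩ := hc'.2 n
  refine ⟨A + B, fun σ => ?_⟩
  change c n σ + c' n σ = _
  rw [hcA σ, hcB σ, map_add]
  abel

lemma TrJ.neg {c : Coch ℓ k F L Ω P} (hc : TrJ c) : TrJ (-c) := by
  refine ⟨tc_neg hc.1, fun n => ?_⟩
  obtain ⟨A, hcA⟩ := hc.2 n
  refine ⟨-A, fun σ => ?_⟩
  change -(c n σ) = _
  rw [hcA σ, map_neg]
  abel

lemma TrJ.sub {c c' : Coch ℓ k F L Ω P} (hc : TrJ c) (hc' : TrJ c') : TrJ (c - c') := by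
  rw [sub_eq_add_neg]
  exact hc.add hc'.neg

lemma TrJ.zC {c : Coch ℓ k F L Ω P} (hc : TrJ c) (ζ : k) (hζ : (zA F L Ω ζ) ^ ℓ = 1) :
    TrJ (Lns.zC ζ hζ c) := by
  refine ⟨tc_zC hc.1 ζ hζ, fun n => ?_⟩
  obtain ⟨A, hcA⟩ := hc.2 n
  refine ⟨zJ (zA F L Ω ζ) hζ A, fun σ => ?_⟩
  change zJ (zA F L Ω ζ) hζ (c n σ) = _
  rw [hcA σ, map_sub, push_eq, push_eq, zJ_symJ]
  exact zA_fixed ζ (galA k F σ)

lemma TrJ.act {c : Coch ℓ k F L Ω P} (hc : TrJ c) (γ : AutO k F L Ω) :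
    TrJ (Lns.act γ c) := by
  refine ⟨tc_act hc.1 γ, fun n => ?_⟩
  obtain ⟨A, hcA⟩ := hc.2 n
  refine ⟨symJ (toSym P γ) A, fun σ => ?_⟩
  change symJ (toSym P γ) (c n (conjG γ⁻¹ σ)) = _
  rw [hcA, map_sub, push_eq, push_eq, galA_conjG, ← symJ_mul, ← symJ_mul, ← map_mul, ← map_mul]
  have h : γ * (γ⁻¹ * galA k F σ * γ⁻¹⁻¹) = galA k F σ * γ := by group
  rw [h]

variable {LT : Co1 ℓ k F L Ω P → Prop}

lemma TrJ.lt (hLT : LTprop ζ LT) {c : Coch ℓ k F L Ω P} (hc : TrJ c) (n : ℕ) : LT (c n) := by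
  obtain ⟨A, hA⟩ := hc.2 n
  have h : c n = fun σ => symJ (toSym P (galA k F σ)) A - A := by
    funext σ
    rw [hA σ, push_eq]
  rw [h]
  exact hLT.cob A

/-- If `c - Z c` is a coboundary, then `c` is one. -/
theorem TrJ.of_sub_zC (H : LHyp ℓ k F L P ζ) (hζ : (zA F L Ω ζ) ^ ℓ = 1) {c : Coch ℓ k F L Ω P}
    (hc : Wt.IsTateCocycle ℓ (curveL k F L P) c) (h : TrJ (c - Lns.zC ζ hζ c)) : TrJ c := by
  have Hζ : IsPrimitiveRoot (zA F L Ω ζ) ℓ := zA_prim H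
  have hfix' : ∀ σ : Ω ≃ₐ[L] Ω, ((toSym P (galA k F σ) :
      Sym (cOver k F L Ω P)) : Ω ≃+* Ω) (zA F L Ω ζ) = zA F L Ω ζ :=
    fun σ => zA_fixed ζ (galA k F σ)
  refine ⟨hc, fun n => ?_⟩
  obtain ⟨A, hA⟩ := h.2 (n + 1)
  obtain ⟨A', hA'⟩ := exists_smul_eq H.prime (zA F L Ω ζ) Hζ A
  set B : JacOver ℓ (curveL k F L P) Ω := vJ (zA F L Ω ζ) hζ A' with hB
  have hBA : B - zJ (zA F L Ω ζ) hζ B = A := (vJ_sub_zJ (zA F L Ω ζ) Hζ A').trans hA'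
  refine ⟨ℓ • B, fun σ => ?_⟩
  set e : JacOver ℓ (curveL k F L P) Ω := c (n + 1) σ - (symJ (toSym P (galA k F σ)) B - B) with he
  have he1 : zJ (zA F L Ω ζ) hζ e = e := by
    have h1 : c (n + 1) σ - zJ (zA F L Ω ζ) hζ (c (n + 1) σ) =
        push ℓ (curveL k F L P) (σ : Ω →ₐ[L] Ω) A - A := hA σ
    rw [push_eq, ← hBA, map_sub, ← zJ_symJ _ _ _ (hfix' σ)] at h1
    rw [he, map_sub, map_sub]
    have h3 : c (n + 1) σ = zJ (zA F L Ω ζ) hζ (c (n + 1) σ) +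
        (symJ (toSym P (galA k F σ)) B - zJ (zA F L Ω ζ) hζ (symJ (toSym P (galA k F σ)) B) -
          (B - zJ (zA F L Ω ζ) hζ B)) := by
      rw [← h1]
      abel
    conv_rhs => rw [h3]
    abel
  have he2 : ℓ • e = 0 := by
    rw [← vJ_sub_zJ (zA F L Ω ζ) Hζ e]
    have h1 : zJ (zA F L Ω ζ) hζ (vJ (zA F L Ω ζ) hζ e) = vJ (zA F L Ω ζ) hζ e := by
      rw [← vJ_zJ, he1]
    exact sub_eq_zero.2 h1.symm
  have h2 : c n σ = ℓ • c (n + 1) σ := (hc.smul n σ).symm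
  rw [h2, push_eq, map_nsmul, ← smul_sub, ← sub_eq_zero, ← smul_sub]
  exact he2

lemma IsWJ.of_trj (hLT : LTprop ζ LT) (θ₀ : Ω) {c : Coch ℓ k F L Ω P} (hc : TrJ c) :
    IsWJ LT θ₀ c :=
  ⟨hc.1, fun n => TrJ.lt hLT hc n, ⊤, inferInstance, fun _ _ => (hc.act _).sub hc⟩

lemma IsWJ.add (hLT : LTprop ζ LT) {θ₀ : Ω} {c c' : Coch ℓ k F L Ω P} (hc : IsWJ LT θ₀ c)
    (hc' : IsWJ LT θ₀ c') : IsWJ LT θ₀ (c + c') := by
  obtain ⟨h1, h2, U, hU, h3⟩ := hc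
  obtain ⟨h1', h2', U', hU', h3'⟩ := hc'
  refine ⟨tc_add h1 h1', fun n => hLT.add (h2 n) (h2' n), U ⊓ U', inferInstance, fun γ hγ => ?_⟩
  have e : act ((γ : Gst k F L θ₀) : AutO k F L Ω) (c + c') - (c + c') =
      (act ((γ : Gst k F L θ₀) : AutO k F L Ω) c - c) +
        (act ((γ : Gst k F L θ₀) : AutO k F L Ω) c' - c') := by
    rw [act_add]
    abel
  rw [e]
  exact (h3 γ hγ.1).add (h3' γ hγ.2)

lemma IsWJ.neg (hLT : LTprop ζ LT) {θ₀ : Ω} {c : Coch ℓ k F L Ω P} (hc : IsWJ LT θ₀ c) :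
    IsWJ LT θ₀ (-c) := by
  obtain ⟨h1, h2, U, hU, h3⟩ := hc
  refine ⟨tc_neg h1, fun n => hLT.neg (h2 n), U, hU, fun γ hγ => ?_⟩
  have e : act ((γ : Gst k F L θ₀) : AutO k F L Ω) (-c) - -c =
      -(act ((γ : Gst k F L θ₀) : AutO k F L Ω) c - c) := by
    rw [act_neg']
    abel
  rw [e]
  exact (h3 γ hγ).neg

lemma IsWJ.sub (hLT : LTprop ζ LT) {θ₀ : Ω} {c c' : Coch ℓ k F L Ω P} (hc : IsWJ LT θ₀ c)
    (hc' : IsWJ LT θ₀ c') : IsWJ LT θ₀ (c - c') := by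
  rw [sub_eq_add_neg]
  exact hc.add hLT (hc'.neg hLT)

lemma IsWJ.zC (hLT : LTprop ζ LT) {θ₀ : Ω} {c : Coch ℓ k F L Ω P} (hc : IsWJ LT θ₀ c)
    (hζ : (zA F L Ω ζ) ^ ℓ = 1) : IsWJ LT θ₀ (Lns.zC ζ hζ c) := by
  obtain ⟨h1, h2, U, hU, h3⟩ := hc
  refine ⟨tc_zC h1 ζ hζ, fun n => hLT.zJ hζ (h2 n), U, hU, fun γ hγ => ?_⟩
  rw [act_zC, ← map_sub]
  exact (h3 γ hγ).zC ζ hζ

lemma IsWJ.act (hLT : LTprop ζ LT) {θ₀ : Ω} {c : Coch ℓ k F L Ω P} (hc : IsWJ LT θ₀ c)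
    (g : Gst k F L θ₀) : IsWJ LT θ₀ (Lns.act ((g : Gst k F L θ₀) : AutO k F L Ω) c) := by
  obtain ⟨h1, h2, U, hU, h3⟩ := hc
  refine ⟨tc_act h1 _, fun n => hLT.act _ (h2 n),
    U.comap (MulAut.conj g⁻¹).toMonoidHom, ?_, fun γ hγ => ?_⟩
  · refine ⟨?_⟩
    rw [Subgroup.index_comap_of_surjective U (MulAut.conj g⁻¹).surjective]
    exact hU.index_ne_zero
  · have hu : g⁻¹ * γ * g ∈ U := by
      have := hγ
      rw [Subgroup.mem_comap] at this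
      simpa using this
    have e : Lns.act ((γ : Gst k F L θ₀) : AutO k F L Ω) (Lns.act (g : AutO k F L Ω) c) -
        Lns.act (g : AutO k F L Ω) c =
        Lns.act (g : AutO k F L Ω) (Lns.act ((g⁻¹ * γ * g : Gst k F L θ₀) : AutO k F L Ω) c - c) := by
      rw [act_sub, ← act_mul, ← act_mul]
      congr 2
      rw [← Subgroup.coe_mul, ← Subgroup.coe_mul]
      congr 1
      group
    rw [e]
    exact (h3 _ hu).act _

/-- A class in the image of the ramification points is divisible by `1 - Z`. -/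
theorem h1_divJ (H : LHyp ℓ k F L P ζ) (hLT : LTprop ζ LT)
    {θ₀ : Ω} (hζ : (zA F L Ω ζ) ^ ℓ = 1) {c : Coch ℓ k F L Ω P} (hc : IsWJ LT θ₀ c) (q : Ω → ℤ)
    (hq : ∀ σ : Ω ≃ₐ[L] Ω, vJ (zA F L Ω ζ) hζ (c 1 σ) =
      symJ (toSym P (galA k F σ)) (rm q) - rm q) :
    ∃ y : Coch ℓ k F L Ω P, IsWJ LT θ₀ y ∧ TrJ (c - (y - Lns.zC ζ hζ y)) := by
  have Hζ : IsPrimitiveRoot (zA F L Ω ζ) ℓ := zA_prim H
  have hfix' : ∀ σ : Ω ≃ₐ[L] Ω, ((toSym P (galA k F σ) :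
      Sym (cOver k F L Ω P)) : Ω ≃+* Ω) (zA F L Ω ζ) = zA F L Ω ζ :=
    fun σ => zA_fixed ζ (galA k F σ)
  -- the divisions
  choose dv hdv using fun Q : JacOver ℓ (curveL k F L P) Ω =>
    exists_smul_eq H.prime (zA F L Ω ζ) Hζ Q
  set B1 : JacOver ℓ (curveL k F L P) Ω := dv (rm q) with hB1
  set B : JacOver ℓ (curveL k F L P) Ω := B1 - zJ (zA F L Ω ζ) hζ B1 with hB
  have hvB : vJ (zA F L Ω ζ) hζ B = rm q := by
    rw [hB, vJ_sub, vJ_zJ]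
    exact (vJ_sub_zJ (zA F L Ω ζ) Hζ B1).trans (hdv _)
  have hlB : ℓ • B = 0 := by
    rw [← vJ_sub_zJ (zA F L Ω ζ) Hζ B, hvB, zJ_rm, sub_self]
  set Q : ℕ → JacOver ℓ (curveL k F L P) Ω := fun n => Nat.rec 0 (fun m _ => dv^[m] B) n with hQ
  have hQ0 : Q 0 = 0 := rfl
  have hQ1 : Q 1 = B := rfl
  have hQs : ∀ n, ℓ • Q (n + 1) = Q n := by
    intro n
    cases n with
    | zero => rw [hQ0]; exact hlB
    | succ n =>
      show ℓ • dv^[n + 1] B = dv^[n] B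
      rw [Function.iterate_succ_apply']
      exact hdv _
  have hQn : ∀ n, ℓ ^ n • Q n = 0 := by
    intro n
    induction n with
    | zero => rw [pow_zero, one_smul, hQ0]
    | succ n ih => rw [pow_succ, mul_smul, hQs, ih]
  -- the coboundary
  set d : Coch ℓ k F L Ω P := fun n σ => symJ (toSym P (galA k F σ)) (Q n) - Q n with hd
  have hdTC : Wt.IsTateCocycle ℓ (curveL k F L P) d := by
    refine ⟨fun σ => ?_, fun n σ => ?_, fun n σ τ => ?_, fun n => ?_⟩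
    · show symJ (toSym P (galA k F σ)) (Q 0) - Q 0 = 0
      rw [hQ0, map_zero, sub_zero]
    · show ℓ • (symJ (toSym P (galA k F σ)) (Q (n + 1)) - Q (n + 1)) =
        symJ (toSym P (galA k F σ)) (Q n) - Q n
      rw [smul_sub, ← map_nsmul, hQs]
    · show symJ (toSym P (galA k F (σ * τ))) (Q n) - Q n = (symJ (toSym P (galA k F σ)) (Q n) - Q n) +
        push ℓ (curveL k F L P) (σ : Ω →ₐ[L] Ω) (symJ (toSym P (galA k F τ)) (Q n) - Q n)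
      rw [push_eq, map_mul, map_mul, symJ_mul, map_sub]
      abel
    · exact (Zs.h1_locConst (Q n)).comp fun a => a - Q n
  have hdTrc : Trc d := ⟨hdTC, fun n => ⟨Q n, hQn n, fun σ => by rw [push_eq]⟩⟩
  set c' : Coch ℓ k F L Ω P := c - d with hc'
  have hW' : IsWJ LT θ₀ c' := hc.sub hLT (IsWJ.of_trj hLT θ₀ (TrJ.of_trc hdTrc))
  have hv1 : ∀ σ : Ω ≃ₐ[L] Ω, vJ (zA F L Ω ζ) hζ (c' 1 σ) = 0 := by
    intro σ
    show vJ (zA F L Ω ζ) hζ (c 1 σ - (symJ (toSym P (galA k F σ)) (Q 1) - Q 1)) = 0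
    rw [vJ_sub, vJ_sub, vJ_symJ _ _ _ (hfix' σ), hQ1, hvB, hq σ, sub_self]
  set y : Coch ℓ k F L Ω P := fun n σ => vJ (zA F L Ω ζ) hζ (c' (n + 1) σ) with hy
  have hyTC : Wt.IsTateCocycle ℓ (curveL k F L P) y := by
    refine ⟨fun σ => hv1 σ, fun n σ => ?_, fun n σ τ => ?_, fun n => ?_⟩
    · show ℓ • vJ (zA F L Ω ζ) hζ (c' (n + 1 + 1) σ) = vJ (zA F L Ω ζ) hζ (c' (n + 1) σ)
      rw [← vJ_smul, hW'.1.smul]
    · show vJ (zA F L Ω ζ) hζ (c' (n + 1) (σ * τ)) = vJ (zA F L Ω ζ) hζ (c' (n + 1) σ) +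
        push ℓ (curveL k F L P) (σ : Ω →ₐ[L] Ω) (vJ (zA F L Ω ζ) hζ (c' (n + 1) τ))
      rw [hW'.1.cocycle, vJ_add, push_eq, push_eq, vJ_symJ _ _ _ (hfix' σ)]
    · exact (hW'.1.locallyConstant (n + 1)).comp (fun Q => vJ (zA F L Ω ζ) hζ Q)
  have hπy : y - Lns.zC ζ hζ y = c' := by
    funext n σ
    show vJ (zA F L Ω ζ) hζ (c' (n + 1) σ) - zJ (zA F L Ω ζ) hζ (vJ (zA F L Ω ζ) hζ (c' (n + 1) σ)) =
      c' n σ
    exact (vJ_sub_zJ (zA F L Ω ζ) Hζ (c' (n + 1) σ)).trans (hW'.1.smul n σ)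
  refine ⟨y, ⟨hyTC, fun n => hLT.vJ hζ (hW'.2.1 (n + 1)), ?_⟩, ?_⟩
  · obtain ⟨U, hU, hUc⟩ := hW'.2.2
    refine ⟨U, hU, fun γ hγ => ?_⟩
    have hx : Wt.IsTateCocycle ℓ (curveL k F L P)
        (Lns.act ((γ : Gst k F L θ₀) : AutO k F L Ω) y - y) := tc_sub (tc_act hyTC _) hyTC
    refine TrJ.of_sub_zC H hζ hx ?_
    have h1 : Lns.act ((γ : Gst k F L θ₀) : AutO k F L Ω) y - y -
        Lns.zC ζ hζ (Lns.act ((γ : Gst k F L θ₀) : AutO k F L Ω) y - y) =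
        Lns.act ((γ : Gst k F L θ₀) : AutO k F L Ω) c' - c' := by
      rw [← hπy, act_sub, act_zC, map_sub]
      abel
    rw [h1]
    exact hUc γ hγ
  · rw [hπy, hc', sub_sub_cancel]
    exact TrJ.of_trc hdTrc

/-- A class fixed by the automorphisms over `k'(t)`. -/
theorem isWJ_of_fixed (θ₀ : Ω) {c : Coch ℓ k F L Ω P} (hc : Wt.IsTateCocycle ℓ (curveL k F L P) c)
    (hcLT : ∀ n, LT (c n)) (k' : IntermediateField k F) [FiniteDimensional k k']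
    (hfix : ∀ (γ : Ω ≃+* Ω) hγ, γ ∈ Bra.AutK k F L Ω k' → IsFixedByJ ℓ (curveL k F L P) c γ hγ) :
    IsWJ LT θ₀ c := by
  refine ⟨hc, hcLT, Ufix L θ₀ k', Ufix_finiteIndex θ₀ k', fun γ hγ => ?_⟩
  refine ⟨tc_sub (tc_act hc _) hc, fun n => ?_⟩
  obtain ⟨A, hA⟩ := hfix _ (toSym P ((γ : Gst k F L θ₀) : AutO k F L Ω)).2 (mem_autK_of_Ufix hγ) n
  refine ⟨A, fun σ => ?_⟩
  rw [← hA (conjG (((γ : Gst k F L θ₀) : AutO k F L Ω))⁻¹ σ) σ (fun x => ?_)]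
  · rfl
  · have h2 := conjG_spec (((γ : Gst k F L θ₀) : AutO k F L Ω))⁻¹ σ
      ((((γ : Gst k F L θ₀) : AutO k F L Ω) : Ω ≃+* Ω) x)
    have h3 : ∀ z : Ω, (((((γ : Gst k F L θ₀) : AutO k F L Ω))⁻¹ : AutO k F L Ω) : Ω ≃+* Ω)
        ((((γ : Gst k F L θ₀) : AutO k F L Ω) : Ω ≃+* Ω) z) = z := fun z =>
      (((γ : Gst k F L θ₀) : AutO k F L Ω) : Ω ≃+* Ω).symm_apply_apply z
    have h4 : ∀ z : Ω, (((γ : Gst k F L θ₀) : AutO k F L Ω) : Ω ≃+* Ω)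
        ((((((γ : Gst k F L θ₀) : AutO k F L Ω))⁻¹ : AutO k F L Ω) : Ω ≃+* Ω) z) = z := fun z =>
      (((γ : Gst k F L θ₀) : AutO k F L Ω) : Ω ≃+* Ω).apply_symm_apply z
    rw [h3] at h2
    show (((γ : Gst k F L θ₀) : AutO k F L Ω) : Ω ≃+* Ω) (conjG _ σ x) = _
    rw [h2, h4]
    rfl

/-! ### the modules -/

variable [hl : Fact ℓ.Prime]

lemma trj_zl {c : MP89bZ.Tm ℓ (Co1 ℓ k F L Ω P)} (hc : TrJ (c : Coch ℓ k F L Ω P)) (a : ℤ_[ℓ]) :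
    TrJ ((a • c : MP89bZ.Tm ℓ (Co1 ℓ k F L Ω P)) : Coch ℓ k F L Ω P) := by
  refine ⟨tc_zl hc.1 a, fun n => ?_⟩
  obtain ⟨A, hcA⟩ := hc.2 n
  refine ⟨(a.appr n) • A, fun σ => ?_⟩
  rw [MP89bZ.Tm.smul_apply]
  show (a.appr n) • (c : Coch ℓ k F L Ω P) n σ = _
  rw [hcA σ, map_nsmul, smul_sub]

variable (ℓ k F L Ω P) in
/-- The classes which are trivial in the cohomology of the Jacobian. -/
def TJm : Submodule ℤ_[ℓ] (MP89bZ.Tm ℓ (Co1 ℓ k F L Ω P)) where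
  carrier := {c | TrJ (c : Coch ℓ k F L Ω P)}
  zero_mem' := TrJ.zero
  add_mem' := fun h h' => TrJ.add h h'
  smul_mem' := fun a _ h => trj_zl h a

/-- The classes with the local property which are fixed, in the cohomology of the Jacobian, by a
subgroup of finite index. -/
def WJm (hLT : LTprop ζ LT) (θ₀ : Ω) : Submodule ℤ_[ℓ] (MP89bZ.Tm ℓ (Co1 ℓ k F L Ω P)) where
  carrier := {c | IsWJ LT θ₀ (c : Coch ℓ k F L Ω P)}
  zero_mem' := IsWJ.of_trj hLT θ₀ TrJ.zero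
  add_mem' := fun h h' => IsWJ.add hLT h h'
  smul_mem' := by
    rintro a c ⟨h1, h2, U, hU, h3⟩
    refine ⟨tc_zl h1 a, fun n => ?_, U, hU, fun γ hγ => ?_⟩
    · rw [MP89bZ.Tm.smul_apply]
      exact hLT.nsmul (h2 n) _
    · have e : act ((γ : Gst k F L θ₀) : AutO k F L Ω)
          ((a • c : MP89bZ.Tm ℓ (Co1 ℓ k F L Ω P)) : Coch ℓ k F L Ω P) -
          ((a • c : MP89bZ.Tm ℓ (Co1 ℓ k F L Ω P)) : Coch ℓ k F L Ω P) =
          ((a • (((γ : Gst k F L θ₀) : AutO k F L Ω) • c - c) : MP89bZ.Tm ℓ (Co1 ℓ k F L Ω P)) :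
            Coch ℓ k F L Ω P) := by
        rw [smul_sub, ← MP89bZ.Tm.act_smul]
        rfl
      rw [e]
      exact trj_zl (h3 γ hγ) a

/-- **The classes in the cohomology of the Jacobian fixed by the automorphisms over a finite
extension are trivial**, if the exponents `E` of the classes have values in a module without stable
subgroups which lift. -/
theorem ntj_of_lift (H : LHyp ℓ k F L P ζ) (hLT : LTprop ζ LT)
    (θ₀ : Ω) (hζ : (zA F L Ω ζ) ^ ℓ = 1)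
    {M : Type*} [AddCommGroup M] [DistribMulAction (Gst k F L θ₀) M]
    (E : Coch ℓ k F L Ω P → M → Prop)
    (hE : ∀ c, IsWJ LT θ₀ c → ∃ m, E c m)
    (hadd : ∀ c c', IsWJ LT θ₀ c → IsWJ LT θ₀ c' → ∀ m m', E c m → E c' m' → E (c + c') (m + m'))
    (hET : ∀ c, TrJ c → ∀ m, E c m → m = 0)
    (hEZ : ∀ c, IsWJ LT θ₀ c → ∀ m, E c m → E (Lns.zC ζ hζ c) m)
    (hker : ∀ c, IsWJ LT θ₀ c → E c 0 → ∃ c' : Coch ℓ k F L Ω P, TrJ c' ∧ ∃ q : Ω → ℤ,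
      ∀ σ : Ω ≃ₐ[L] Ω, vJ (zA F L Ω ζ) hζ ((c - c') 1 σ) =
        symJ (toSym P (galA k F σ)) (rm q) - rm q)
    (hGE : ∀ (g : Gst k F L θ₀) c, IsWJ LT θ₀ c → ∀ m, E c m → E (act (g : AutO k F L Ω) c) (g • m))
    (hcrit : ∀ N : AddSubgroup M, N ≠ ⊥ → (∀ m ∈ N, ∃ c, IsWJ LT θ₀ c ∧ E c m) →
      (∀ g : Gst k F L θ₀, ∀ m ∈ N, g • m ∈ N) → ∀ r : ℕ, Nat.card N = ℓ ^ r →
        ∀ (n : ℕ) (σ : Module.End ℤ_[ℓ] (Fin n → ℤ_[ℓ]))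
          (ρ : Gst k F L θ₀ →* Module.End ℤ_[ℓ] (Fin n → ℤ_[ℓ])) (th : (Fin n → ℤ_[ℓ]) →+ M),
          ¬ MP89bZ.Lifts N σ ρ th)
    (k' : IntermediateField k F) [FiniteDimensional k k'] :
    NTJ ℓ (curveL k F L P) LT (Bra.AutK k F L Ω k') := by
  intro c hc hcLT hfix
  have hcW : IsWJ LT θ₀ c := isWJ_of_fixed θ₀ hc hcLT k' hfix
  suffices h : TrJ c from h.2
  by_contra hcT
  have hz : IsPrimitiveRoot (zA F L Ω ζ) ℓ := zA_prim H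
  let Z : MP89bZ.Tm ℓ (Co1 ℓ k F L Ω P) →ₗ[ℤ_[ℓ]] MP89bZ.Tm ℓ (Co1 ℓ k F L Ω P) :=
    MP89bZ.Tm.map (zA1 ζ hζ)
  have hZc : ∀ c : MP89bZ.Tm ℓ (Co1 ℓ k F L Ω P), ((Z c : MP89bZ.Tm ℓ (Co1 ℓ k F L Ω P)) :
      Coch ℓ k F L Ω P) = Lns.zC ζ hζ (c : Coch ℓ k F L Ω P) := fun c => rfl
  have hZi : ∀ (i : ℕ) (c : MP89bZ.Tm ℓ (Co1 ℓ k F L Ω P)),
      (((Z ^ i) c : MP89bZ.Tm ℓ (Co1 ℓ k F L Ω P)) : Coch ℓ k F L Ω P) =
        (Lns.zC ζ hζ)^[i] (c : Coch ℓ k F L Ω P) := by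
    intro i
    induction i with
    | zero => intro c; rfl
    | succ i ih =>
      intro c
      rw [pow_succ, Module.End.mul_apply, ih, hZc, Function.iterate_succ_apply]
  obtain ⟨N, hN0, hNE, hNst, ⟨r, hr⟩, n, σ, ρ, th, hle⟩ := MP89bZ.lemma_Z_sub_lift (l := ℓ)
    (C := MP89bZ.Tm ℓ (Co1 ℓ k F L Ω P)) (G := Gst k F L θ₀) (M := M)
    (fun g a c => MP89bZ.Tm.act_smul g a c)
    (WJm hLT θ₀) (TJm k F L Ω ℓ P) Z
    (fun c hc => by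
      show IsWJ LT θ₀ _
      rw [hZc]
      exact IsWJ.zC hLT hc hζ)
    (fun c hc => by
      show TrJ _
      rw [hZc]
      exact TrJ.zC hc ζ hζ)
    (fun g c hc => IsWJ.act hLT hc g)
    (fun g c hc => TrJ.act hc (g : AutO k F L Ω))
    (fun c hc => by
      have h1 : ∑ i ∈ Finset.range ℓ, (Z ^ i) c = 0 := by
        refine Subtype.ext ?_
        rw [AddSubgroup.val_finsetSum]
        simp only [hZi]
        exact sum_zC_mem ζ hz (c : Coch ℓ k F L Ω P)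
      rw [h1]
      exact (TJm k F L Ω ℓ P).zero_mem)
    (fun g c hc => by
      have h1 : Z (g • c) - g • Z c = 0 := by
        rw [sub_eq_zero]
        refine Subtype.ext ?_
        rw [hZc]
        exact (act_zC (g : AutO k F L Ω) ζ hζ (c : Coch ℓ k F L Ω P)).symm
      rw [h1]
      exact (TJm k F L Ω ℓ P).zero_mem)
    (fun c hc h => by
      have hc' : IsWJ LT θ₀ (c : Coch ℓ k F L Ω P) := hc
      have h' : TrJ ((c : Coch ℓ k F L Ω P) - Lns.zC ζ hζ (c : Coch ℓ k F L Ω P)) := h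
      exact TrJ.of_sub_zC H hζ hc'.1 h')
    (fun c hc h => by
      have hc' : IsWJ LT θ₀ (c : Coch ℓ k F L Ω P) := hc
      refine ⟨hc'.1, fun n => ?_⟩
      obtain ⟨y, hy, hyT⟩ := h n
      obtain ⟨A, hA2⟩ := hyT.2 n
      refine ⟨A, fun σ => ?_⟩
      rw [← hA2 σ]
      show _ = (c : Coch ℓ k F L Ω P) n σ -
        ((((ℓ : ℤ_[ℓ]) ^ n) • y : MP89bZ.Tm ℓ (Co1 ℓ k F L Ω P)) : Coch ℓ k F L Ω P) n σ
      rw [MP89bZ.Tm.pow_smul_apply, MP89bZ.Tm.pow_smul, Pi.zero_apply, sub_zero])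
    (fun c hc => by
      obtain ⟨U, hU, h3⟩ := hc.2.2
      exact ⟨U, hU, h3⟩)
    (fun c m => E (c : Coch ℓ k F L Ω P) m)
    (fun c hc => hE _ hc)
    (fun c hc c' hc' m m' h h' => hadd _ _ hc hc' m m' h h')
    (fun c hc m h => hET _ hc m h)
    (fun c hc m h => by
      rw [hZc]
      exact hEZ _ hc m h)
    (fun c hc h => by
      obtain ⟨c', hc', q, hq⟩ := hker _ hc h
      obtain ⟨y, hy, hyT⟩ := h1_divJ H hLT hζ (IsWJ.sub hLT hc (IsWJ.of_trj hLT θ₀ hc')) q hq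
      refine ⟨toTm y hy.1, hy, ?_⟩
      have h1 : (c : Coch ℓ k F L Ω P) - (y - Lns.zC ζ hζ y) =
          ((c : Coch ℓ k F L Ω P) - c' - (y - Lns.zC ζ hζ y)) + c' := by abel
      show TrJ ((c : Coch ℓ k F L Ω P) - (y - Lns.zC ζ hζ y))
      rw [h1]
      exact hyT.add hc')
    (fun g c hc m h => hGE g _ hc m h)
    (fun h => hcT (h (show toTm c hc ∈ WJm hLT θ₀ from hcW)))
  exact hcrit N hN0 (fun m hm => by
    obtain ⟨c, hc, h⟩ := hNE m hm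
    exact ⟨(c : Coch ℓ k F L Ω P), hc, h⟩) hNst r hr n σ ρ th hle

end

end Pool.Agent.Lib.MP_89bcae_ag.Zq
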