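import Mathlib
import Pool.Agent.Lib.MP_89bcae_ag.Z.Defs

/-!
# The criteria for a subquotient `N / V` of `Eˣ`
-/

open scoped Classical

namespace Pool.Agent.Lib.MP_89bcae_ag.Zq

open Pool.Agent.Lib.MP_89bcae_ag.Zs (galois)

section

variable (ℓ : ℕ) (k F : Type) {E : Type} [Field k] [Field F] [Algebra k F] [Field E] [Algebra F E] (t x : E)
  (V N : Subgroup Eˣ)

/-- The criterion of Minkowski and Schur for the group `N / V`, of order `ℓ ^ r`: the order of the image of the Galois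
group in the group of its automorphisms is divisible by a higher power of `ℓ` than `ℓ ^ r r!`. -/
def IsLarge (r : ℕ) : Prop :=
  r + padicValNat ℓ r.factorial <
    padicValNat ℓ (Nat.card (Set.range fun (γ : galois ℓ k F t x) (u : N) =>
      ((Units.map ((γ : E ≃+* E) : E →* E) u : Eˣ) : Eˣ ⧸ V)))

/-- The criterion of Jordan for the group `N / V`, of order `ℓ ^ r`: we have `ℓ > (13 r) ^ r`, and two elements of the Galois group,
which act on this group through automorphisms the orders of which are powers of `ℓ`, do not commute on it. -/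
def IsTwisted (r : ℕ) : Prop :=
  (13 * r) ^ r < ℓ ∧ ∃ γ ∈ galois ℓ k F t x, ∃ γ' ∈ galois ℓ k F t x, ∃ m : ℕ,
    (∀ u ∈ N, Units.map ((γ ^ ℓ ^ m : E ≃+* E) : E →* E) u / u ∈ V) ∧
    (∀ u ∈ N, Units.map ((γ' ^ ℓ ^ m : E ≃+* E) : E →* E) u / u ∈ V) ∧
      ∃ u ∈ N, Units.map ((γ * γ' : E ≃+* E) : E →* E) u / Units.map ((γ' * γ : E ≃+* E) : E →* E) u ∉ V

/-- The group `N / V` lifts: it is the quotient by `1 - σ` of the module `ℤ_ℓ ^ n`, where `1 + σ + ... + σ ^ (ℓ - 1) = 0` (so that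
this is a module over the ring generated over `ℤ_ℓ` by the `ℓ`-th roots of unity), and there is a finite group `Γ` of automorphisms of
this module, which commute with `σ`, such that the elements of the Galois group act on `N / V` as elements of `Γ`. -/
structure IsLift [Fact ℓ.Prime] {n : ℕ} (σ : Module.End ℤ_[ℓ] (Fin n → ℤ_[ℓ]))
    (Γ : Subgroup ((Fin n → ℤ_[ℓ]) ≃ₗ[ℤ_[ℓ]] (Fin n → ℤ_[ℓ]))) (π : (Fin n → ℤ_[ℓ]) → Eˣ) : Prop where
  finite : Finite Γ
  comm : ∀ g ∈ Γ, ∀ v, g (σ v) = σ (g v)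
  cyclotomic : ∑ i ∈ Finset.range ℓ, σ ^ i = 0
  add : ∀ v w, π (v + w) / (π v * π w) ∈ V
  range : ∀ u, u ∈ N ↔ ∃ v, u / π v ∈ V
  kernel : ∀ v, π v ∈ V ↔ ∃ w, v = w - σ w
  lift : ∀ γ ∈ galois ℓ k F t x, ∃ g ∈ Γ, ∀ v, Units.map (γ : E →* E) (π v) / π (g v) ∈ V

end

/-- Each subgroup `N` with `V < N ≤ U`, stable under the Galois group and such that `N / V` is finite, satisfies one of the
criteria above or does not lift. -/
def IsRigid (ℓ : ℕ) [Fact ℓ.Prime] (k F : Type) {E : Type} [Field k] [Field F] [Algebra k F] [Field E]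
    [Algebra F E] (t x : E) (U V : Subgroup Eˣ) : Prop :=
  ∀ N : Subgroup Eˣ, V < N → N ≤ U → (∀ γ ∈ galois ℓ k F t x, ∀ u ∈ N, Units.map (γ : E →* E) u ∈ N) →
    ∀ r : ℕ, V.relIndex N = ℓ ^ r →
      IsLarge ℓ k F t x V N r ∨ IsTwisted ℓ k F t x V N r ∨
        ¬ ∃ (n : ℕ) (σ : Module.End ℤ_[ℓ] (Fin n → ℤ_[ℓ]))
          (Γ : Subgroup ((Fin n → ℤ_[ℓ]) ≃ₗ[ℤ_[ℓ]] (Fin n → ℤ_[ℓ]))) (π : (Fin n → ℤ_[ℓ]) → Eˣ),
          IsLift ℓ k F t x V N σ Γ π

end Pool.Agent.Lib.MP_89bcae_ag.Zq
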