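import Mathlib
import Pool.Agent.Lib.MP_89bcae_ag.Zp.Defs
import Pool.Agent.Lib.MP_89bcae_ag.Zq.DefsR

/-!
# The classes of the points
-/

open Polynomial

open scoped Classical

namespace Pool.Agent.Lib.MP_89bcae_ag.Zq

open Pool.Agent.Lib.MP_89bcae_ag.Zs (ext powers)

/-- Let `E = F(t, x)` be the function field of the curve `f(t, x) = 0`. The group generated by the `ℓ`-th powers of the
elements of `Eˣ` and by the elements `h(x)`, for the monic polynomials `h` over `F(t)` which divide the polynomial `b ^ ℓ - f`, for
some polynomial `b` over `F(t)`. For such `h` and `b` the equations `h(x) = 0`, `y = b(x)` define a divisor on the affine curve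
`y ^ ℓ = f(t, x)` over `F(t)`; the classes of these divisors generate the group of the classes of divisors, and `points` is the
image of this group under the descent map, which sends the class of a divisor to the value at `x` of its norm. -/
def points (ℓ : ℕ) {k : Type} (F : Type) {E : Type} [Field k] [Field F] [Algebra k F] [Field E]
    [Algebra F E] (f : k[X][X]) (t x : E) : Subgroup Eˣ :=
  powers ℓ E ⊔ Subgroup.closure {u | ∃ h b : (IntermediateField.adjoin F {t})[X], h.Monic ∧
    h ∣ b ^ ℓ - (ext F f).map ((aeval (IntermediateField.AdjoinSimple.gen F t) :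
      F[X] →ₐ[F] IntermediateField.adjoin F {t}) : F[X] →+* IntermediateField.adjoin F {t}) ∧
    (u : E) = aeval x h}

end Pool.Agent.Lib.MP_89bcae_ag.Zq
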