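import Mathlib
import Pool.Agent.Lib.MP_89bcae_ag.Zp.Main
import Pool.Agent.Lib.MP_89bcae_ag.Zq.Loc
import Pool.Agent.Lib.MP_89bcae_ag.Zq.Defs

/-!
# The group of the classes of the points
-/

attribute [local instance 100000] Pool.Agent.Lib.MP_89bcae_ag.Brt.tffFields
attribute [local instance 100000] Pool.Agent.Lib.MP_89bcae_ag.Wt.ifrNF Pool.Agent.Lib.MP_89bcae_ag.Wt.iddNF

open Polynomial IsDedekindDomain

open scoped Classical

namespace Pool.Agent.Lib.MP_89bcae_ag.Zq

open Pool.Agent.Lib.MP_89bcae_ag.Wt Pool.Agent.Lib.MP_89bcae_ag.Wt.Lns Pool.Agent.Lib.MP_89bcae_ag.Bra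
  Pool.Agent.Lib.MP_89bcae_ag.Brt Pool.Agent.Lib.MP_89bcae_ag.Zc

open Pool.Agent.Lib.MP_89bcae_ag.Zs (Gst h1_coef galois powers)

section

variable {k F L Ω E : Type} [Field k] [Field F] [Algebra k F] [Field L] [Algebra F[X] L]
  [IsFractionRing F[X] L] [Field Ω] [Algebra L Ω] [Field E] [Algebra F E] {ℓ : ℕ} {f : k[X][X]} {t x : E}

/-- The field `L` is isomorphic to the subfield `F(t)` of `E`. -/
theorem exists_equiv (lam : L →+* E) (h2 : ∀ c : F, lam (algebraMap F[X] L (C c)) = algebraMap F E c)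
    (h3 : lam (algebraMap F[X] L X) = t) :
    ∃ e₁ : L ≃+* IntermediateField.adjoin F ({t} : Set E), ∀ z, ((e₁ z : IntermediateField.adjoin F ({t} : Set E)) : E) = lam z := by
  have hmem : ∀ z : L, lam z ∈ IntermediateField.adjoin F ({t} : Set E) := by
    intro z
    have hp : ∀ p : F[X], lam (algebraMap F[X] L p) ∈ IntermediateField.adjoin F ({t} : Set E) := by
      intro p
      induction p using Polynomial.induction_on' with
      | add p q hp hq =>
        rw [map_add, map_add]
        exact add_mem hp hq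
      | monomial n a =>
        rw [← C_mul_X_pow_eq_monomial, map_mul, map_mul, map_pow, map_pow, h2, h3]
        exact mul_mem (IntermediateField.algebraMap_mem _ a) (pow_mem (IntermediateField.mem_adjoin_simple_self F t) n)
    obtain ⟨p, q, hq, rfl⟩ := IsFractionRing.div_surjective (A := F[X]) z
    rw [map_div₀]
    exact div_mem (hp p) (hp q)
  have hsurj : ∀ y ∈ IntermediateField.adjoin F ({t} : Set E), ∃ z : L, lam z = y := by
    intro y hy
    induction hy using IntermediateField.adjoin_induction with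
    | mem y hy =>
      rw [Set.mem_singleton_iff] at hy
      exact ⟨_, h3.trans hy.symm⟩
    | algebraMap y => exact ⟨_, h2 y⟩
    | add y y' _ _ h2 h3 =>
      obtain ⟨a, rfl⟩ := h2
      obtain ⟨b, rfl⟩ := h3
      exact ⟨a + b, map_add _ _ _⟩
    | inv y _ h2 =>
      obtain ⟨a, rfl⟩ := h2
      exact ⟨a⁻¹, map_inv₀ _ _⟩
    | mul y y' _ _ h2 h3 =>
      obtain ⟨a, rfl⟩ := h2
      obtain ⟨b, rfl⟩ := h3
      exact ⟨a * b, map_mul _ _ _⟩
  let e₁ : L →+* IntermediateField.adjoin F ({t} : Set E) :=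
    lam.codRestrict (IntermediateField.adjoin F ({t} : Set E)) hmem
  have he : Function.Bijective e₁ := by
    refine ⟨e₁.injective, ?_⟩
    rintro ⟨y, hy⟩
    obtain ⟨z, hz⟩ := hsurj y hy
    exact ⟨z, Subtype.ext hz⟩
  exact ⟨RingEquiv.ofBijective e₁ he, fun z => rfl⟩

/-- The image of the group `points` in `Ω`. -/
theorem points_map (lam : L →+* E) (ι : E →+* Ω) (h1 : ∀ z, ι (lam z) = algebraMap L Ω z)
    (h2 : ∀ c : F, lam (algebraMap F[X] L (C c)) = algebraMap F E c) (h3 : lam (algebraMap F[X] L X) = t)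
    (hadj : ∀ y : Ω, y ∈ IntermediateField.adjoin L {ι x} ↔ ∃ e, ι e = y) (hℓ : ℓ ≠ 0) :
    (points ℓ F f t x).map (Units.map (ι : E →* Ω)) = ptGroup ℓ (curveL k F L f) (ι x) := by
  obtain ⟨e₁, he₁⟩ := exists_equiv lam h2 h3
  let Q : F[X] →+* IntermediateField.adjoin F ({t} : Set E) :=
    ((aeval (IntermediateField.AdjoinSimple.gen F t) :
      F[X] →ₐ[F] IntermediateField.adjoin F {t}) : F[X] →+* IntermediateField.adjoin F {t})
  have hQ : Q = (e₁ : L →+* IntermediateField.adjoin F ({t} : Set E)).comp (algebraMap F[X] L) := by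
    refine Polynomial.ringHom_ext (fun c => ?_) ?_
    · refine Subtype.ext ?_
      show ((aeval (IntermediateField.AdjoinSimple.gen F t) (C c) : IntermediateField.adjoin F ({t} : Set E)) : E) =
        ((e₁ (algebraMap F[X] L (C c)) : IntermediateField.adjoin F ({t} : Set E)) : E)
      rw [he₁, h2, aeval_C]
      rfl
    · refine Subtype.ext ?_
      show ((aeval (IntermediateField.AdjoinSimple.gen F t) X : IntermediateField.adjoin F ({t} : Set E)) : E) =
        ((e₁ (algebraMap F[X] L X) : IntermediateField.adjoin F ({t} : Set E)) : E)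
      rw [he₁, h3, aeval_X]
      rfl
  have hf : (Zs.ext F f).map Q = (curveL k F L f).map (e₁ : L →+* IntermediateField.adjoin F ({t} : Set E)) := by
    rw [hQ, ← Polynomial.map_map]
    congr 1
    exact (map_base_eq F L f).symm
  have hev : ∀ h : L[X], ι (aeval x (h.map (e₁ : L →+* IntermediateField.adjoin F ({t} : Set E)))) = aeval (ι x) h := by
    intro h
    rw [aeval_def, aeval_def, eval₂_map, hom_eval₂]
    congr 1
    refine RingHom.ext fun z => ?_
    show ι ((e₁ z : IntermediateField.adjoin F ({t} : Set E)) : E) = _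
    rw [he₁, h1]
  apply le_antisymm
  · rw [points, Subgroup.map_sup, sup_le_iff]
    constructor
    · rintro _ ⟨_, ⟨w, rfl⟩, rfl⟩
      refine Subgroup.subset_closure (Or.inl ⟨ι (w : E), (hadj _).2 ⟨_, rfl⟩, ?_⟩)
      show ι (((w ^ ℓ : Eˣ)) : E) = _
      rw [Units.val_pow_eq_pow_val, map_pow]
    · rw [MonoidHom.map_closure, Subgroup.closure_le]
      rintro _ ⟨u, ⟨h, b, hm, hd, hu⟩, rfl⟩
      have hcoe : ∀ p : (IntermediateField.adjoin F ({t} : Set E))[X],
          (p.map (e₁.symm : IntermediateField.adjoin F ({t} : Set E) →+* L)).map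
            (e₁ : L →+* IntermediateField.adjoin F ({t} : Set E)) = p := by
        intro p
        rw [Polynomial.map_map]
        have h4 : (e₁ : L →+* IntermediateField.adjoin F ({t} : Set E)).comp
            (e₁.symm : IntermediateField.adjoin F ({t} : Set E) →+* L) = RingHom.id _ :=
          RingHom.ext fun z => e₁.apply_symm_apply z
        rw [h4, Polynomial.map_id]
      refine Subgroup.subset_closure (Or.inr ⟨h.map (e₁.symm : IntermediateField.adjoin F ({t} : Set E) →+* L),
        b.map (e₁.symm : IntermediateField.adjoin F ({t} : Set E) →+* L), hm.map _, ?_, ?_⟩)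
      · have h4 := Polynomial.map_dvd (e₁.symm : IntermediateField.adjoin F ({t} : Set E) →+* L) hd
        rw [Polynomial.map_sub, Polynomial.map_pow] at h4
        have h5 : (curveL k F L f) = ((Zs.ext F f).map Q).map (e₁.symm : IntermediateField.adjoin F ({t} : Set E) →+* L) := by
          rw [hf, Polynomial.map_map]
          have h6 : (e₁.symm : IntermediateField.adjoin F ({t} : Set E) →+* L).comp
              (e₁ : L →+* IntermediateField.adjoin F ({t} : Set E)) = RingHom.id _ :=
            RingHom.ext fun z => e₁.symm_apply_apply z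
          rw [h6, Polynomial.map_id]
        rw [h5]
        exact h4
      · show ι (u : E) = _
        rw [← hev, hcoe, hu]
  · rw [ptGroup, Subgroup.closure_le]
    rintro u (⟨w, hw, hu⟩ | ⟨h, b, hm, hd, hu⟩)
    · obtain ⟨e, rfl⟩ := (hadj w).1 hw
      have he0 : e ≠ 0 := by
        rintro rfl
        rw [map_zero, zero_pow hℓ] at hu
        exact u.ne_zero hu
      refine ⟨Units.mk0 e he0 ^ ℓ, Subgroup.mem_sup_left ⟨_, rfl⟩, Units.ext ?_⟩
      show ι (((Units.mk0 e he0 ^ ℓ : Eˣ)) : E) = _
      rw [Units.val_pow_eq_pow_val, Units.val_mk0, map_pow, hu]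
    · have h0 : aeval x (h.map (e₁ : L →+* IntermediateField.adjoin F ({t} : Set E))) ≠ 0 := by
        intro h0
        have h4 := hev h
        rw [h0, map_zero, ← hu] at h4
        exact u.ne_zero h4.symm
      refine ⟨Units.mk0 _ h0, Subgroup.mem_sup_right (Subgroup.subset_closure
        ⟨h.map (e₁ : L →+* IntermediateField.adjoin F ({t} : Set E)),
          b.map (e₁ : L →+* IntermediateField.adjoin F ({t} : Set E)), hm.map _, ?_, rfl⟩), Units.ext ?_⟩
      · have h4 := Polynomial.map_dvd (e₁ : L →+* IntermediateField.adjoin F ({t} : Set E)) hd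
        rw [Polynomial.map_sub, Polynomial.map_pow] at h4
        rw [← hf] at h4
        exact h4
      · show ι _ = _
        rw [Units.val_mk0, hev, hu]

variable [IsAlgClosure k F] [IsAlgClosure L Ω]

/-- The group is stable under the automorphisms over `k(t)` which fix the root. -/
theorem ptGroup_stable {θ₀ : Ω} (g : Gst k F L θ₀) {u : Ωˣ} (hu : u ∈ ptGroup ℓ (curveL k F L f) θ₀) :
    Units.map (((g : AutO k F L Ω) : Ω ≃+* Ω) : Ω →* Ω) u ∈ ptGroup ℓ (curveL k F L f) θ₀ := by
  obtain ⟨γ, hγ⟩ : ∃ γ : AutO k F L Ω, γ = g := ⟨_, rfl⟩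
  have hθ : (γ : Ω ≃+* Ω) θ₀ = θ₀ := by
    rw [hγ]
    exact g.2
  let s : L →+* L := (Sup.coefL L (resF γ : F ≃+* F) : L →+* L)
  have hs : ∀ z, (γ : Ω ≃+* Ω) (algebraMap L Ω z) = algebraMap L Ω (s z) := h1_coef γ
  have hfs : (curveL k F L f).map s = curveL k F L f := by
    unfold curveL
    rw [Polynomial.map_map]
    congr 1
    refine RingHom.ext fun p => ?_
    apply (algebraMap L Ω).injective
    have h4 : algebraMap L Ω (base k F L L p) = base k F L Ω p := rfl
    show algebraMap L Ω (s (base k F L L p)) = _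
    rw [← hs, h4]
    exact γ.2 p
  have hev : ∀ h : L[X], (γ : Ω ≃+* Ω) (aeval θ₀ h) = aeval θ₀ (h.map s) := by
    intro h
    rw [aeval_def, aeval_def, eval₂_map]
    have h4 := hom_eval₂ h (algebraMap L Ω) ((γ : Ω ≃+* Ω) : Ω →+* Ω) θ₀
    have h5 : ((γ : Ω ≃+* Ω) : Ω →+* Ω).comp (algebraMap L Ω) = (algebraMap L Ω).comp s := RingHom.ext hs
    rw [h5] at h4
    refine h4.trans ?_
    congr 1
  rw [← hγ]
  have hle : ptGroup ℓ (curveL k F L f) θ₀ ≤
      (ptGroup ℓ (curveL k F L f) θ₀).comap (Units.map ((γ : Ω ≃+* Ω) : Ω →* Ω)) := by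
    conv_lhs => rw [ptGroup]
    rw [Subgroup.closure_le]
    rintro u (⟨w, hw, hu⟩ | ⟨h, b, hm, hd, hu⟩)
    · refine Subgroup.subset_closure (Or.inl ⟨(γ : Ω ≃+* Ω) w, ?_, ?_⟩)
      · have h4 : IntermediateField.adjoin L {θ₀} ≤
            ((IntermediateField.adjoin L {θ₀}).toSubfield.comap ((γ : Ω ≃+* Ω) : Ω →+* Ω)).toIntermediateField
              (fun z => by
                show (γ : Ω ≃+* Ω) (algebraMap L Ω z) ∈ IntermediateField.adjoin L {θ₀}
                rw [hs]
                exact IntermediateField.algebraMap_mem _ _) := by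
          rw [IntermediateField.adjoin_simple_le_iff]
          show (γ : Ω ≃+* Ω) θ₀ ∈ IntermediateField.adjoin L {θ₀}
          rw [hθ]
          exact IntermediateField.mem_adjoin_simple_self L θ₀
        exact h4 hw
      · show (γ : Ω ≃+* Ω) (u : Ω) = _
        rw [hu, map_pow]
    · refine Subgroup.subset_closure (Or.inr ⟨h.map s, b.map s, hm.map _, ?_, ?_⟩)
      · have h4 := Polynomial.map_dvd s hd
        rw [Polynomial.map_sub, Polynomial.map_pow, hfs] at h4
        exact h4
      · show (γ : Ω ≃+* Ω) (u : Ω) = _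
        rw [hu, hev]
  exact hle hu

end

end Pool.Agent.Lib.MP_89bcae_ag.Zq
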