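import Mathlib
import Pool.Agent.Lib.MP_89bcae_ag.Zq.Vs
import Pool.Agent.Lib.MP_89bcae_ag.Zq.H1

/-!
# The elements attached to the cocycles which are trivial in the Jacobian
-/

attribute [local instance 100000] Pool.Agent.Lib.MP_89bcae_ag.Brt.tffFields
attribute [local instance 100000] Pool.Agent.Lib.MP_89bcae_ag.Wt.ifrNF Pool.Agent.Lib.MP_89bcae_ag.Wt.iddNF

open Polynomial IsDedekindDomain

open scoped Classical

namespace Pool.Agent.Lib.MP_89bcae_ag.Zq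

open Pool.Agent.Lib.MP_89bcae_ag.Wt Pool.Agent.Lib.MP_89bcae_ag.Wt.Lns Pool.Agent.Lib.MP_89bcae_ag.Bra
  Pool.Agent.Lib.MP_89bcae_ag.Brt Pool.Agent.Lib.MP_89bcae_ag.Zc

open Pool.Agent.Lib.MP_89bcae_ag.Zs (Gst h1_coef galois powers IsKum kum_aeval kum_trans IsCurveField)

section

variable {k F L Ω : Type} [Field k] [Field F] [Algebra k F] [Field L] [Algebra F[X] L]
  [Field Ω] [Algebra L Ω] [IsAlgClosure k F] [IsFractionRing F[X] L] [IsAlgClosure L Ω]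
  {ℓ : ℕ} {P : k[X][X]} [hG : IsGood ℓ (cOver k F L Ω P)] {ζ : k} {θ₀ : Ω}

lemma isKum_one : IsKum (ℓ := ℓ) (P := P) (F := F) (L := L) ζ θ₀ (fun _ => 0) 1 := by
  refine ⟨fun _ => 1, fun _ _ => one_ne_zero, one_pow _, fun σ => ⟨fun _ => 0, fun θ _ => ?_, ?_, ?_⟩⟩
  · rw [zpow_zero, one_mul, map_one]
  · exact rm_zero.symm
  · rw [Finset.sum_const_zero]
    exact dvd_zero _

lemma isKum_neg {c : (Ω ≃ₐ[L] Ω) → JacOver ℓ (curveL k F L P) Ω} {u : Ω} (h : IsKum ζ θ₀ c u) :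
    IsKum ζ θ₀ (fun σ => -c σ) u⁻¹ := by
  obtain ⟨z, hz, rfl, hn⟩ := h
  refine ⟨fun θ => (z θ)⁻¹, fun θ hθ => inv_ne_zero (hz θ hθ), inv_pow _ _, fun σ => ?_⟩
  obtain ⟨n, h1, h2, h3⟩ := hn σ
  refine ⟨fun θ => -n θ, fun θ hθ => ?_, ?_, ?_⟩
  · rw [map_inv₀, h1 θ hθ, mul_inv, zpow_neg]
  · beta_reduce
    rw [h2, rm_neg]
  · rw [Finset.sum_neg_distrib]
    exact (dvd_neg).2 h3

/-- The elements of the group `ptGroup` are in `L(θ₀)`. -/
lemma mem_of_mem_ptGroup {f : L[X]} {u : Ωˣ} (hu : u ∈ ptGroup ℓ f θ₀) :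
    (u : Ω) ∈ IntermediateField.adjoin L {θ₀} := by
  induction hu using Subgroup.closure_induction with
  | mem u hu =>
    rcases hu with ⟨w, hw, hu⟩ | ⟨h, b, -, -, hu⟩
    · rw [hu]
      exact pow_mem hw _
    · rw [hu]
      have h1 := (aeval (⟨θ₀, IntermediateField.mem_adjoin_simple_self L θ₀⟩ : IntermediateField.adjoin L {θ₀}) h).2
      have h2 : ((aeval (⟨θ₀, IntermediateField.mem_adjoin_simple_self L θ₀⟩ : IntermediateField.adjoin L {θ₀}) h :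
          IntermediateField.adjoin L {θ₀}) : Ω) = aeval θ₀ h :=
        (aeval_algHom_apply (IntermediateField.adjoin L {θ₀}).val _ h).symm
      rwa [h2] at h1
  | one => exact one_mem _
  | mul u v _ _ h1 h2 =>
    rw [Units.val_mul]
    exact mul_mem h1 h2
  | inv u _ h1 =>
    rw [Units.val_inv_eq_inv_val]
    exact inv_mem h1

/-- The elements of the group `ptGroup` are attached to cocycles which are trivial in the Jacobian. -/
theorem kum_of_mem_ptGroup (H : LHyp ℓ k F L P ζ) (hζ : (zA F L Ω ζ) ^ ℓ = 1)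
    (hirr : Irreducible (curveL k F L P)) (hsep : (curveL k F L P).Separable)
    (h0 : (cOver k F L Ω P).eval θ₀ = 0)
    (hQ : ∀ h b : L[X], h.Monic → h ∣ b ^ ℓ - curveL k F L P → aeval θ₀ h ≠ 0 →
      ∃ c' : Coch ℓ k F L Ω P, TrJ c' ∧ IsKum ζ θ₀ (fun σ => vJ (zA F L Ω ζ) hζ (c' 1 σ)) (aeval θ₀ h))
    {u : Ωˣ} (hu : u ∈ ptGroup ℓ (curveL k F L P) θ₀) :
    ∃ c' : Coch ℓ k F L Ω P, TrJ c' ∧ IsKum ζ θ₀ (fun σ => vJ (zA F L Ω ζ) hζ (c' 1 σ)) (u : Ω) := by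
  have hζ0 : zA F L Ω ζ ≠ 0 := by
    rintro h
    rw [h, zero_pow H.prime.ne_zero] at hζ
    exact zero_ne_one hζ
  have hz0 : IsKum (ℓ := ℓ) (P := P) (F := F) (L := L) (Ω := Ω) ζ θ₀
      (fun σ => vJ (zA F L Ω ζ) hζ ((0 : Coch ℓ k F L Ω P) 1 σ)) 1 := by
    have h1 : (fun σ => vJ (zA F L Ω ζ) hζ ((0 : Coch ℓ k F L Ω P) 1 σ)) =
        fun _ => (0 : JacOver ℓ (curveL k F L P) Ω) := by
      funext σ
      show vJ (zA F L Ω ζ) hζ (0 : JacOver ℓ (curveL k F L P) Ω) = 0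
      have h2 := vJ_sub (zA F L Ω ζ) hζ (0 : JacOver ℓ (curveL k F L P) Ω) 0
      rwa [sub_zero, sub_self] at h2
    rw [h1]
    exact isKum_one
  induction hu using Subgroup.closure_induction with
  | mem u hu =>
    rcases hu with ⟨w, hw, hu⟩ | ⟨h, b, hm, hd, hu⟩
    · have hw0 : w ≠ 0 := by
        rintro rfl
        rw [zero_pow H.prime.ne_zero] at hu
        exact u.ne_zero hu
      refine ⟨0, TrJ.zero, ?_⟩
      have h1 := hz0.mul_pow H hirr hsep h0 hw hw0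
      rw [one_mul, ← hu] at h1
      exact h1
    · obtain ⟨c', h1, h2⟩ := hQ h b hm hd (by rw [← hu]; exact u.ne_zero)
      exact ⟨c', h1, by rw [hu]; exact h2⟩
  | one => exact ⟨0, TrJ.zero, hz0⟩
  | mul u v _ _ h1 h2 =>
    obtain ⟨c, hc, h1⟩ := h1
    obtain ⟨c', hc', h2⟩ := h2
    refine ⟨c + c', hc.add hc', ?_⟩
    have h3 := h1.add hζ0 h2
    rw [Units.val_mul]
    refine Eq.mp (congrArg (fun a => IsKum ζ θ₀ a _) ?_) h3
    funext σ
    exact (vJ_add _ _ _ _).symm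
  | inv u _ h1 =>
    obtain ⟨c, hc, h1⟩ := h1
    refine ⟨-c, hc.neg, ?_⟩
    have h3 := isKum_neg h1
    rw [Units.val_inv_eq_inv_val]
    refine Eq.mp (congrArg (fun a => IsKum ζ θ₀ a _) ?_) h3
    funext σ
    show -vJ (zA F L Ω ζ) hζ (c 1 σ) = vJ (zA F L Ω ζ) hζ (-c 1 σ)
    have h4 := vJ_sub (zA F L Ω ζ) hζ (0 : JacOver ℓ (curveL k F L P) Ω) (c 1 σ)
    have h5 := vJ_sub (zA F L Ω ζ) hζ (0 : JacOver ℓ (curveL k F L P) Ω) 0
    rw [sub_zero, sub_self] at h5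
    rw [zero_sub, h5, zero_sub] at h4
    exact h4.symm

end

end Pool.Agent.Lib.MP_89bcae_ag.Zq
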