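import Pool.Agent.Lib.MP_89bcae_ag.Zq.DefsR
import Pool.Agent.Lib.MP_89bcae_ag.Zl.Lift

/-!
# The contradiction with the criteria
-/

open scoped Classical

namespace Pool.Agent.Lib.MP_89bcae_ag.Zq

open Pool.Agent.Lib.MP_89bcae_ag.Zs (galois)

open MP89bZ (Lifts)

section

variable {E : Type} [Field E] {G : Type} [Group G] {V : Subgroup Eˣ}

theorem le_comap_of (ρ : G →* (E ≃+* E)) (hV : ∀ g, ∀ u ∈ V, Units.map ((ρ g : E ≃+* E) : E →* E) u ∈ V) (g : G) :
    V ≤ V.comap (Units.map ((ρ g : E ≃+* E) : E →* E)) := hV g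

/-- The action of `G` on `Eˣ / V`. -/
@[instance_reducible]
noncomputable def actQ (ρ : G →* (E ≃+* E))
    (hV : ∀ g, ∀ u ∈ V, Units.map ((ρ g : E ≃+* E) : E →* E) u ∈ V) :
    DistribMulAction G (Additive (Eˣ ⧸ V)) where
  smul g := fun m => Additive.ofMul (QuotientGroup.map V V
    (Units.map ((ρ g : E ≃+* E) : E →* E)) (le_comap_of ρ hV g) m.toMul)
  one_smul m := by
    obtain ⟨u, hu⟩ := QuotientGroup.mk_surjective m.toMul
    show Additive.ofMul (QuotientGroup.map V V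
      (Units.map ((ρ 1 : E ≃+* E) : E →* E)) (le_comap_of ρ hV 1) m.toMul) = m
    rw [← hu, QuotientGroup.map_mk]
    have h1 : Units.map ((ρ 1 : E ≃+* E) : E →* E) u = u := by
      rw [map_one]
      exact Units.ext rfl
    rw [h1, hu]
    rfl
  mul_smul g g' m := by
    obtain ⟨u, hu⟩ := QuotientGroup.mk_surjective m.toMul
    show Additive.ofMul (QuotientGroup.map V V
      (Units.map ((ρ (g * g') : E ≃+* E) : E →* E)) (le_comap_of ρ hV (g * g')) m.toMul) =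
      Additive.ofMul (QuotientGroup.map V V
      (Units.map ((ρ g : E ≃+* E) : E →* E)) (le_comap_of ρ hV g)
      (QuotientGroup.map V V
      (Units.map ((ρ g' : E ≃+* E) : E →* E)) (le_comap_of ρ hV g') m.toMul))
    rw [← hu, QuotientGroup.map_mk, QuotientGroup.map_mk, QuotientGroup.map_mk]
    have h1 : Units.map ((ρ (g * g') : E ≃+* E) : E →* E) u =
        Units.map ((ρ g : E ≃+* E) : E →* E) (Units.map ((ρ g' : E ≃+* E) : E →* E) u) := by
      rw [map_mul]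
      exact Units.ext rfl
    rw [h1]
  smul_zero g := by
    show Additive.ofMul (QuotientGroup.map V V
      (Units.map ((ρ g : E ≃+* E) : E →* E)) (le_comap_of ρ hV g) 1) = 0
    rw [map_one]
    rfl
  smul_add g m m' := by
    show Additive.ofMul (QuotientGroup.map V V
      (Units.map ((ρ g : E ≃+* E) : E →* E)) (le_comap_of ρ hV g) (m.toMul * m'.toMul)) = _
    rw [map_mul]
    rfl

theorem actQ_mk (ρ : G →* (E ≃+* E)) (hV : ∀ g, ∀ u ∈ V, Units.map ((ρ g : E ≃+* E) : E →* E) u ∈ V)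
    (g : G) (u : Eˣ) :
    (actQ ρ hV).smul g (Additive.ofMul (QuotientGroup.mk u : Eˣ ⧸ V)) =
      Additive.ofMul (QuotientGroup.mk (Units.map ((ρ g : E ≃+* E) : E →* E) u)) := rfl

variable {ℓ : ℕ} [hl : Fact ℓ.Prime] {k F : Type} [Field k] [Field F] [Algebra k F] [Algebra F E] {t x : E}
  {U : Subgroup Eˣ}

/-- The contradiction with the criteria: `N` is pulled back to a subgroup of `Eˣ`. -/
theorem rigid_contra (hVU : V ≤ U) (hcrit : IsRigid ℓ k F t x U V) (ρ : G →* (E ≃+* E))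
    (hρ : ∀ g, ρ g ∈ galois ℓ k F t x) (hρ' : ∀ γ ∈ galois ℓ k F t x, ∃ g, ρ g = γ)
    [act : DistribMulAction G (Additive (Eˣ ⧸ V))]
    (hact : ∀ (g : G) (u : Eˣ), g • (Additive.ofMul (QuotientGroup.mk u : Eˣ ⧸ V)) =
      Additive.ofMul (QuotientGroup.mk (Units.map ((ρ g : E ≃+* E) : E →* E) u)))
    (N : AddSubgroup (Additive (Eˣ ⧸ V))) (hN : N ≠ ⊥)
    (hNu : ∀ m ∈ N, ∃ u ∈ U, m = Additive.ofMul (QuotientGroup.mk u : Eˣ ⧸ V))
    {r : ℕ} (hr : Nat.card N = ℓ ^ r)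
    {n : ℕ} {σ : Module.End ℤ_[ℓ] (Fin n → ℤ_[ℓ])} {ρ' : G →* Module.End ℤ_[ℓ] (Fin n → ℤ_[ℓ])}
    {th : (Fin n → ℤ_[ℓ]) →+ Additive (Eˣ ⧸ V)} (hL : Lifts (M := Additive (Eˣ ⧸ V)) N σ ρ' th) : False := by
  let q : Eˣ →* Eˣ ⧸ V := QuotientGroup.mk' V
  let N' : Subgroup Eˣ := (AddSubgroup.toSubgroup' N).comap q
  have hmem : ∀ u : Eˣ, u ∈ N' ↔ Additive.ofMul (QuotientGroup.mk u : Eˣ ⧸ V) ∈ N :=
    fun u => Iff.rfl
  have hsurj : ∀ m : Additive (Eˣ ⧸ V), ∃ u : Eˣ, Additive.ofMul (QuotientGroup.mk u : Eˣ ⧸ V) = m := by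
    intro m
    obtain ⟨u, hu⟩ := QuotientGroup.mk_surjective m.toMul
    exact ⟨u, congrArg Additive.ofMul hu⟩
  have hle' : V ≤ N' := by
    intro u hu
    rw [hmem, (QuotientGroup.eq_one_iff u).2 hu]
    exact N.zero_mem
  have hlt : V < N' := by
    refine lt_of_le_of_ne hle' fun heq => hN ?_
    rw [AddSubgroup.eq_bot_iff_forall]
    intro m hm
    obtain ⟨u, rfl⟩ := hsurj m
    have h1 : u ∈ N' := hm
    rw [← heq] at h1
    have h2 := (QuotientGroup.eq_one_iff u).2 h1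
    rw [h2]
    rfl
  have hun : N' ≤ U := by
    intro u hu
    obtain ⟨u', hu', h1⟩ := hNu _ ((hmem u).1 hu)
    have h2 : (QuotientGroup.mk u : Eˣ ⧸ V) = QuotientGroup.mk u' := Additive.ofMul.injective h1
    have h3 : u⁻¹ * u' ∈ V := QuotientGroup.eq.1 h2
    have h4 : u = u' * (u⁻¹ * u')⁻¹ := by group
    rw [h4]
    exact mul_mem hu' (inv_mem (hVU h3))
  have hst' : ∀ γ ∈ galois ℓ k F t x, ∀ u ∈ N', Units.map (γ : E →* E) u ∈ N' := by
    intro γ hγ u hu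
    obtain ⟨g, rfl⟩ := hρ' γ hγ
    rw [hmem, ← hact]
    exact hL.stable g hu
  have hmap : N'.map q = AddSubgroup.toSubgroup' N :=
    Subgroup.map_comap_eq_self_of_surjective (QuotientGroup.mk'_surjective _) _
  have hcard : V.relIndex N' = ℓ ^ r := by
    have h1 : q.ker = V := QuotientGroup.ker_mk' _
    rw [← h1, Subgroup.relIndex_ker, hmap, ← hr]
    rfl
  have hdiv : ∀ u u' : Eˣ, (Additive.ofMul (QuotientGroup.mk u : Eˣ ⧸ V)) =
      Additive.ofMul (QuotientGroup.mk u' : Eˣ ⧸ V) ↔ u / u' ∈ V := by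
    intro u u'
    rw [← QuotientGroup.eq_iff_div_mem]
    exact Iff.rfl
  rcases hcrit N' hlt hun hst' r hcard with h | h | h
  · -- Minkowski and Schur
    have h0 := hL.order hr
    unfold IsLarge at h
    let a : N' → N := fun u => ⟨Additive.ofMul (QuotientGroup.mk (u : Eˣ)), u.2⟩
    have ha : Function.Surjective a := by
      intro m
      obtain ⟨u, hu⟩ := hsurj m
      have h1 : u ∈ N' := by
        rw [hmem, hu]
        exact m.2
      exact ⟨⟨u, h1⟩, Subtype.ext hu⟩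
    let φ : (N → Additive (Eˣ ⧸ V)) → (N' → Eˣ ⧸ V) := fun s u => (s (a u)).toMul
    have hφ : Function.Injective φ := by
      intro s s' hs
      funext m
      obtain ⟨u, rfl⟩ := ha m
      exact Additive.toMul.injective (congrFun hs u)
    have hrange : (Set.range fun (γ : galois ℓ k F t x) (u : N') =>
        ((Units.map ((γ : E ≃+* E) : E →* E) (u : Eˣ) : Eˣ) : Eˣ ⧸ V)) =
        φ '' (Set.range fun (g : G) (m : N) => g • (m : Additive (Eˣ ⧸ V))) := by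
      ext s
      constructor
      · rintro ⟨γ, rfl⟩
        obtain ⟨g, hg⟩ := hρ' γ γ.2
        refine ⟨_, ⟨g, rfl⟩, ?_⟩
        funext u
        show (g • (Additive.ofMul (QuotientGroup.mk (u : Eˣ) : Eˣ ⧸ V))).toMul = _
        rw [hact, hg]
        rfl
      · rintro ⟨_, ⟨g, rfl⟩, rfl⟩
        refine ⟨⟨ρ g, hρ g⟩, ?_⟩
        funext u
        show _ = (g • (Additive.ofMul (QuotientGroup.mk (u : Eˣ) : Eˣ ⧸ V))).toMul
        rw [hact]
        rfl
    rw [hrange, Nat.card_image_of_injective hφ] at h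
    exact absurd h0 (not_le.2 h)
  · -- Jordan
    obtain ⟨hb, γ, hγ, γ', hγ', m, h1, h2, u, hu, h3⟩ := h
    obtain ⟨g, rfl⟩ := hρ' γ hγ
    obtain ⟨g', rfl⟩ := hρ' γ' hγ'
    apply h3
    have key : ∀ (g : G), (∀ u ∈ N', Units.map (((ρ g) ^ ℓ ^ m : E ≃+* E) : E →* E) u / u ∈ V) →
        ∀ v ∈ N, (g ^ ℓ ^ m) • v = v := by
      intro g hg v hv
      obtain ⟨u, rfl⟩ := hsurj v
      rw [hact, hdiv, map_pow]
      exact hg u hv
    have h4 := hL.commute hr hb g g' ⟨m, key g h1⟩ ⟨m, key g' h2⟩ _ ((hmem u).1 hu)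
    rw [hact, hact, hdiv, map_mul, map_mul] at h4
    exact h4
  · -- the lift
    apply h
    let φ : G →* ((Fin n → ℤ_[ℓ]) ≃ₗ[ℤ_[ℓ]] (Fin n → ℤ_[ℓ])) :=
      (LinearMap.GeneralLinearGroup.generalLinearEquiv ℤ_[ℓ] (Fin n → ℤ_[ℓ])).toMonoidHom.comp ρ'.toHomUnits
    have hφ : ∀ g v, φ g v = ρ' g v := fun g v => rfl
    choose π hπ using fun v => hsurj (th v)
    refine ⟨n, σ, φ.range, π, ?_, ?_, hL.cyc, ?_, ?_, ?_, ?_⟩
    · have h1 : Finite (Set.range ρ') := hL.finite.to_subtype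
      refine Finite.of_injective (β := Set.range ρ') (fun g => ⟨((g : (Fin n → ℤ_[ℓ]) ≃ₗ[ℤ_[ℓ]] (Fin n → ℤ_[ℓ])) :
        Module.End ℤ_[ℓ] (Fin n → ℤ_[ℓ])), ?_⟩) ?_
      · obtain ⟨_, g, rfl⟩ := g
        exact ⟨g, rfl⟩
      · intro g g' hg
        refine Subtype.ext (LinearEquiv.toLinearMap_injective ?_)
        exact congrArg Subtype.val hg
    · rintro _ ⟨g, rfl⟩ v
      exact congrArg (fun T : Module.End ℤ_[ℓ] (Fin n → ℤ_[ℓ]) => T v) (hL.comm g).eq
    · intro v w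
      rw [← hdiv, hπ, map_add, ← hπ v, ← hπ w]
      rfl
    · intro u
      rw [hmem, hL.range]
      refine exists_congr fun v => ?_
      rw [← hdiv, hπ]
      exact eq_comm
    · intro v
      rw [← hL.ker, ← hπ]
      have h1 := hdiv (π v) 1
      rw [div_one] at h1
      exact h1.symm
    · intro γ hγ
      obtain ⟨g, rfl⟩ := hρ' γ hγ
      refine ⟨φ g, ⟨g, rfl⟩, fun v => ?_⟩
      rw [← hdiv, hπ, ← hact, hπ, hφ, hL.equiv]

end

end Pool.Agent.Lib.MP_89bcae_ag.Zq
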