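import Mathlib
import Pool.Agent.Lib.MP_89bcae_ag.Zq.Kq
import Pool.Agent.Lib.MP_89bcae_ag.Zq.Rig
import Pool.Agent.Lib.MP_89bcae_ag.Zl.Ntg

/-!
# The theorem for the surfaces with irreducible branch curve
-/

attribute [local instance 100000] Pool.Agent.Lib.MP_89bcae_ag.Brt.tffFields
attribute [local instance 100000] Pool.Agent.Lib.MP_89bcae_ag.Wt.ifrNF Pool.Agent.Lib.MP_89bcae_ag.Wt.iddNF

open Polynomial IsDedekindDomain

open scoped Classical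

namespace Pool.Agent.Lib.MP_89bcae_ag.Zq

open Pool.Agent.Lib.MP_89bcae_ag.Wt Pool.Agent.Lib.MP_89bcae_ag.Wt.Lns Pool.Agent.Lib.MP_89bcae_ag.Bra
  Pool.Agent.Lib.MP_89bcae_ag.Brt Pool.Agent.Lib.MP_89bcae_ag.Zc

open Pool.Agent.Lib.MP_89bcae_ag.Zs hiding IsBranchCurve IsCritical IsSymplectic IsOrthogonal IsSmoothAt unramified
  critical_contra l3_val l4_chart lf_z

section

variable {k F L Ω : Type} [Field k] [Field F] [Algebra k F] [IsAlgClosure k F] [Field L] [Algebra F[X] L]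
  [IsFractionRing F[X] L] [Field Ω] [Algebra L Ω] [IsAlgClosure L Ω] {ℓ : ℕ} {f : k[X][X]} {ζ : k}

/-- The group `U` contains the elements attached to the Tate cocycles with the local property `LT`. -/
def Contains (ζ : k) [hG : IsGood ℓ (cOver k F L Ω f)] (LT : Co1 ℓ k F L Ω f → Prop) {E : Type} [Field E] [Algebra F E]
    (t x : E) (U : Subgroup Eˣ) : Prop :=
  ∀ (lam : L →+* E) (ι : E →+* Ω), (∀ z, ι (lam z) = algebraMap L Ω z) →
    (∀ c : F, lam (algebraMap F[X] L (C c)) = algebraMap F E c) → lam (algebraMap F[X] L X) = t →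
    (cOver k F L Ω f).eval (ι x) = 0 → @FiniteDimensional L E _ _ lam.toAlgebra.toModule →
    (∀ y : Ω, y ∈ IntermediateField.adjoin L {ι x} ↔ ∃ e, ι e = y) →
    ∀ (hz : (zA F L Ω ζ) ^ ℓ = 1) (c : Coch ℓ k F L Ω f), Wt.IsTateCocycle ℓ (curveL k F L f) c → (∀ n, LT (c n)) →
      ∀ u : Eˣ, IsKum ζ (ι x) (fun σ => vJ (zA F L Ω ζ) hz (c 1 σ)) (ι (u : E)) → u ∈ U

/-- The invariant classes are trivial. -/
theorem ntg_gen [hl : Fact ℓ.Prime] (hζ : IsPrimitiveRoot ζ ℓ) (hf : f.Monic) (H : LHyp ℓ k F L f ζ)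
    (hirr : Irreducible (curveL k F L f)) (hsep : (curveL k F L f).Separable)
    {E : Type} [Field E] [Algebra F E] {t x : E} (hE : IsCurveField F f t x)
    [hG : IsGood ℓ (cOver k F L Ω f)] {LT : Co1 ℓ k F L Ω f → Prop} (hLT : LTprop ζ LT)
    {U : Subgroup Eˣ} (hPU : powers ℓ E ≤ U) (hU : Contains ζ LT t x U)
    (hC : IsRigid ℓ k F t x U (powers ℓ E)) (k' : IntermediateField k F) [FiniteDimensional k k'] :
    NTg ℓ 1 (curveL k F L f) LT (AutK k F L Ω k') := by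
  have hℓ : ℓ.Prime := hl.out
  have hz : IsPrimitiveRoot (zA F L Ω ζ) ℓ := zA_prim H
  obtain ⟨lam, ι, h1, h2, h3, hroot, hfin, hadj⟩ := exists_emb (L := L) (Ω := Ω) hf hE
  obtain ⟨ρ, hρ1, hρ2, hρ3⟩ := exists_resE hℓ hζ hf hE lam ι h1 h2 h3 (Gst k F L (ι x)) (fun γ => Iff.rfl)
  let _ : DistribMulAction (Gst k F L (ι x)) (Additive (Eˣ ⧸ powers ℓ E)) := DistribMulAction.compHom _ ρ
  have hsm : ∀ (g : Gst k F L (ι x)) (u : Eˣ), g • (Additive.ofMul (QuotientGroup.mk u : Eˣ ⧸ powers ℓ E)) =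
      Additive.ofMul (QuotientGroup.mk (Units.map ((ρ g : E ≃+* E) : E →* E) u)) := fun g u => actPow_mk (ρ g) u
  have hpow : ∀ u : Eˣ, (Additive.ofMul (QuotientGroup.mk u : Eˣ ⧸ powers ℓ E)) = 0 ↔ ∃ w : Eˣ, w ^ ℓ = u := by
    intro u
    have h4 : (Additive.ofMul (QuotientGroup.mk u : Eˣ ⧸ powers ℓ E)) = 0 ↔
        (QuotientGroup.mk u : Eˣ ⧸ powers ℓ E) = 1 := Iff.rfl
    rw [h4, QuotientGroup.eq_one_iff]
    exact Iff.rfl
  have hιinj : Function.Injective ι := ι.injective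
  refine ntg_of_lift (LT := LT) H hirr hLT (ι x) hz.pow_eq_one
    (M := Additive (Eˣ ⧸ powers ℓ E))
    (fun c m => ∃ u : Eˣ, m = Additive.ofMul (QuotientGroup.mk u : Eˣ ⧸ powers ℓ E) ∧
      IsKum ζ (ι x) (fun σ => vJ (zA F L Ω ζ) hz.pow_eq_one (c 1 σ)) (ι (u : E)))
    ?_ ?_ ?_ ?_ ?_ ?_ ?_ k'
  · -- existence
    intro c hc
    obtain ⟨u, hu1, hu2⟩ := exists_isKum H hz.pow_eq_one hirr hsep hroot hc.1
    obtain ⟨u', rfl⟩ := (hadj u).1 hu1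
    have hu0 : u' ≠ 0 := by
      rintro rfl
      exact hu2.ne_zero hroot (map_zero ι)
    exact ⟨_, Units.mk0 u' hu0, rfl, hu2⟩
  · -- sums
    rintro c c' - - m m' ⟨u, rfl, hu⟩ ⟨u', rfl, hu'⟩
    refine ⟨u * u', rfl, ?_⟩
    have h4 := hu.add (hz.ne_zero hℓ.ne_zero) hu'
    rw [← map_mul, ← Units.val_mul] at h4
    refine Eq.mp (congrArg (fun a => IsKum ζ (ι x) a _) ?_) h4
    funext σ
    exact (vJ_add _ _ _ _).symm
  · -- trivial classes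
    rintro c hc m ⟨u, rfl, hu⟩
    obtain ⟨q, hq⟩ := Trc.exists_cob H hz.pow_eq_one hc
    obtain ⟨w, hw1, hw2⟩ := hu.exists_pow H hirr hsep hroot ((hadj _).2 ⟨u, rfl⟩) hq
    obtain ⟨w', rfl⟩ := (hadj w).1 hw1
    rw [← map_pow] at hw2
    have hw3 : (u : E) = w' ^ ℓ := hιinj hw2
    have hw0 : w' ≠ 0 := by
      rintro rfl
      rw [zero_pow hℓ.ne_zero] at hw3
      exact u.ne_zero hw3
    rw [hpow]
    exact ⟨Units.mk0 w' hw0, Units.ext hw3.symm⟩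
  · -- `Z`
    rintro c hc m ⟨u, rfl, hu⟩
    exact ⟨u, rfl, isKum_zC H hz.pow_eq_one hc.1 hu⟩
  · -- kernel
    rintro c hc ⟨u, hu0, hu⟩
    obtain ⟨w, hw⟩ := (hpow u).1 hu0.symm
    rw [← hw, Units.val_pow_eq_pow_val, map_pow] at hu
    exact hu.exists_cob H hirr hsep hroot ((hadj _).2 ⟨w, rfl⟩)
  · -- equivariance
    rintro g c hc m ⟨u, rfl, hu⟩
    refine ⟨_, hsm g u, ?_⟩
    have h4 := hu.act (γ := (g : AutO k F L Ω)) g.2
    rw [← hρ1] at h4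
    refine Eq.mp (congrArg (fun a => IsKum ζ (ι x) a _) ?_) h4
    funext σ
    exact (vJ_symJ (zA F L Ω ζ) hz.pow_eq_one (toSym f (g : AutO k F L Ω)) (zA_fixed ζ (g : AutO k F L Ω)) _).symm
  · -- the criterion
    intro N hN hNE hNst r hr n σ ρ' th hL
    refine rigid_contra hPU hC ρ hρ2 hρ3 hsm N hN ?_ hr hL
    intro m hm
    obtain ⟨c, hc, u, hmu, hu⟩ := hNE m hm
    exact ⟨u, hU lam ι h1 h2 h3 hroot hfin hadj hz.pow_eq_one c hc.1 hc.2.1 u hu, hmu⟩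

end

end Pool.Agent.Lib.MP_89bcae_ag.Zq
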