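import Mathlib
import Pool.Agent.Lib.MP_89bcae_ag.Zq.Loc

/-!
# The cocycle attached to a divisor `h(x) = 0`, `y = b(x)`
-/

attribute [local instance 100000] Pool.Agent.Lib.MP_89bcae_ag.Brt.tffFields
attribute [local instance 100000] Pool.Agent.Lib.MP_89bcae_ag.Wt.ifrNF Pool.Agent.Lib.MP_89bcae_ag.Wt.iddNF

open Polynomial IsDedekindDomain

open scoped Classical

namespace Pool.Agent.Lib.MP_89bcae_ag.Zq

open Pool.Agent.Lib.MP_89bcae_ag.Wt Pool.Agent.Lib.MP_89bcae_ag.Wt.Lns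

open Pool.Agent.Lib.MP_89bcae_ag.Zs (IsKum kum_trans kum_eval_gal kum_zA h1_locConst)

section

variable {ℓ : ℕ} {E : Type} [Field E] {f : E[X]}

/-- The sum of the points `pt a`, for `a` in `s`. -/
noncomputable def ptDiv (pt : E → Pt ℓ f) (s : Multiset E) : Pt ℓ f →₀ ℤ :=
  (s.map fun a => Finsupp.single (pt a) 1).sum

lemma ptDiv_cons (pt : E → Pt ℓ f) (a : E) (s : Multiset E) :
    ptDiv pt (a ::ₘ s) = Finsupp.single (pt a) 1 + ptDiv pt s := by
  unfold ptDiv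
  rw [Multiset.map_cons, Multiset.sum_cons]

lemma ptDiv_zero (pt : E → Pt ℓ f) : ptDiv pt 0 = 0 := by
  unfold ptDiv
  rw [Multiset.map_zero, Multiset.sum_zero]

lemma mapDomain_ptDiv (σ : Sym f) (pt : E → Pt ℓ f) (s : Multiset E) (hs : s.map (σ : E ≃+* E) = s)
    (hpt : ∀ a ∈ s, (pt a).sym σ = pt ((σ : E ≃+* E) a)) :
    (ptDiv pt s).mapDomain (Pt.sym σ) = ptDiv pt s := by
  have h1 : ∀ s : Multiset E, (∀ a ∈ s, (pt a).sym σ = pt ((σ : E ≃+* E) a)) →
      (ptDiv pt s).mapDomain (Pt.sym σ) = ptDiv pt (s.map (σ : E ≃+* E)) := by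
    intro s
    induction s using Multiset.induction_on with
    | empty =>
      intro _
      rw [Multiset.map_zero, ptDiv_zero, Finsupp.mapDomain_zero]
    | cons a s ih =>
      intro h
      rw [Multiset.map_cons, ptDiv_cons, ptDiv_cons, Finsupp.mapDomain_add, Finsupp.mapDomain_single,
        ih fun b hb => h b (Multiset.mem_cons_of_mem hb), h a (Multiset.mem_cons_self a s)]
  rw [h1 s hpt, hs]

variable [hG : IsGood ℓ f]

lemma uval_ptDiv (pt : E → Pt ℓ f) (s : Multiset E) (θ : E) (hs : ∀ a ∈ s, (pt a).x = a ∧ a ≠ θ) :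
    uval (ptDiv pt s) θ = (s.map fun a => θ - a).prod := by
  induction s using Multiset.induction_on with
  | empty =>
    rw [ptDiv_zero, Multiset.map_zero, Multiset.prod_zero]
    exact Finsupp.prod_zero_index
  | cons a s ih =>
    rw [Multiset.map_cons, Multiset.prod_cons, ← ih fun b hb => hs b (Multiset.mem_cons_of_mem hb),
      ptDiv_cons]
    obtain ⟨h1, h2⟩ := hs a (Multiset.mem_cons_self a s)
    unfold uval
    have h3 : ∀ P : Pt ℓ f, (if P.x = θ then (cof f θ ^ al ℓ (wt f θ))⁻¹ else θ - P.x) ≠ 0 := by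
      intro P
      split_ifs with h
      · exact inv_ne_zero (pow_ne_zero _ (cof_ne_zero (f_ne_zero ℓ f) θ))
      · exact sub_ne_zero.mpr (Ne.symm h)
    rw [Finsupp.prod_add_index' (fun _ => zpow_zero _) (fun P m n => zpow_add₀ (h3 P) m n),
      Finsupp.prod_single_index (zpow_zero _), zpow_one, h1, if_neg h2]

lemma atR_ptDiv (pt : E → Pt ℓ f) (s : Multiset E) (θ : E) (hs : ∀ a ∈ s, (pt a).x = a ∧ a ≠ θ) :
    atR (ptDiv pt s) θ = 0 := by
  unfold atR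
  split_ifs with hθ
  · induction s using Multiset.induction_on with
    | empty =>
      rw [ptDiv_zero]
      rfl
    | cons a s ih =>
      rw [ptDiv_cons, Finsupp.add_apply, ih fun b hb => hs b (Multiset.mem_cons_of_mem hb), add_zero]
      obtain ⟨h1, h2⟩ := hs a (Multiset.mem_cons_self a s)
      apply Finsupp.single_eq_of_ne
      intro h
      exact h2 ((congrArg Pt.x h).trans h1).symm
  · rfl

end

section

variable {k F L Ω : Type} [Field k] [Field F] [Algebra k F] [Field L] [Algebra F[X] L]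
  [Field Ω] [Algebra L Ω] [IsAlgClosure k F] [IsFractionRing F[X] L] [IsAlgClosure L Ω]
  {ℓ : ℕ} {P : k[X][X]} {ζ : k} {θ₀ : Ω} [hG : IsGood ℓ (cOver k F L Ω P)]

/-- The coboundaries of the points `A n` with `ℓ • A (n + 1) = A n`, if `A 0` is fixed. -/
lemma trJ_cob (A : ℕ → JacOver ℓ (curveL k F L P) Ω) (hA : ∀ n, ℓ • A (n + 1) = A n)
    (h0 : ∀ σ : Ω ≃ₐ[L] Ω, symJ (toSym P (galA k F σ)) (A 0) = A 0) :
    TrJ (fun n σ => symJ (toSym P (galA k F σ)) (A n) - A n : Coch ℓ k F L Ω P) := by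
  refine ⟨⟨fun σ => ?_, fun n σ => ?_, fun n σ τ => ?_, fun n => ?_⟩, fun n => ⟨A n, fun σ => ?_⟩⟩
  · show symJ (toSym P (galA k F σ)) (A 0) - A 0 = 0
    rw [h0, sub_self]
  · show ℓ • (symJ (toSym P (galA k F σ)) (A (n + 1)) - A (n + 1)) =
      symJ (toSym P (galA k F σ)) (A n) - A n
    rw [smul_sub, ← map_nsmul, hA]
  · show symJ (toSym P (galA k F (σ * τ))) (A n) - A n = (symJ (toSym P (galA k F σ)) (A n) - A n) +
      push ℓ (curveL k F L P) (σ : Ω →ₐ[L] Ω) (symJ (toSym P (galA k F τ)) (A n) - A n)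
    rw [push_eq, map_mul, map_mul, symJ_mul, map_sub]
    abel
  · exact (h1_locConst (A n)).comp fun a => a - A n
  · rw [push_eq]

/-- The exponents of a function `z` on the roots whose `ℓ`-th power is compatible with the action. -/
lemma exists_exponent (H : LHyp ℓ k F L P ζ) (σ : Ω ≃ₐ[L] Ω) {z : Ω → Ω}
    (hz : ∀ θ, (cOver k F L Ω P).eval θ = 0 → z θ ≠ 0)
    (hzσ : ∀ θ, (cOver k F L Ω P).eval θ = 0 → σ (z θ) ^ ℓ = z (σ θ) ^ ℓ) :
    ∃ n : Ω → ℤ, ∀ θ, (cOver k F L Ω P).eval θ = 0 →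
      σ (z θ) = (zA F L Ω ζ) ^ n (σ θ) * z (σ θ) := by
  have hζ' : IsPrimitiveRoot (zA F L Ω ζ) ℓ := zA_prim H
  have hex : ∀ θ, ∃ i : ℤ, (cOver k F L Ω P).eval (σ.symm θ) = 0 →
      σ (z (σ.symm θ)) = (zA F L Ω ζ) ^ i * z θ := by
    intro θ
    by_cases hθ : (cOver k F L Ω P).eval (σ.symm θ) = 0
    · have h1 := hzσ _ hθ
      rw [σ.apply_symm_apply] at h1
      have h2 : z θ ≠ 0 := by
        apply hz
        rw [← kum_eval_gal (k := k) (F := F) (P := P) σ.symm]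
        exact hθ
      obtain ⟨i, hi⟩ := Sup.G13_exists_zpow H.prime.ne_zero hζ' h2 h1
      exact ⟨i, fun _ => hi⟩
    · exact ⟨0, fun h => absurd h hθ⟩
  choose n hn using hex
  refine ⟨n, fun θ hθ => ?_⟩
  have h1 := hn (σ θ)
  rw [σ.symm_apply_apply] at h1
  exact h1 hθ

lemma prod_zpow {E : Type} [Field E] {a : E} (ha : a ≠ 0) (n : E → ℤ) (S : Finset E) :
    ∏ θ ∈ S, a ^ n θ = a ^ ∑ θ ∈ S, n θ := by
  induction S using Finset.induction_on with
  | empty => simp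
  | insert b T hb ih => rw [Finset.prod_insert hb, Finset.sum_insert hb, zpow_add₀ ha, ih]

omit [IsAlgClosure k F] [IsFractionRing F[X] L] [IsAlgClosure L Ω] hG in
lemma prod_sub (s : Multiset Ω) (S : Finset Ω) :
    ∏ θ ∈ S, (s.map fun a => θ - a).prod = (s.map fun a => ∏ θ ∈ S, (θ - a)).prod := by
  induction s using Multiset.induction_on with
  | empty => simp
  | cons a s ih =>
    simp only [Multiset.map_cons, Multiset.prod_cons]
    rw [Finset.prod_mul_distrib, ih]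

omit [IsAlgClosure k F] [IsFractionRing F[X] L] [IsAlgClosure L Ω] hG in
lemma prod_roots [IsAlgClosed Ω] {f : Polynomial Ω} (hf : f.Monic) (hs : f.Separable) (a : Ω) :
    ∏ θ ∈ f.roots.toFinset, (θ - a) = (-1) ^ f.natDegree * f.eval a := by
  have h1 : f.roots.toFinset.val = f.roots := by
    rw [Multiset.toFinset_val, Multiset.dedup_eq_self.2 (nodup_roots hs)]
  have h2 : ∏ θ ∈ f.roots.toFinset, (θ - a) = (f.roots.map fun θ => θ - a).prod := by
    rw [Finset.prod_eq_multiset_prod, h1]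
  have h3 : f.roots.card = f.natDegree := ((IsAlgClosed.splits f).natDegree_eq_card_roots).symm
  have h4 : ∀ t : Multiset Ω, (t.map fun θ => θ - a).prod = (-1) ^ t.card * (t.map fun θ => a - θ).prod := by
    intro t
    induction t using Multiset.induction_on with
    | empty => simp
    | cons b t ih =>
      simp only [Multiset.map_cons, Multiset.prod_cons, Multiset.card_cons]
      rw [ih]
      ring
  rw [h2, h4, h3, (IsAlgClosed.splits f).eval_eq_prod_roots_of_monic hf]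

omit [IsAlgClosure k F] [IsFractionRing F[X] L] [IsAlgClosure L Ω] hG in
lemma gal_roots (σ : Ω ≃ₐ[L] Ω) [IsAlgClosed Ω] (h : L[X]) :
    (h.map (algebraMap L Ω)).roots.map σ = (h.map (algebraMap L Ω)).roots := by
  have h1 : (h.map (algebraMap L Ω)).map ((σ : Ω ≃ₐ[L] Ω) : Ω →+* Ω) = h.map (algebraMap L Ω) := by
    rw [Polynomial.map_map]
    congr 1
    ext z
    exact σ.commutes z
  have h2 := (IsAlgClosed.splits (h.map (algebraMap L Ω))).roots_map ((σ : Ω ≃ₐ[L] Ω) : Ω →+* Ω)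
  rw [h1] at h2
  exact h2.symm

/-- Let `h` be a monic polynomial over `L` which divides `b ^ ℓ - f`. There is a Tate cocycle which is a coboundary in the
Jacobian such that the element attached to it is `h(θ₀)`. -/
theorem exists_trJ (H : LHyp ℓ k F L P ζ) (hirr : Irreducible (curveL k F L P)) (hsep : (curveL k F L P).Separable)
    (hmon : (curveL k F L P).Monic) (hζ : (zA F L Ω ζ) ^ ℓ = 1) (h0 : (cOver k F L Ω P).eval θ₀ = 0) {h b : L[X]}
    (hm : h.Monic) (hd : h ∣ b ^ ℓ - curveL k F L P) (hne : aeval θ₀ h ≠ 0) :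
    ∃ c : Coch ℓ k F L Ω P, TrJ c ∧ IsKum ζ θ₀ (fun σ => vJ (zA F L Ω ζ) hζ (c 1 σ)) (aeval θ₀ h) := by
  have hΩ : IsAlgClosed Ω := IsAlgClosure.isAlgClosed L
  have hF : IsAlgClosed F := IsAlgClosure.isAlgClosed k
  have hζ' : IsPrimitiveRoot (zA F L Ω ζ) ℓ := zA_prim H
  have hζ0 : zA F L Ω ζ ≠ 0 := hζ'.ne_zero H.prime.ne_zero
  -- the points
  have hsym : ∀ σ : Ω ≃ₐ[L] Ω, ((toSym P (galA k F σ) : Sym (cOver k F L Ω P)) : Ω ≃+* Ω) = (σ : Ω ≃+* Ω) :=
    fun σ => rfl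
  have hmapb : ∀ (g : L[X]) (σ : Ω ≃ₐ[L] Ω) (a : Ω), σ (aeval a g) = aeval (σ a) g := fun g σ a =>
    (aeval_algHom_apply (σ : Ω →ₐ[L] Ω) a g).symm
  have hcov : ∀ a : Ω, (cOver k F L Ω P).eval a = aeval a (curveL k F L P) := fun a =>
    eval_map_algebraMap _ _
  let pt : Ω → Pt ℓ (cOver k F L Ω P) := fun a =>
    if h : (aeval a b) ^ ℓ = (cOver k F L Ω P).eval a then ⟨a, aeval a b, h⟩ else
      ⟨θ₀, 0, by rw [zero_pow hG.ne, h0]⟩
  set s : Multiset Ω := (h.map (algebraMap L Ω)).roots with hs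
  have hh0 : h.map (algebraMap L Ω) ≠ 0 := (hm.map _).ne_zero
  have hroot : ∀ a ∈ s, aeval a h = 0 := by
    intro a ha
    rw [hs, mem_roots hh0, IsRoot.def, eval_map_algebraMap] at ha
    exact ha
  have hbf : ∀ a ∈ s, (aeval a b) ^ ℓ = (cOver k F L Ω P).eval a := by
    intro a ha
    obtain ⟨q, hq⟩ := hd
    have h1 := congrArg (aeval a) hq
    rw [map_sub, map_pow, map_mul, hroot a ha, zero_mul, sub_eq_zero] at h1
    rw [hcov]
    exact h1
  have hpt : ∀ a, ∀ h : (aeval a b) ^ ℓ = (cOver k F L Ω P).eval a, pt a = ⟨a, aeval a b, h⟩ :=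
    fun a h => dif_pos h
  have hneθ : ∀ θ, (cOver k F L Ω P).eval θ = 0 → aeval θ h ≠ 0 := by
    intro θ hθ
    obtain ⟨σ, rfl⟩ := kum_trans hirr h0 hθ
    rw [← hmapb]
    exact (map_ne_zero_iff σ σ.injective).2 hne
  have hsx : ∀ θ, (cOver k F L Ω P).eval θ = 0 → ∀ a ∈ s, (pt a).x = a ∧ a ≠ θ := by
    intro θ hθ a ha
    refine ⟨by rw [hpt a (hbf a ha)], ?_⟩
    rintro rfl
    exact hneθ a hθ (hroot a ha)
  set D : Pt ℓ (cOver k F L Ω P) →₀ ℤ := ptDiv pt s with hD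
  have hDσ : ∀ σ : Ω ≃ₐ[L] Ω, D.mapDomain (Pt.sym (toSym P (galA k F σ))) = D := by
    intro σ
    refine mapDomain_ptDiv _ pt s (gal_roots σ h) fun a ha => ?_
    have h1 : (aeval (σ a) b) ^ ℓ = (cOver k F L Ω P).eval (σ a) := by
      rw [hcov, ← hmapb, ← hmapb, ← map_pow, ← hcov, hbf a ha]
    rw [hpt a (hbf a ha)]
    show _ = pt (σ a)
    rw [hpt _ h1]
    ext
    · rfl
    · exact hmapb b σ a
  have hval : ∀ θ, (cOver k F L Ω P).eval θ = 0 → uval D θ = aeval θ h := by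
    intro θ hθ
    rw [hD, uval_ptDiv pt s θ (hsx θ hθ), ← eval_map_algebraMap,
      (IsAlgClosed.splits (h.map (algebraMap L Ω))).eval_eq_prod_roots_of_monic (hm.map _)]
  -- the points `A n`
  choose dv hdv using fun Q : JacOver ℓ (curveL k F L P) Ω =>
    exists_smul_eq H.prime (zA F L Ω ζ) hζ' Q
  let A : ℕ → JacOver ℓ (curveL k F L P) Ω := fun n => dv^[n] (cl D)
  have hA : ∀ n, ℓ • A (n + 1) = A n := by
    intro n
    show ℓ • dv^[n + 1] (cl D) = dv^[n] (cl D)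
    rw [Function.iterate_succ_apply']
    exact hdv _
  have hA0 : ∀ σ : Ω ≃ₐ[L] Ω, symJ (toSym P (galA k F σ)) (A 0) = A 0 := by
    intro σ
    show symJ (toSym P (galA k F σ)) (cl D) = cl D
    rw [symJ_cl, hDσ]
  refine ⟨_, trJ_cob A hA hA0, ?_⟩
  obtain ⟨z, hz, hkum⟩ := kummer_rm (zA F L Ω ζ) hζ' (vJ (zA F L Ω ζ) hζ (A 1)) D (by
    rw [vJ_sub_zJ (zA F L Ω ζ) hζ' (A 1)]
    exact hA 0)
  have hz1 : ∀ θ, (cOver k F L Ω P).eval θ = 0 → z θ ≠ 0 := fun θ hθ => (hz θ hθ).1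
  have hz2 : ∀ θ, (cOver k F L Ω P).eval θ = 0 → z θ ^ ℓ = aeval θ h := by
    intro θ hθ
    rw [(hz θ hθ).2, hval θ hθ, hD, atR_ptDiv pt s θ (hsx θ hθ), zpow_zero, one_mul]
  refine ⟨z, hz1, hz2 θ₀ h0, fun σ => ?_⟩
  obtain ⟨n, hn⟩ := exists_exponent H σ hz1 (fun θ hθ => by
    rw [← map_pow, hz2 θ hθ, hz2 _ ((kum_eval_gal σ).2 hθ), hmapb])
  refine ⟨n, hn, ?_, ?_⟩
  · show vJ (zA F L Ω ζ) hζ (symJ (toSym P (galA k F σ)) (A 1) - A 1) = _
    rw [vJ_sub, vJ_symJ (zA F L Ω ζ) hζ _ (zA_fixed ζ (galA k F σ))]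
    exact hkum _ (zA_fixed ζ (galA k F σ)) (hDσ σ) n hn
  · set S : Finset Ω := (cOver k F L Ω P).roots.toFinset with hS
    have hmem : ∀ θ, θ ∈ S ↔ (cOver k F L Ω P).eval θ = 0 := fun θ => rm14_mem hG
    have hmonΩ : (cOver k F L Ω P).Monic := hmon.map _
    -- the root of the sign
    obtain ⟨e₀, he₀⟩ := IsAlgClosed.exists_pow_nat_eq ((-1 : F) ^ (cOver k F L Ω P).natDegree) H.prime.pos
    set e : L := algebraMap F[X] L (C e₀) with he
    have heℓ : (algebraMap L Ω e) ^ ℓ = (-1) ^ (cOver k F L Ω P).natDegree := by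
      rw [he, ← map_pow, ← map_pow, ← map_pow, he₀, map_pow, map_pow, map_pow]
      simp
    set Y : Ω := (s.map fun a => algebraMap L Ω e * aeval a b).prod with hY
    set W : Ω := ∏ θ ∈ S, z θ with hW
    have hWY : W ^ ℓ = Y ^ ℓ := by
      rw [hW, ← Finset.prod_pow, Finset.prod_congr rfl fun θ hθ => hz2 θ ((hmem θ).1 hθ), hY,
        ← Multiset.prod_map_pow]
      have h1 : ∀ θ, aeval θ h = (s.map fun a => θ - a).prod := by
        intro θ
        rw [← eval_map_algebraMap,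
          (IsAlgClosed.splits (h.map (algebraMap L Ω))).eval_eq_prod_roots_of_monic (hm.map _)]
      rw [Finset.prod_congr rfl fun θ _ => h1 θ, prod_sub]
      congr 1
      refine Multiset.map_congr rfl fun a ha => ?_
      rw [hS, prod_roots hmonΩ hsep.map, _root_.mul_pow, heℓ, hbf a ha]
    have hW0 : W ≠ 0 := Finset.prod_ne_zero_iff.mpr fun θ hθ => hz1 θ ((hmem θ).1 hθ)
    have hY0 : Y ≠ 0 := by
      intro h1
      rw [h1, zero_pow H.prime.ne_zero] at hWY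
      exact hW0 (pow_eq_zero_iff H.prime.ne_zero |>.1 hWY)
    obtain ⟨i, hi⟩ := Sup.G13_exists_zpow H.prime.ne_zero hζ' hY0 hWY
    have hYσ : σ Y = Y := by
      rw [hY, map_multiset_prod, Multiset.map_map]
      conv_rhs => rw [hs, ← gal_roots σ h, Multiset.map_map]
      congr 1
      refine Multiset.map_congr rfl fun a _ => ?_
      show σ (algebraMap L Ω e * aeval a b) = algebraMap L Ω e * aeval (σ a) b
      rw [map_mul, σ.commutes, hmapb]
    have hWσ : σ W = W := by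
      rw [hi, map_mul, map_zpow₀, kum_zA, hYσ]
    have hWσ' : σ W = zA F L Ω ζ ^ (∑ θ ∈ S, n θ) * W := by
      have hperm : ∀ φ : Ω → Ω, ∏ θ ∈ S, φ (σ θ) = ∏ θ ∈ S, φ θ := by
        intro φ
        refine Finset.prod_equiv (σ : Ω ≃ Ω) (fun θ => ?_) fun _ _ => rfl
        rw [hmem, hmem]
        exact (kum_eval_gal σ).symm
      rw [hW, map_prod, Finset.prod_congr rfl fun θ hθ => hn θ ((hmem θ).1 hθ),
        Finset.prod_mul_distrib, hperm (fun θ => zA F L Ω ζ ^ n θ), hperm z]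
      congr 1
      exact prod_zpow hζ0 n S
    rw [hWσ'] at hWσ
    have h1 : zA F L Ω ζ ^ (∑ θ ∈ S, n θ) = 1 := by
      have h2 := mul_right_cancel₀ hW0 (hWσ.trans (one_mul W).symm)
      exact h2
    exact (hζ'.zpow_eq_one_iff_dvd _).1 h1

private lemma trJ_add' {c c' : Coch ℓ k F L Ω P} (hc : TrJ c) (hc' : TrJ c') : TrJ (c + c') := by
  refine ⟨tc_add hc.1 hc'.1, fun n => ?_⟩
  obtain ⟨A, hA⟩ := hc.2 n
  obtain ⟨A', hA'⟩ := hc'.2 n
  refine ⟨A + A', fun g => ?_⟩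
  rw [Pi.add_apply, Pi.add_apply, hA, hA', map_add]
  abel

private lemma trJ_neg' {c : Coch ℓ k F L Ω P} (hc : TrJ c) : TrJ (-c) := by
  refine ⟨tc_neg hc.1, fun n => ?_⟩
  obtain ⟨A, hA⟩ := hc.2 n
  refine ⟨-A, fun g => ?_⟩
  rw [Pi.neg_apply, Pi.neg_apply, hA, map_neg]
  abel

private lemma trJ_zero' : TrJ (0 : Coch ℓ k F L Ω P) := by
  refine ⟨tc_zero, fun n => ⟨0, fun g => ?_⟩⟩
  rw [map_zero, sub_zero]
  rfl

/-- The elements attached to the Tate cocycles which are coboundaries in the Jacobian. -/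
theorem exists_trJ_of_mem (H : LHyp ℓ k F L P ζ) (hirr : Irreducible (curveL k F L P))
    (hsep : (curveL k F L P).Separable) (hmon : (curveL k F L P).Monic) (hζ : (zA F L Ω ζ) ^ ℓ = 1)
    (h0 : (cOver k F L Ω P).eval θ₀ = 0) {u : Ωˣ} (hu : u ∈ ptGroup ℓ (curveL k F L P) θ₀) :
    ∃ c : Coch ℓ k F L Ω P, TrJ c ∧ IsKum ζ θ₀ (fun σ => vJ (zA F L Ω ζ) hζ (c 1 σ)) u := by
  have hζ' : IsPrimitiveRoot (zA F L Ω ζ) ℓ := zA_prim H
  have hζ0 : zA F L Ω ζ ≠ 0 := hζ'.ne_zero H.prime.ne_zero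
  have hv0 : vJ (zA F L Ω ζ) hζ (0 : JacOver ℓ (curveL k F L P) Ω) = 0 := by
    have h6 := vJ_smul (zA F L Ω ζ) hζ 0 (0 : JacOver ℓ (curveL k F L P) Ω)
    rwa [zero_smul, zero_smul] at h6
  have hvn : ∀ Q : JacOver ℓ (curveL k F L P) Ω, vJ (zA F L Ω ζ) hζ (-Q) = -vJ (zA F L Ω ζ) hζ Q := by
    intro Q
    rw [← zero_sub Q, vJ_sub, hv0, zero_sub]
  have hone : IsKum ζ θ₀ (fun σ => vJ (zA F L Ω ζ) hζ ((0 : Coch ℓ k F L Ω P) 1 σ)) 1 := by
    refine ⟨fun _ => 1, fun _ _ => one_ne_zero, one_pow _, fun σ => ⟨fun _ => 0, fun θ _ => ?_, ?_, ?_⟩⟩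
    · rw [map_one, zpow_zero, one_mul]
    · show vJ (zA F L Ω ζ) hζ (0 : JacOver ℓ (curveL k F L P) Ω) = _
      rw [hv0, rm_zero]
    · rw [Finset.sum_const_zero]
      exact dvd_zero _
  refine Subgroup.closure_induction (p := fun (u : Ωˣ) _ => ∃ c : Coch ℓ k F L Ω P, TrJ c ∧
    IsKum ζ θ₀ (fun σ => vJ (zA F L Ω ζ) hζ (c 1 σ)) u) ?_ ?_ ?_ ?_ hu
  · rintro u (⟨w, hw, hwu⟩ | ⟨h, b, hm, hd, hhu⟩)
    · have hw0 : w ≠ 0 := by
        rintro rfl
        rw [zero_pow H.prime.ne_zero] at hwu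
        exact u.ne_zero hwu
      refine ⟨0, trJ_zero', ?_⟩
      have h1 := hone.mul_pow H hirr hsep h0 hw hw0
      rw [one_mul, ← hwu] at h1
      exact h1
    · rw [hhu]
      exact exists_trJ H hirr hsep hmon hζ h0 hm hd (by
        rw [← hhu]
        exact u.ne_zero)
  · exact ⟨0, trJ_zero', hone⟩
  · rintro u v _ _ ⟨c, hc, hcu⟩ ⟨c', hc', hcv⟩
    refine ⟨c + c', trJ_add' hc hc', ?_⟩
    have h1 := hcu.add hζ0 hcv
    rw [Units.val_mul]
    refine Eq.mp (congrArg (fun φ => IsKum ζ θ₀ φ _) ?_) h1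
    funext σ
    exact (vJ_add (zA F L Ω ζ) hζ _ _).symm
  · rintro u _ ⟨c, hc, z, hz, hzu, hn⟩
    refine ⟨-c, trJ_neg' hc, fun θ => (z θ)⁻¹, fun θ hθ => inv_ne_zero (hz θ hθ), ?_, fun σ => ?_⟩
    · rw [inv_pow, hzu, Units.val_inv_eq_inv_val]
    · obtain ⟨n, h1, h2, h3⟩ := hn σ
      refine ⟨fun θ => -n θ, fun θ hθ => ?_, ?_, ?_⟩
      · rw [map_inv₀, h1 θ hθ, mul_inv, zpow_neg]
      · show vJ (zA F L Ω ζ) hζ (-(c 1 σ)) = _
        rw [hvn, rm_neg]
        exact congrArg _ h2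
      · rw [Finset.sum_neg_distrib]
        exact (dvd_neg).2 h3

end

end Pool.Agent.Lib.MP_89bcae_ag.Zq
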