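import Mathlib
import Pool.Agent.Lib.MP_89bcae_ag.Zq.Main
import Pool.Agent.Lib.MP_89bcae_ag.Zq.Pt2

/-!
# The theorem relative to the classes of the points
-/

attribute [local instance 100000] Pool.Agent.Lib.MP_89bcae_ag.Brt.tffFields
attribute [local instance 100000] Pool.Agent.Lib.MP_89bcae_ag.Wt.ifrNF Pool.Agent.Lib.MP_89bcae_ag.Wt.iddNF

open Polynomial IsDedekindDomain

open scoped Classical

namespace Pool.Agent.Lib.MP_89bcae_ag.Zq

open Pool.Agent.Lib.MP_89bcae_ag.Wt Pool.Agent.Lib.MP_89bcae_ag.Wt.Lns Pool.Agent.Lib.MP_89bcae_ag.Bra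
  Pool.Agent.Lib.MP_89bcae_ag.Brt Pool.Agent.Lib.MP_89bcae_ag.Zc

open Pool.Agent.Lib.MP_89bcae_ag.Zs hiding IsBranchCurve IsCritical IsSymplectic IsOrthogonal IsSmoothAt unramified
  critical_contra l3_val l4_chart lf_z

section

variable {k F L Ω : Type} [Field k] [Field F] [Algebra k F] [IsAlgClosure k F] [Field L] [Algebra F[X] L]
  [IsFractionRing F[X] L] [Field Ω] [Algebra L Ω] [IsAlgClosure L Ω] {ℓ : ℕ} {f : k[X][X]} {ζ : k}

/-- The elements attached to the cocycles which are trivial in the Jacobian are in the group `ptGroup`. -/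
def PtProp (ζ : k) (θ₀ : Ω) [hG : IsGood ℓ (cOver k F L Ω f)] (hz : (zA F L Ω ζ) ^ ℓ = 1) : Prop :=
  ∀ c : Coch ℓ k F L Ω f, TrJ c → ∀ u : Ωˣ, (u : Ω) ∈ IntermediateField.adjoin L {θ₀} →
    IsKum ζ θ₀ (fun σ => vJ (zA F L Ω ζ) hz (c 1 σ)) (u : Ω) → u ∈ ptGroup ℓ (curveL k F L f) θ₀

/-- The invariant classes come from points. -/
theorem ntj_gen [hl : Fact ℓ.Prime] (hζ : IsPrimitiveRoot ζ ℓ) (hf : f.Monic) (H : LHyp ℓ k F L f ζ)
    (hirr : Irreducible (curveL k F L f)) (hsep : (curveL k F L f).Separable)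
    {E : Type} [Field E] [Algebra F E] {t x : E} (hE : IsCurveField F f t x)
    [hG : IsGood ℓ (cOver k F L Ω f)] {LT : Co1 ℓ k F L Ω f → Prop} (hLT : LTprop ζ LT)
    {U : Subgroup Eˣ} (hU : Contains ζ LT t x U)
    (hQ : ∀ θ₀ : Ω, (cOver k F L Ω f).eval θ₀ = 0 → ∀ hz : (zA F L Ω ζ) ^ ℓ = 1, PtProp (f := f) ζ θ₀ hz)
    (hC : IsRigid ℓ k F t x U (points ℓ F f t x)) (k' : IntermediateField k F) [FiniteDimensional k k'] :
    NTJ ℓ (curveL k F L f) LT (AutK k F L Ω k') := by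
  have hℓ : ℓ.Prime := hl.out
  have hz : IsPrimitiveRoot (zA F L Ω ζ) ℓ := zA_prim H
  have hmon : (curveL k F L f).Monic := hf.map _
  obtain ⟨lam, ι, h1, h2, h3, hroot, hfin, hadj⟩ := exists_emb (L := L) (Ω := Ω) hf hE
  obtain ⟨ρ, hρ1, hρ2, hρ3⟩ := exists_resE hℓ hζ hf hE lam ι h1 h2 h3 (Gst k F L (ι x)) (fun γ => Iff.rfl)
  have hιinj : Function.Injective ι := ι.injective
  have hιu : Function.Injective (Units.map (ι : E →* Ω)) := Units.map_injective hιinj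
  have hmap := points_map (k := k) (ℓ := ℓ) (f := f) lam ι h1 h2 h3 hadj hℓ.ne_zero
  have hpt : ∀ u : Eˣ, u ∈ points ℓ F f t x ↔ Units.map (ι : E →* Ω) u ∈ ptGroup ℓ (curveL k F L f) (ι x) := by
    intro u
    rw [← hmap]
    exact (Subgroup.mem_map_iff_mem hιu).symm
  have hVst : ∀ (g : Gst k F L (ι x)), ∀ u ∈ points ℓ F f t x,
      Units.map ((ρ g : E ≃+* E) : E →* E) u ∈ points ℓ F f t x := by
    intro g u hu
    rw [hpt] at hu ⊢
    have h4 := ptGroup_stable g hu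
    have h5 : Units.map (ι : E →* Ω) (Units.map ((ρ g : E ≃+* E) : E →* E) u) =
        Units.map (((g : AutO k F L Ω) : Ω ≃+* Ω) : Ω →* Ω) (Units.map (ι : E →* Ω) u) := Units.ext (hρ1 g u)
    rw [h5]
    exact h4
  have hkum : ∀ u : Eˣ, u ∈ points ℓ F f t x → ∃ c' : Coch ℓ k F L Ω f, TrJ c' ∧
      IsKum ζ (ι x) (fun σ => vJ (zA F L Ω ζ) hz.pow_eq_one (c' 1 σ)) (ι (u : E)) := by
    intro u hu
    exact kum_of_mem_ptGroup H hz.pow_eq_one hirr hsep hroot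
      (fun h b hm hd hne => exists_trJ H hirr hsep hmon hz.pow_eq_one hroot hm hd hne) ((hpt u).1 hu)
  have hVU : points ℓ F f t x ≤ U := by
    intro u hu
    obtain ⟨c', hc', hk⟩ := hkum u hu
    exact hU lam ι h1 h2 h3 hroot hfin hadj hz.pow_eq_one c' hc'.1 (fun n => hc'.lt hLT n) u hk
  let _ : DistribMulAction (Gst k F L (ι x)) (Additive (Eˣ ⧸ points ℓ F f t x)) := actQ ρ hVst
  have hsm : ∀ (g : Gst k F L (ι x)) (u : Eˣ), g • (Additive.ofMul (QuotientGroup.mk u : Eˣ ⧸ points ℓ F f t x)) =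
      Additive.ofMul (QuotientGroup.mk (Units.map ((ρ g : E ≃+* E) : E →* E) u)) := fun g u => actQ_mk ρ hVst g u
  have hzero : ∀ u : Eˣ, (Additive.ofMul (QuotientGroup.mk u : Eˣ ⧸ points ℓ F f t x)) = 0 ↔ u ∈ points ℓ F f t x := by
    intro u
    have h4 : (Additive.ofMul (QuotientGroup.mk u : Eˣ ⧸ points ℓ F f t x)) = 0 ↔
        (QuotientGroup.mk u : Eˣ ⧸ points ℓ F f t x) = 1 := Iff.rfl
    rw [h4, QuotientGroup.eq_one_iff]
  refine ntj_of_lift (LT := LT) H hLT (ι x) hz.pow_eq_one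
    (M := Additive (Eˣ ⧸ points ℓ F f t x))
    (fun c m => ∃ u : Eˣ, m = Additive.ofMul (QuotientGroup.mk u : Eˣ ⧸ points ℓ F f t x) ∧
      IsKum ζ (ι x) (fun σ => vJ (zA F L Ω ζ) hz.pow_eq_one (c 1 σ)) (ι (u : E)))
    ?_ ?_ ?_ ?_ ?_ ?_ ?_ k'
  · -- existence
    intro c hc
    obtain ⟨u, hu1, hu2⟩ := exists_isKum H hz.pow_eq_one hirr hsep hroot hc.1
    obtain ⟨u', rfl⟩ := (hadj u).1 hu1
    have hu0 : u' ≠ 0 := by
      rintro rfl
      exact hu2.ne_zero hroot (map_zero ι)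
    exact ⟨_, Units.mk0 u' hu0, rfl, hu2⟩
  · -- sums
    rintro c c' - - m m' ⟨u, rfl, hu⟩ ⟨u', rfl, hu'⟩
    refine ⟨u * u', rfl, ?_⟩
    have h4 := hu.add (hz.ne_zero hℓ.ne_zero) hu'
    rw [← map_mul, ← Units.val_mul] at h4
    refine Eq.mp (congrArg (fun a => IsKum ζ (ι x) a _) ?_) h4
    funext σ
    exact (vJ_add _ _ _ _).symm
  · -- trivial classes
    rintro c hc m ⟨u, rfl, hu⟩
    rw [hzero, hpt]
    exact hQ (ι x) hroot hz.pow_eq_one c hc _ ((hadj _).2 ⟨u, rfl⟩) hu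
  · -- `Z`
    rintro c hc m ⟨u, rfl, hu⟩
    exact ⟨u, rfl, isKum_zC H hz.pow_eq_one hc.1 hu⟩
  · -- kernel
    rintro c hc ⟨u, hu0, hu⟩
    obtain ⟨c', hc', hk⟩ := hkum u ((hzero u).1 hu0.symm)
    refine ⟨c', hc', ?_⟩
    have h4 := hu.add (hz.ne_zero hℓ.ne_zero) (isKum_neg hk)
    rw [mul_inv_cancel₀ (by
      rw [Ne, _root_.map_eq_zero]
      exact u.ne_zero)] at h4
    have h5 : IsKum ζ (ι x) (fun σ => vJ (zA F L Ω ζ) hz.pow_eq_one ((c - c') 1 σ)) ((1 : Ω) ^ ℓ) := by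
      rw [one_pow]
      refine Eq.mp (congrArg (fun a => IsKum ζ (ι x) a _) ?_) h4
      funext σ
      rw [← sub_eq_add_neg]
      exact (vJ_sub _ _ _ _).symm
    exact h5.exists_cob H hirr hsep hroot (one_mem _)
  · -- equivariance
    rintro g c hc m ⟨u, rfl, hu⟩
    refine ⟨_, hsm g u, ?_⟩
    have h4 := hu.act (γ := (g : AutO k F L Ω)) g.2
    rw [← hρ1] at h4
    refine Eq.mp (congrArg (fun a => IsKum ζ (ι x) a _) ?_) h4
    funext σ
    exact (vJ_symJ (zA F L Ω ζ) hz.pow_eq_one (toSym f (g : AutO k F L Ω)) (zA_fixed ζ (g : AutO k F L Ω)) _).symm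
  · -- the criterion
    intro N hN hNE hNst r hr n σ ρ' th hL
    refine rigid_contra hVU hC ρ hρ2 hρ3 hsm N hN ?_ hr hL
    intro m hm
    obtain ⟨c, hc, u, hmu, hu⟩ := hNE m hm
    exact ⟨u, hU lam ι h1 h2 h3 hroot hfin hadj hz.pow_eq_one c hc.1 hc.2.1 u hu, hmu⟩

end

end Pool.Agent.Lib.MP_89bcae_ag.Zq
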