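import Mathlib
import Pool.Agent.Lib.MP_89bcae_ag.Zq.Loc

/-!
# The elements attached to the Tate cocycles which are coboundaries in the Jacobian: the Kummer formula
-/

attribute [local instance 100000] Pool.Agent.Lib.MP_89bcae_ag.Brt.tffFields
attribute [local instance 100000] Pool.Agent.Lib.MP_89bcae_ag.Wt.ifrNF Pool.Agent.Lib.MP_89bcae_ag.Wt.iddNF

open Polynomial IsDedekindDomain

open scoped Classical

namespace Pool.Agent.Lib.MP_89bcae_ag.Zq

open Pool.Agent.Lib.MP_89bcae_ag.Wt Pool.Agent.Lib.MP_89bcae_ag.Wt.Lns Pool.Agent.Lib.MP_89bcae_ag.Zs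

set_option linter.unusedSectionVars false

section general

variable {N : ℕ} {E : Type} [Field E] {f : E[X]}

/-- A product over the points of an invariant divisor is invariant. -/
lemma pt_prod_sym (σ : Sym f) (D : Pt N f →₀ ℤ) (hD : D.mapDomain (Pt.sym σ) = D)
    (g : Pt N f → E) (hg : ∀ P, (σ : E ≃+* E) (g P) = g (P.sym σ)) :
    (σ : E ≃+* E) (D.prod fun P n => g P ^ n) = D.prod fun P n => g P ^ n := by
  conv_rhs => rw [← hD]
  rw [Finsupp.prod_mapDomain_index_inj (U01_sym_inj σ), Finsupp.prod, Finsupp.prod, map_prod]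
  refine Finset.prod_congr rfl fun P _ => ?_
  rw [map_zpow₀, hg]

lemma pt_eval [IsAlgClosed E] (hp : f.Monic) (hs : f.Separable) (x : E) :
    ∏ θ ∈ f.roots.toFinset, (x - θ) = f.eval x := by
  rw [(IsAlgClosed.splits f).eval_eq_prod_roots_of_monic hp, Finset.prod_eq_multiset_prod,
    Multiset.toFinset_val, (nodup_roots hs).dedup]

/-- The points of a divisor without ramified points are not ramified. -/
lemma pt_unram [hG : IsGood N f] (D : Pt N f →₀ ℤ) (hat : ∀ θ, f.eval θ = 0 → atR D θ = 0) {P : Pt N f}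
    (hP : P ∈ D.support) : f.eval P.x ≠ 0 := by
  intro h
  have h1 := hat _ h
  unfold atR at h1
  rw [dif_pos h] at h1
  have hy : P.y = 0 := by
    have h2 := P.eq
    rw [h] at h2
    exact (pow_eq_zero_iff hG.ne).1 h2
  have h3 : (⟨P.x, 0, by rw [zero_pow hG.ne, h]⟩ : Pt N f) = P := Pt.ext rfl hy.symm
  rw [h3] at h1
  exact (Finsupp.mem_support_iff.1 hP) h1

lemma pt_uval [hG : IsGood N f] (D : Pt N f →₀ ℤ) (hat : ∀ θ, f.eval θ = 0 → atR D θ = 0) {θ : E}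
    (hθ : f.eval θ = 0) : uval D θ = D.prod fun P n => (θ - P.x) ^ n := by
  unfold uval Finsupp.prod
  refine Finset.prod_congr rfl fun P hP => ?_
  have h1 : P.x ≠ θ := by
    rintro rfl
    exact pt_unram D hat hP hθ
  simp only [if_neg h1]

/-- The product of the values of `uval` at all roots. -/
lemma pt_prod_uval [hG : IsGood N f] (hp : f.Monic) (hs : f.Separable) (D : Pt N f →₀ ℤ)
    (hat : ∀ θ, f.eval θ = 0 → atR D θ = 0) {w : E} (hw : w ^ N = -1) :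
    ∏ θ ∈ f.roots.toFinset, uval D θ =
      (D.prod fun P n => (w ^ f.roots.toFinset.card * P.y) ^ n) ^ N := by
  have hA : IsAlgClosed E := hG.alg
  have h1 : ∀ θ ∈ f.roots.toFinset, uval D θ = D.prod fun P n => (θ - P.x) ^ n := fun θ hθ =>
    pt_uval D hat ((rm14_mem hG).1 hθ)
  rw [Finset.prod_congr rfl h1]
  unfold Finsupp.prod
  rw [Finset.prod_comm, ← Finset.prod_pow]
  refine Finset.prod_congr rfl fun P _ => ?_
  rw [Finset.prod_zpow, ← zpow_natCast, ← zpow_mul, mul_comm (D P), zpow_mul, zpow_natCast]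
  congr 1
  rw [mul_pow, ← pow_mul, mul_comm _ N, pow_mul, hw, P.eq, ← pt_eval hp hs P.x, ← Finset.prod_const,
    ← Finset.prod_mul_distrib]
  refine Finset.prod_congr rfl fun θ _ => ?_
  ring

end general

section

variable {k F L Ω : Type} [Field k] [Field F] [Algebra k F] [Field L] [Algebra F[X] L]
  [Field Ω] [Algebra L Ω] [IsAlgClosure k F] [IsFractionRing F[X] L] [IsAlgClosure L Ω]
  {ℓ : ℕ} {P : k[X][X]} [hG : IsGood ℓ (cOver k F L Ω P)] {ζ : k} {θ₀ : Ω}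

/-- `-1` is the `ℓ`-th power of an element of `L`. -/
lemma pt_neg_one (k F L Ω : Type) [Field k] [Field F] [Algebra k F] [Field L] [Algebra F[X] L]
    [Field Ω] [Algebra L Ω] [IsAlgClosure k F] {ℓ : ℕ} (hℓ : ℓ ≠ 0) : ∃ w : L, w ^ ℓ = -1 := by
  have hA : IsAlgClosed F := IsAlgClosure.isAlgClosed k
  obtain ⟨a, ha⟩ := IsAlgClosed.exists_pow_nat_eq (-1 : F) (Nat.pos_of_ne_zero hℓ)
  refine ⟨algebraMap F[X] L (C a), ?_⟩
  rw [← map_pow, ← map_pow, ha, map_neg, map_neg, map_one, map_one]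

/-- The divisor `D` is invariant under the Galois group of `L`. -/
def IsStable (D : Pt ℓ (cOver k F L Ω P) →₀ ℤ) : Prop :=
  ∀ σ : Ω ≃ₐ[L] Ω, D.mapDomain (Pt.sym (toSym P (galA k F σ))) = D

lemma pt_zpow_sum {E ι : Type} [Field E] {a : E} (ha : a ≠ 0) (s : Finset ι) (n : ι → ℤ) :
    ∏ i ∈ s, a ^ n i = a ^ ∑ i ∈ s, n i := by
  induction s using Finset.induction_on with
  | empty => simp
  | insert i s hi ih => rw [Finset.prod_insert hi, Finset.sum_insert hi, ih, zpow_add₀ ha]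

omit [IsAlgClosure k F] [IsFractionRing F[X] L] [IsAlgClosure L Ω] in
include hG in
lemma pt_prod_gal (σ : Ω ≃ₐ[L] Ω) (φ : Ω → Ω) :
    ∏ θ ∈ (cOver k F L Ω P).roots.toFinset, φ (σ θ) = ∏ θ ∈ (cOver k F L Ω P).roots.toFinset, φ θ :=
  Finset.prod_equiv σ.toEquiv (fun θ => by
    rw [rm14_mem hG, rm14_mem hG]
    exact (kum_eval_gal σ).symm) (fun _ _ => rfl)

/-- The Kummer formula for the invariant divisors without ramified points. -/
theorem isKum_cl (H : LHyp ℓ k F L P ζ) (hζ : (zA F L Ω ζ) ^ ℓ = 1)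
    (hsep : (curveL k F L P).Separable) (hmon : (curveL k F L P).Monic)
    (h0 : (cOver k F L Ω P).eval θ₀ = 0) (Q : Jac ℓ (cOver k F L Ω P)) (D : Pt ℓ (cOver k F L Ω P) →₀ ℤ)
    (hQ : Q - zJ (zA F L Ω ζ) hζ Q = cl D) (hD : IsStable D)
    (hat : ∀ θ, (cOver k F L Ω P).eval θ = 0 → atR D θ = 0) :
    IsKum ζ θ₀ (fun σ => symJ (toSym P (galA k F σ)) Q - Q) (uval D θ₀) := by
  have hζ' : IsPrimitiveRoot (zA F L Ω ζ) ℓ := zA_prim H
  have hζ0 : zA F L Ω ζ ≠ 0 := hζ'.ne_zero H.prime.ne_zero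
  have hNZ : NeZero ℓ := ⟨H.prime.ne_zero⟩
  obtain ⟨z, hz, hσ⟩ := kummer_formula (zA F L Ω ζ) hζ' Q D hQ
  have hzD : ∀ θ, (cOver k F L Ω P).eval θ = 0 → z θ ^ ℓ = uval D θ := by
    intro θ hθ
    rw [(hz θ hθ).2, hat θ hθ, zpow_zero, one_mul]
  refine ⟨z, fun θ hθ => (hz θ hθ).1, hzD θ₀ h0, fun σ => ?_⟩
  -- the exponents
  have hex : ∀ θ : Ω, ∃ m : ℤ, (cOver k F L Ω P).eval θ = 0 →
      σ (z (σ.symm θ)) = (zA F L Ω ζ) ^ m * z θ := by
    intro θ
    by_cases hθ : (cOver k F L Ω P).eval θ = 0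
    · have hθ' : (cOver k F L Ω P).eval (σ.symm θ) = 0 := by
        have h1 := kum_eval_gal (k := k) (F := F) (P := P) σ (θ := σ.symm θ)
        rw [σ.apply_symm_apply] at h1
        exact h1.1 hθ
      have h1 : (σ (z (σ.symm θ)) / z θ) ^ ℓ = 1 := by
        rw [div_pow, ← map_pow, hzD _ hθ', hzD θ hθ]
        have h2 := sym_uval (toSym P (galA k F σ)) D (hD σ) (σ.symm θ)
        have h3 : σ (uval D (σ.symm θ)) = uval D (σ (σ.symm θ)) := h2
        rw [h3, σ.apply_symm_apply, div_self (uval_ne_zero D)]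
      obtain ⟨i, -, hi⟩ := hζ'.eq_pow_of_pow_eq_one h1
      refine ⟨i, fun _ => ?_⟩
      rw [zpow_natCast, hi, div_mul_cancel₀ _ (hz θ hθ).1]
    · exact ⟨0, fun h => absurd h hθ⟩
  choose n hn using hex
  have hn' : ∀ θ, (cOver k F L Ω P).eval θ = 0 → σ (z θ) = (zA F L Ω ζ) ^ n (σ θ) * z (σ θ) := by
    intro θ hθ
    have h1 := hn (σ θ) ((kum_eval_gal (k := k) (F := F) (P := P) σ).2 hθ)
    rwa [σ.symm_apply_apply] at h1
  refine ⟨n, hn', ?_, ?_⟩
  · exact hσ (toSym P (galA k F σ)) (zA_fixed ζ (galA k F σ)) (hD σ) n hn'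
  · -- the normalisation
    obtain ⟨w, hw⟩ := pt_neg_one k F L Ω (ℓ := ℓ) H.prime.ne_zero
    have hmon' : (cOver k F L Ω P).Monic := hmon.map _
    have hsep' : (cOver k F L Ω P).Separable := hsep.map
    set y : Ω := ∏ θ ∈ (cOver k F L Ω P).roots.toFinset, z θ with hy
    set β : Ω := D.prod fun P' m => ((algebraMap L Ω w) ^ (cOver k F L Ω P).roots.toFinset.card * P'.y) ^ m
      with hβ
    have h1 : y ^ ℓ = β ^ ℓ := by
      rw [hy, ← Finset.prod_pow, hβ, ← pt_prod_uval hmon' hsep' D hat (w := algebraMap L Ω w) (by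
        rw [← map_pow, hw, map_neg, map_one])]
      exact Finset.prod_congr rfl fun θ hθ => hzD θ ((rm14_mem hG).1 hθ)
    have hy0 : y ≠ 0 := Finset.prod_ne_zero_iff.2 fun θ hθ => (hz θ ((rm14_mem hG).1 hθ)).1
    have hβσ : σ β = β := by
      refine pt_prod_sym (toSym P (galA k F σ)) D (hD σ) _ fun P' => ?_
      have h2 : (((toSym P (galA k F σ) : Sym (cOver k F L Ω P)) : Ω ≃+* Ω))
          ((algebraMap L Ω w) ^ (cOver k F L Ω P).roots.toFinset.card * P'.y) =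
          σ ((algebraMap L Ω w) ^ (cOver k F L Ω P).roots.toFinset.card * P'.y) := rfl
      rw [h2, map_mul, map_pow, σ.commutes]
      rfl
    have hβ0 : β ≠ 0 := by
      intro h
      rw [h, zero_pow H.prime.ne_zero] at h1
      exact hy0 ((pow_eq_zero_iff H.prime.ne_zero).1 h1)
    have hyσ : σ y = y := by
      have h2 : (y / β) ^ ℓ = 1 := by
        rw [div_pow, h1, div_self (pow_ne_zero _ hβ0)]
      obtain ⟨i, -, hi⟩ := hζ'.eq_pow_of_pow_eq_one h2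
      have h3 : y = (zA F L Ω ζ) ^ i * β := by
        rw [hi, div_mul_cancel₀ _ hβ0]
      rw [h3, map_mul, map_pow, kum_zA, hβσ]
    have h4 : σ y = (zA F L Ω ζ) ^ (∑ θ ∈ (cOver k F L Ω P).roots.toFinset, n θ) * y := by
      rw [hy, map_prod]
      have h5 : ∀ θ ∈ (cOver k F L Ω P).roots.toFinset,
          σ (z θ) = (zA F L Ω ζ) ^ n (σ θ) * z (σ θ) := fun θ hθ => hn' θ ((rm14_mem hG).1 hθ)
      rw [Finset.prod_congr rfl h5, Finset.prod_mul_distrib, pt_prod_gal (ℓ := ℓ) (P := P) σ z,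
        pt_prod_gal (ℓ := ℓ) (P := P) σ (fun θ => (zA F L Ω ζ) ^ n θ), pt_zpow_sum hζ0]
    rw [hyσ] at h4
    have h6 : (zA F L Ω ζ) ^ (∑ θ ∈ (cOver k F L Ω P).roots.toFinset, n θ) = 1 := by
      have h7 : 1 * y = (zA F L Ω ζ) ^ (∑ θ ∈ (cOver k F L Ω P).roots.toFinset, n θ) * y := by
        rw [one_mul]
        exact h4
      exact (mul_right_cancel₀ hy0 h7).symm
    exact (hζ'.zpow_eq_one_iff_dvd _).1 h6

/-- Each class fixed by the Galois group contains an invariant divisor without ramified points. -/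
theorem exists_stable_unram (H : LHyp ℓ k F L P ζ) (hirr : Irreducible (curveL k F L P))
    (hsep : (curveL k F L P).Separable) (h0 : (cOver k F L Ω P).eval θ₀ = 0)
    (R : Jac ℓ (cOver k F L Ω P)) (hR : ∀ σ : Ω ≃ₐ[L] Ω, symJ (toSym P (galA k F σ)) R = R) :
    ∃ D : Pt ℓ (cOver k F L Ω P) →₀ ℤ, cl D = R ∧ IsStable D ∧
      ∀ θ, (cOver k F L Ω P).eval θ = 0 → atR D θ = 0 := by
  have hp : Fact ℓ.Prime := ⟨H.prime⟩
  have hζ' : IsPrimitiveRoot (zA F L Ω ζ) ℓ := zA_prim H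
  obtain ⟨D, hD, hDσ⟩ := exists_stable (zA F L Ω ζ) hζ' (Set.range fun σ : Ω ≃ₐ[L] Ω => toSym P (galA k F σ)) R
    (by
      rintro _ ⟨σ, rfl⟩
      exact hR σ)
  have hst : IsStable D := fun σ => hDσ _ ⟨σ, rfl⟩
  have hconst : ∀ θ, (cOver k F L Ω P).eval θ = 0 → atR D θ = atR D θ₀ := by
    intro θ hθ
    obtain ⟨σ, rfl⟩ := kum_trans hirr h0 hθ
    exact sym_atR (toSym P (galA k F σ)) D (hst σ) θ₀
  set e : Ω → ℤ := fun θ => atR D θ₀ * wt (cOver k F L Ω P) θ with he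
  refine ⟨D - ramDiv e, ?_, fun σ => ?_, fun θ hθ => ?_⟩
  · have h1 : (ram e : Jac ℓ (cOver k F L Ω P)) = 0 :=
      (ram_eq_zero_iff (zA F L Ω ζ) hζ' _).2 ⟨atR D θ₀, fun θ _ => by simp [he]⟩
    rw [map_sub, hD]
    rw [ram] at h1
    rw [h1, sub_zero]
  · have h5 : ∀ A B : Pt ℓ (cOver k F L Ω P) →₀ ℤ, ∀ g : Pt ℓ (cOver k F L Ω P) → Pt ℓ (cOver k F L Ω P),
        (A - B).mapDomain g = A.mapDomain g - B.mapDomain g := fun A B g =>
      map_sub (Finsupp.mapDomain.addMonoidHom g) A B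
    rw [h5, hst σ, mapDomain_sym_ramDiv]
    congr 2
    funext θ
    rw [he]
    simp only [wt_sym]
  · rw [R21_atR_sub, atR_ramDiv e hθ, hconst θ hθ, he]
    simp only
    rw [kum_wt (ℓ := ℓ) hsep hθ, Nat.cast_one, mul_one, sub_self]

omit [IsAlgClosure k F] [IsFractionRing F[X] L] hG in
/-- The uniqueness of the element attached to a cochain. -/
theorem isKum_unique [hG : IsGood ℓ (cOver k F L Ω P)] [IsAlgClosure k F] [IsFractionRing F[X] L]
    (H : LHyp ℓ k F L P ζ) (hsep : (curveL k F L P).Separable)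
    (h0 : (cOver k F L Ω P).eval θ₀ = 0) {c : (Ω ≃ₐ[L] Ω) → JacOver ℓ (curveL k F L P) Ω} {u u' : Ω}
    (h : IsKum ζ θ₀ c u) (h' : IsKum ζ θ₀ c u') :
    ∃ q : ℕ, q.Coprime ℓ ∧ ∃ w ∈ IntermediateField.adjoin L {θ₀}, w ≠ 0 ∧ u ^ q = w ^ ℓ * u' ^ q := by
  have hζ' : IsPrimitiveRoot (zA F L Ω ζ) ℓ := zA_prim H
  have hζ0 : zA F L Ω ζ ≠ 0 := hζ'.ne_zero H.prime.ne_zero
  obtain ⟨z, hz, rfl, hn⟩ := h
  obtain ⟨z', hz', rfl, hn'⟩ := h'
  obtain ⟨q, hq, hx⟩ := kum_fixed (θ₀ := θ₀) H (x := z θ₀ / z' θ₀) (fun σ hσ => by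
    obtain ⟨n, h1, h2, h3⟩ := hn σ
    obtain ⟨n', h1', h2', h3'⟩ := hn' σ
    have h4 : (rm n : Jac ℓ (cOver k F L Ω P)) = rm n' := h2.symm.trans h2'
    have h5 := kum_unique H hsep h4 h3 h3' h0
    rw [map_div₀, h1 θ₀ h0, h1' θ₀ h0, hσ, (kum_zpow H.prime.ne_zero hζ' (n θ₀) (n' θ₀)).2 h5,
      mul_div_mul_left _ _ (zpow_ne_zero _ hζ0)])
  have hz0 := hz θ₀ h0
  have hz0' := hz' θ₀ h0
  refine ⟨q, hq, (z θ₀ / z' θ₀) ^ q, hx, pow_ne_zero _ (div_ne_zero hz0 hz0'), ?_⟩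
  rw [← pow_mul, ← pow_mul, ← pow_mul, mul_comm q ℓ, div_pow, div_mul_cancel₀ _ (pow_ne_zero _ hz0')]

end

end Pool.Agent.Lib.MP_89bcae_ag.Zq
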