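import Mathlib
import Pool.Agent.Lib.MP_89bcae_ag.Zq.PtA

/-!
# The elements attached to the Tate cocycles which are coboundaries in the Jacobian are in the group of the points
-/

attribute [local instance 100000] Pool.Agent.Lib.MP_89bcae_ag.Brt.tffFields
attribute [local instance 100000] Pool.Agent.Lib.MP_89bcae_ag.Wt.ifrNF Pool.Agent.Lib.MP_89bcae_ag.Wt.iddNF

open Polynomial IsDedekindDomain

open scoped Classical

namespace Pool.Agent.Lib.MP_89bcae_ag.Zq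

open Pool.Agent.Lib.MP_89bcae_ag.Wt Pool.Agent.Lib.MP_89bcae_ag.Wt.Lns Pool.Agent.Lib.MP_89bcae_ag.Zs

set_option linter.unusedSectionVars false

section

variable {L Ω : Type} [Field L] [Field Ω] [Algebra L Ω] {ℓ : ℕ} {f : L[X]} {θ₀ : Ω}

/-! ### The elements with a power of exponent prime to `ℓ` in the group of the points -/

/-- A power of `x`, with exponent prime to `ℓ`, is in the group of the points. -/
def QV (ℓ : ℕ) (f : L[X]) (θ₀ x : Ω) : Prop :=
  ∃ q : ℕ, q.Coprime ℓ ∧ ∃ v ∈ ptGroup ℓ f θ₀, (v : Ω) = x ^ q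

lemma QV.one : QV ℓ f θ₀ 1 :=
  ⟨1, Nat.coprime_one_left ℓ, 1, one_mem _, by simp⟩

lemma QV.mul {x y : Ω} (hx : QV ℓ f θ₀ x) (hy : QV ℓ f θ₀ y) : QV ℓ f θ₀ (x * y) := by
  obtain ⟨q, hq, v, hv, hvx⟩ := hx
  obtain ⟨r, hr, v', hv', hvy⟩ := hy
  refine ⟨q * r, Nat.Coprime.mul_left hq hr, v ^ r * v' ^ q, mul_mem (pow_mem hv r) (pow_mem hv' q), ?_⟩
  rw [Units.val_mul, Units.val_pow_eq_pow_val, Units.val_pow_eq_pow_val, hvx, hvy, mul_pow, ← pow_mul,
    ← pow_mul, mul_comm r q]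

lemma QV.inv {x : Ω} (hx : QV ℓ f θ₀ x) : QV ℓ f θ₀ x⁻¹ := by
  obtain ⟨q, hq, v, hv, hvx⟩ := hx
  exact ⟨q, hq, v⁻¹, inv_mem hv, by rw [Units.val_inv_eq_inv_val, hvx, inv_pow]⟩

lemma QV.pow {x : Ω} (hx : QV ℓ f θ₀ x) (n : ℕ) : QV ℓ f θ₀ (x ^ n) := by
  induction n with
  | zero => rw [pow_zero]; exact QV.one
  | succ n ih => rw [pow_succ]; exact ih.mul hx

lemma QV.zpow {x : Ω} (hx : QV ℓ f θ₀ x) (n : ℤ) : QV ℓ f θ₀ (x ^ n) := by
  cases n with
  | ofNat n => rw [Int.ofNat_eq_natCast, zpow_natCast]; exact hx.pow n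
  | negSucc n => rw [zpow_negSucc]; exact (hx.pow _).inv

lemma QV.of_pow {x : Ω} {q : ℕ} (hq : q.Coprime ℓ) (hx : QV ℓ f θ₀ (x ^ q)) : QV ℓ f θ₀ x := by
  obtain ⟨r, hr, v, hv, hvx⟩ := hx
  exact ⟨q * r, Nat.Coprime.mul_left hq hr, v, hv, by rw [hvx, pow_mul]⟩

lemma mem_ptGroup_pow {w : Ω} (hw : w ∈ IntermediateField.adjoin L {θ₀}) (hw0 : w ≠ 0) :
    Units.mk0 (w ^ ℓ) (pow_ne_zero _ hw0) ∈ ptGroup ℓ f θ₀ :=
  Subgroup.subset_closure (Or.inl ⟨w, hw, rfl⟩)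

lemma QV.powl {w : Ω} (hw : w ∈ IntermediateField.adjoin L {θ₀}) (hw0 : w ≠ 0) : QV ℓ f θ₀ (w ^ ℓ) :=
  ⟨1, Nat.coprime_one_left ℓ, _, mem_ptGroup_pow hw hw0, by rw [pow_one]; rfl⟩

lemma QV.aeval {h b : L[X]} (hm : h.Monic) (hd : h ∣ b ^ ℓ - f) (h0 : aeval θ₀ h ≠ 0) :
    QV ℓ f θ₀ (aeval θ₀ h) :=
  ⟨1, Nat.coprime_one_left ℓ, Units.mk0 _ h0, Subgroup.subset_closure (Or.inr ⟨h, b, hm, hd, rfl⟩),
    by rw [pow_one]; rfl⟩

/-- An element of `L(θ₀)` with a power, of exponent prime to `ℓ`, in the group of the points is in this group. -/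
lemma QV.mem {x : Ω} (hx : QV ℓ f θ₀ x) (hxL : x ∈ IntermediateField.adjoin L {θ₀}) (hx0 : x ≠ 0) :
    Units.mk0 x hx0 ∈ ptGroup ℓ f θ₀ := by
  obtain ⟨q, hq, v, hv, hvx⟩ := hx
  have h1 : v = (Units.mk0 x hx0) ^ q := Units.ext (by rw [hvx, Units.val_pow_eq_pow_val]; rfl)
  have h2 : (Units.mk0 x hx0) ^ ℓ ∈ ptGroup ℓ f θ₀ := by
    have h3 : (Units.mk0 x hx0) ^ ℓ = Units.mk0 (x ^ ℓ) (pow_ne_zero _ hx0) :=
      Units.ext (by rw [Units.val_pow_eq_pow_val]; rfl)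
    rw [h3]
    exact mem_ptGroup_pow hxL hx0
  obtain ⟨a, b, hab⟩ := Nat.isCoprime_iff_coprime.2 hq
  have h4 : Units.mk0 x hx0 = (v ^ a) * (((Units.mk0 x hx0) ^ ℓ) ^ b) := by
    rw [h1, ← zpow_natCast, ← zpow_natCast, ← zpow_mul, ← zpow_mul, ← zpow_add,
      show (q : ℤ) * a + (ℓ : ℤ) * b = a * q + b * ℓ by ring, hab, zpow_one]
  rw [h4]
  exact mul_mem (Subgroup.zpow_mem _ hv a) (Subgroup.zpow_mem _ h2 b)

/-! ### The minimal polynomial -/

/-- The value of the minimal polynomial is a power of the product over the conjugates. -/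
lemma pt_minpoly [IsAlgClosure L Ω] (hℓ : (ringExpChar L).Coprime ℓ) (x₀ : Ω) (Y : Finset Ω)
    (hY : ∀ x, x ∈ Y ↔ ∃ σ : Ω ≃ₐ[L] Ω, x = σ x₀) (θ : Ω) :
    ∃ q : ℕ, q.Coprime ℓ ∧ Polynomial.aeval θ (minpoly L x₀) = (∏ x ∈ Y, (θ - x)) ^ q := by
  have hA : IsAlgClosed Ω := IsAlgClosure.isAlgClosed L
  have hB : Algebra.IsAlgebraic L Ω := IsAlgClosure.isAlgebraic
  have hN : Normal L Ω := IsAlgClosure.normal L Ω
  have hint : IsIntegral L x₀ := (Algebra.IsAlgebraic.isAlgebraic x₀).isIntegral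
  have hE : ExpChar L (ringExpChar L) := inferInstance
  have hE' : ExpChar Ω (ringExpChar L) := expChar_of_injective_algebraMap (algebraMap L Ω).injective _
  obtain ⟨g, hg, n, hgm⟩ := (minpoly.irreducible hint).hasSeparableContraction (ringExpChar L)
  refine ⟨ringExpChar L ^ n, hℓ.pow_left n, ?_⟩
  have hmon : ((minpoly L x₀).map (algebraMap L Ω)).Monic := (minpoly.monic hint).map _
  have hroot : ∀ x : Ω, x ∈ ((minpoly L x₀).map (algebraMap L Ω)).roots.toFinset ↔ x ∈ Y := by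
    intro x
    rw [hY, Multiset.mem_toFinset]
    constructor
    · intro h
      have h1 : IsConjRoot L x₀ x := (isConjRoot_iff_mem_minpoly_aroots hint).2 h
      obtain ⟨σ, hσ⟩ := isConjRoot_iff_exists_algEquiv.1 h1.symm
      exact ⟨σ, hσ.symm⟩
    · rintro ⟨σ, rfl⟩
      exact (isConjRoot_iff_mem_minpoly_aroots hint).1 (isConjRoot_iff_exists_algEquiv.2 ⟨σ, rfl⟩).symm
  have hcount : ∀ x ∈ ((minpoly L x₀).map (algebraMap L Ω)).roots.toFinset,
      ((minpoly L x₀).map (algebraMap L Ω)).roots.count x = ringExpChar L ^ n := by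
    intro x hx
    have h1 : (minpoly L x₀).map (algebraMap L Ω) = expand Ω (ringExpChar L ^ n) (g.map (algebraMap L Ω)) := by
      rw [← hgm, Polynomial.map_expand]
    have hs : (g.map (algebraMap L Ω)).Separable := hg.map
    have h2 : 0 < ((minpoly L x₀).map (algebraMap L Ω)).roots.count x :=
      Multiset.count_pos.2 (Multiset.mem_toFinset.1 hx)
    have h4 : ((minpoly L x₀).map (algebraMap L Ω)).roots.count x =
        ringExpChar L ^ n * (g.map (algebraMap L Ω)).rootMultiplicity (x ^ ringExpChar L ^ n) := by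
      rw [count_roots, h1, rootMultiplicity_expand_pow]
    have h5 := rootMultiplicity_le_one_of_separable hs (x ^ ringExpChar L ^ n)
    have h6 : 0 < (g.map (algebraMap L Ω)).rootMultiplicity (x ^ ringExpChar L ^ n) := by
      rw [h4] at h2
      exact Nat.pos_of_mul_pos_left h2
    have h7 : (g.map (algebraMap L Ω)).rootMultiplicity (x ^ ringExpChar L ^ n) = 1 := by omega
    rw [h4, h7, mul_one]
  have h3 : Polynomial.aeval θ (minpoly L x₀) = ((minpoly L x₀).map (algebraMap L Ω)).eval θ :=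
    (eval_map_algebraMap _ _).symm
  rw [h3, (IsAlgClosed.splits _).eval_eq_prod_roots_of_monic hmon, Finset.prod_multiset_map_count,
    ← Finset.prod_pow]
  have hYe : ((minpoly L x₀).map (algebraMap L Ω)).roots.toFinset = Y := Finset.ext hroot
  refine Finset.prod_congr hYe fun x hx => ?_
  rw [hcount x (by rw [hYe]; exact hx)]

end

section

variable {k F L Ω : Type} [Field k] [Field F] [Algebra k F] [Field L] [Algebra F[X] L]
  [Field Ω] [Algebra L Ω] [IsAlgClosure k F] [IsFractionRing F[X] L] [IsAlgClosure L Ω]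
  {ℓ : ℕ} {P : k[X][X]} [hG : IsGood ℓ (cOver k F L Ω P)] {ζ : k} {θ₀ : Ω}

omit [IsAlgClosure k F] [IsFractionRing F[X] L] [IsAlgClosure L Ω] hG in
lemma pt_ringExpChar (H : LHyp ℓ k F L P ζ) : (ringExpChar L).Coprime ℓ := by
  have hLne : (ℓ : L) ≠ 0 := by
    intro h2
    apply H.ne
    have h3 : ((algebraMap F[X] L).comp (C.comp (algebraMap k F))) (ℓ : k) = 0 := by
      rw [map_natCast, h2]
    exact (map_eq_zero _).1 h3
  exact Sup.G13_coprime H.prime hLne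

/-- The product over the orbit of a point. -/
lemma pt_orbit (H : LHyp ℓ k F L P ζ) (h0 : (cOver k F L Ω P).eval θ₀ = 0)
    (O : Finset (Pt ℓ (cOver k F L Ω P))) (P₀ : Pt ℓ (cOver k F L Ω P))
    (hO : ∀ Q, Q ∈ O ↔ ∃ σ : Ω ≃ₐ[L] Ω, Q = P₀.sym (toSym P (galA k F σ)))
    (hx₀ : (cOver k F L Ω P).eval P₀.x ≠ 0) :
    QV ℓ (curveL k F L P) θ₀ (∏ Q ∈ O, (θ₀ - Q.x)) := by
  have hA : IsAlgClosed Ω := IsAlgClosure.isAlgClosed L
  have hB : Algebra.IsAlgebraic L Ω := IsAlgClosure.isAlgebraic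
  have hN : Normal L Ω := IsAlgClosure.normal L Ω
  have hζ' : IsPrimitiveRoot (zA F L Ω ζ) ℓ := zA_prim H
  have hint : IsIntegral L P₀.x := (Algebra.IsAlgebraic.isAlgebraic P₀.x).isIntegral
  have hp : Fact ℓ.Prime := ⟨H.prime⟩
  have hNZ : NeZero ℓ := ⟨H.prime.ne_zero⟩
  have hy₀ : P₀.y ≠ 0 := by
    intro h
    apply hx₀
    rw [← P₀.eq, h, zero_pow H.prime.ne_zero]
  have hsx : ∀ (σ : Ω ≃ₐ[L] Ω) (Q : Pt ℓ (cOver k F L Ω P)), (Q.sym (toSym P (galA k F σ))).x = σ Q.x :=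
    fun _ _ => rfl
  have hsy : ∀ (σ : Ω ≃ₐ[L] Ω) (Q : Pt ℓ (cOver k F L Ω P)), (Q.sym (toSym P (galA k F σ))).y = σ Q.y :=
    fun _ _ => rfl
  set Y : Finset Ω := O.image Pt.x with hYdef
  have hY : ∀ x, x ∈ Y ↔ ∃ σ : Ω ≃ₐ[L] Ω, x = σ P₀.x := by
    intro x
    rw [hYdef, Finset.mem_image]
    constructor
    · rintro ⟨Q, hQ, rfl⟩
      obtain ⟨σ, rfl⟩ := (hO Q).1 hQ
      exact ⟨σ, rfl⟩
    · rintro ⟨σ, rfl⟩
      exact ⟨_, (hO _).2 ⟨σ, rfl⟩, rfl⟩
  obtain ⟨q, hq, hprod⟩ := pt_minpoly (pt_ringExpChar H) P₀.x Y hY θ₀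
  have hne : aeval θ₀ (minpoly L P₀.x) ≠ 0 := by
    rw [hprod]
    refine pow_ne_zero _ (Finset.prod_ne_zero_iff.2 fun x hx => ?_)
    obtain ⟨σ, rfl⟩ := (hY x).1 hx
    rw [sub_ne_zero]
    rintro h
    apply hx₀
    rw [h] at h0
    exact (kum_eval_gal (k := k) (F := F) (P := P) σ).1 h0
  by_cases hfix : ∀ σ : Ω ≃ₐ[L] Ω, σ P₀.x = P₀.x → σ P₀.y = P₀.y
  · -- the projection of the orbit is injective
    have hinj : ∀ Q ∈ O, ∀ Q' ∈ O, Q.x = Q'.x → Q = Q' := by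
      intro Q hQ Q' hQ' h
      obtain ⟨σ, rfl⟩ := (hO Q).1 hQ
      obtain ⟨τ, rfl⟩ := (hO Q').1 hQ'
      have h1 : σ P₀.x = τ P₀.x := h
      have h2 : (τ⁻¹ * σ) P₀.x = P₀.x := by
        show τ.symm (σ P₀.x) = P₀.x
        rw [h1, τ.symm_apply_apply]
      have h3 : τ.symm (σ P₀.y) = P₀.y := hfix _ h2
      refine Pt.ext h1 ?_
      show σ P₀.y = τ P₀.y
      rw [← h3, τ.apply_symm_apply, h3]
    have h1 : ∏ Q ∈ O, (θ₀ - Q.x) = ∏ x ∈ Y, (θ₀ - x) := by
      rw [hYdef, Finset.prod_image hinj]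
    obtain ⟨r, hr, hyr⟩ := kum_fixed (k := k) (F := F) (P := P) (θ₀ := P₀.x) H (x := P₀.y) hfix
    have hyL : P₀.y ∈ IntermediateField.adjoin L {P₀.x} := by
      refine kum_mem _ hy₀ hr ?_ hyr
      rw [P₀.eq]
      have h2 : (cOver k F L Ω P).eval P₀.x = aeval P₀.x (curveL k F L P) := eval_map_algebraMap _ _
      rw [h2]
      have h3 : (IntermediateField.adjoin L {P₀.x}).val ⟨P₀.x, IntermediateField.mem_adjoin_simple_self L P₀.x⟩ = P₀.x := rfl
      rw [← h3, aeval_algHom_apply]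
      exact Subtype.property _
    obtain ⟨b, hb⟩ : ∃ b : L[X], P₀.y = aeval P₀.x b := by
      have h2 : P₀.y ∈ (IntermediateField.adjoin L {P₀.x}).toSubalgebra := hyL
      rw [IntermediateField.adjoin_simple_toSubalgebra_of_isAlgebraic hint.isAlgebraic,
        Algebra.adjoin_singleton_eq_range_aeval] at h2
      obtain ⟨A, hA⟩ := h2
      exact ⟨A, hA.symm⟩
    have hdvd : minpoly L P₀.x ∣ b ^ ℓ - curveL k F L P := by
      apply minpoly.dvd
      rw [map_sub, map_pow, ← hb, P₀.eq, sub_eq_zero]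
      exact eval_map_algebraMap _ _
    refine QV.of_pow hq ?_
    rw [h1, ← hprod]
    exact QV.aeval (minpoly.monic hint) hdvd hne
  · -- the orbit is a union of full fibres
    push Not at hfix
    obtain ⟨σ₀, hσx, hσy⟩ := hfix
    set ω : Ω := σ₀ P₀.y / P₀.y with hω
    have hω1 : ω ^ ℓ = 1 := by
      rw [hω, div_pow, ← map_pow, P₀.eq]
      have h2 : (cOver k F L Ω P).eval P₀.x = aeval P₀.x (curveL k F L P) := eval_map_algebraMap _ _
      have h3 : σ₀ ((cOver k F L Ω P).eval P₀.x) = (cOver k F L Ω P).eval P₀.x := by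
        rw [h2]
        have h4 := aeval_algHom_apply (σ₀ : Ω →ₐ[L] Ω) P₀.x (curveL k F L P)
        have h5 : (σ₀ : Ω →ₐ[L] Ω) P₀.x = P₀.x := hσx
        rw [h5] at h4
        exact h4.symm
      rw [h3, div_self hx₀]
    have hω2 : ω ≠ 1 := by
      rw [hω, Ne, div_eq_one_iff_eq hy₀]
      exact hσy
    have hωp : IsPrimitiveRoot ω ℓ := by
      have h2 : orderOf ω = ℓ := orderOf_eq_prime hω1 hω2
      rw [← h2]
      exact IsPrimitiveRoot.orderOf ω
    obtain ⟨j, -, hj⟩ := hζ'.eq_pow_of_pow_eq_one hω1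
    have hωσ : ∀ σ : Ω ≃ₐ[L] Ω, σ ω = ω := by
      intro σ
      rw [← hj, map_pow, kum_zA]
    have hpow : ∀ i : ℕ, (σ₀ ^ i) P₀.x = P₀.x ∧ (σ₀ ^ i) P₀.y = ω ^ i * P₀.y := by
      intro i
      induction i with
      | zero => exact ⟨rfl, by rw [pow_zero, pow_zero, one_mul]; rfl⟩
      | succ i ih =>
        constructor
        · rw [pow_succ']
          show σ₀ ((σ₀ ^ i) P₀.x) = P₀.x
          rw [ih.1, hσx]
        · rw [pow_succ']
          show σ₀ ((σ₀ ^ i) P₀.y) = ω ^ (i + 1) * P₀.y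
          rw [ih.2, map_mul, map_pow, hωσ, pow_succ, mul_assoc, hω, div_mul_cancel₀ _ hy₀]
    -- the fibres
    have hfib : ∀ x ∈ Y, (O.filter fun Q => Q.x = x).card = ℓ := by
      intro x hx
      obtain ⟨τ, rfl⟩ := (hY x).1 hx
      set R : ℕ → Pt ℓ (cOver k F L Ω P) := fun i => P₀.sym (toSym P (galA k F (τ * σ₀ ^ i))) with hR
      have hRx : ∀ i, (R i).x = τ P₀.x := by
        intro i
        show τ ((σ₀ ^ i) P₀.x) = τ P₀.x
        rw [(hpow i).1]
      have hRy : ∀ i, (R i).y = ω ^ i * τ P₀.y := by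
        intro i
        show τ ((σ₀ ^ i) P₀.y) = ω ^ i * τ P₀.y
        rw [(hpow i).2, map_mul, map_pow, hωσ]
      have hτy : τ P₀.y ≠ 0 := (map_ne_zero_iff τ τ.injective).2 hy₀
      have h1 : (O.filter fun Q => Q.x = τ P₀.x) = (Finset.range ℓ).image R := by
        ext Q
        rw [Finset.mem_filter, Finset.mem_image]
        constructor
        · rintro ⟨-, hQx⟩
          have h2 : (Q.y / τ P₀.y) ^ ℓ = 1 := by
            have h3 : (τ P₀.y) ^ ℓ = (cOver k F L Ω P).eval (τ P₀.x) :=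
              (P₀.sym (toSym P (galA k F τ))).eq
            rw [div_pow, Q.eq, h3, hQx, div_self]
            rw [← h3]
            exact pow_ne_zero _ hτy
          obtain ⟨i, hi, hi2⟩ := hωp.eq_pow_of_pow_eq_one h2
          refine ⟨i, Finset.mem_range.2 hi, ?_⟩
          refine Pt.ext ?_ ?_
          · rw [hRx, hQx]
          · rw [hRy, hi2, div_mul_cancel₀ _ hτy]
        · rintro ⟨i, -, rfl⟩
          exact ⟨(hO _).2 ⟨_, rfl⟩, hRx i⟩
      rw [h1, Finset.card_image_of_injOn, Finset.card_range]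
      intro i hi i' hi' h
      have h2 : ω ^ i = ω ^ i' := by
        have h3 := congrArg Pt.y h
        rw [hRy, hRy] at h3
        exact mul_right_cancel₀ hτy h3
      exact hωp.pow_inj (Finset.mem_range.1 (Finset.mem_coe.1 hi)) (Finset.mem_range.1 (Finset.mem_coe.1 hi')) h2
    have h1 : ∏ Q ∈ O, (θ₀ - Q.x) = (∏ x ∈ Y, (θ₀ - x)) ^ ℓ := by
      have h2 := Finset.prod_comp (s := O) (fun x : Ω => θ₀ - x) Pt.x
      rw [h2, ← Finset.prod_pow]
      refine Finset.prod_congr rfl fun x hx => ?_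
      rw [hfib x hx]
    refine QV.of_pow hq ?_
    rw [h1, ← pow_mul, mul_comm, pow_mul, ← hprod]
    refine QV.powl ?_ hne
    have h3 : (IntermediateField.adjoin L {θ₀}).val ⟨θ₀, IntermediateField.mem_adjoin_simple_self L θ₀⟩ = θ₀ := rfl
    rw [← h3, aeval_algHom_apply]
    exact Subtype.property _

lemma uval_add (D D' : Pt ℓ (cOver k F L Ω P) →₀ ℤ) (θ : Ω) : uval (D + D') θ = uval D θ * uval D' θ := by
  unfold uval
  refine Finsupp.prod_add_index' (fun _ => zpow_zero _) fun Q a b => zpow_add₀ ?_ a b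
  split_ifs with h
  · exact inv_ne_zero (pow_ne_zero _ (cof_ne_zero (f_ne_zero ℓ (cOver k F L Ω P)) θ))
  · exact sub_ne_zero.mpr (Ne.symm h)

lemma sym_mul_apply (σ τ : Ω ≃ₐ[L] Ω) (Q : Pt ℓ (cOver k F L Ω P)) :
    Q.sym (toSym P (galA k F (σ * τ))) = (Q.sym (toSym P (galA k F τ))).sym (toSym P (galA k F σ)) := rfl

lemma sym_one_apply (Q : Pt ℓ (cOver k F L Ω P)) : Q.sym (toSym P (galA k F (1 : Ω ≃ₐ[L] Ω))) = Q := rfl

lemma sym_inv_apply (σ : Ω ≃ₐ[L] Ω) (Q : Pt ℓ (cOver k F L Ω P)) :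
    (Q.sym (toSym P (galA k F σ⁻¹))).sym (toSym P (galA k F σ)) = Q := by
  rw [← sym_mul_apply, mul_inv_cancel, sym_one_apply]

lemma IsStable.apply {D : Pt ℓ (cOver k F L Ω P) →₀ ℤ} (hD : IsStable D) (σ : Ω ≃ₐ[L] Ω)
    (Q : Pt ℓ (cOver k F L Ω P)) : D (Q.sym (toSym P (galA k F σ))) = D Q := by
  conv_lhs => rw [← hD σ]
  exact Finsupp.mapDomain_apply (U01_sym_inj _) _ _

lemma IsStable.of_apply {D : Pt ℓ (cOver k F L Ω P) →₀ ℤ}
    (h : ∀ (σ : Ω ≃ₐ[L] Ω) (Q : Pt ℓ (cOver k F L Ω P)), D (Q.sym (toSym P (galA k F σ))) = D Q) :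
    IsStable D := by
  intro σ
  ext Q
  rw [← sym_inv_apply σ Q, Finsupp.mapDomain_apply (U01_sym_inj _), h σ]

/-- The values of `uval`. -/
theorem qv_uval (H : LHyp ℓ k F L P ζ) (h0 : (cOver k F L Ω P).eval θ₀ = 0)
    (D : Pt ℓ (cOver k F L Ω P) →₀ ℤ) (hD : IsStable D)
    (hat : ∀ θ, (cOver k F L Ω P).eval θ = 0 → atR D θ = 0) :
    QV ℓ (curveL k F L P) θ₀ (uval D θ₀) := by
  induction hn : D.support.card using Nat.strong_induction_on generalizing D with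
  | _ n ih =>
    by_cases hD0 : D = 0
    · rw [hD0]
      unfold uval
      rw [Finsupp.prod_zero_index]
      exact QV.one
    · obtain ⟨P₀, hP₀⟩ := Finsupp.support_nonempty_iff.2 hD0
      have hD₀ : D P₀ ≠ 0 := Finsupp.mem_support_iff.1 hP₀
      set p : Pt ℓ (cOver k F L Ω P) → Prop := fun Q => ∃ σ : Ω ≃ₐ[L] Ω, Q = P₀.sym (toSym P (galA k F σ)) with hp
      have hpσ : ∀ (σ : Ω ≃ₐ[L] Ω) (Q : Pt ℓ (cOver k F L Ω P)), p (Q.sym (toSym P (galA k F σ))) ↔ p Q := by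
        intro σ Q
        constructor
        · rintro ⟨τ, hτ⟩
          refine ⟨σ⁻¹ * τ, ?_⟩
          rw [sym_mul_apply, ← hτ, ← sym_mul_apply, inv_mul_cancel, sym_one_apply]
        · rintro ⟨τ, rfl⟩
          exact ⟨σ * τ, (sym_mul_apply σ τ P₀).symm⟩
      have hsplit : D.filter p + D.filter (fun Q => ¬ p Q) = D := Finsupp.filter_add_filter_not D p
      have hat' : ∀ (r : Pt ℓ (cOver k F L Ω P) → Prop) (hr : DecidablePred r) (θ : Ω),
          (cOver k F L Ω P).eval θ = 0 → atR (D.filter r) θ = 0 := by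
        intro r hr' θ hθ
        have h1 := hat θ hθ
        unfold atR at h1 ⊢
        rw [dif_pos hθ] at h1 ⊢
        by_cases hr : r ⟨θ, 0, by rw [zero_pow hG.ne, hθ]⟩
        · rw [Finsupp.filter_apply_pos r D hr, h1]
        · rw [Finsupp.filter_apply_neg r D hr]
      have hst : IsStable (D.filter fun Q => ¬ p Q) := by
        refine IsStable.of_apply fun σ Q => ?_
        by_cases hQ : p Q
        · rw [Finsupp.filter_apply_neg _ D (not_not.2 ((hpσ σ Q).2 hQ)),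
            Finsupp.filter_apply_neg _ D (not_not.2 hQ)]
        · rw [Finsupp.filter_apply_pos _ D (mt (hpσ σ Q).1 hQ), Finsupp.filter_apply_pos _ D hQ, hD.apply]
      have hlt : (D.filter fun Q => ¬ p Q).support.card < n := by
        rw [← hn]
        apply Finset.card_lt_card
        rw [Finset.ssubset_iff_of_subset (by
          intro Q hQ
          rw [Finsupp.support_filter, Finset.mem_filter] at hQ
          exact hQ.1)]
        refine ⟨P₀, hP₀, ?_⟩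
        rw [Finsupp.support_filter, Finset.mem_filter]
        rintro ⟨-, h⟩
        exact h ⟨1, rfl⟩
      have h2 := ih _ hlt (D.filter fun Q => ¬ p Q) hst (hat' _ _) rfl
      rw [← hsplit, uval_add]
      refine QV.mul ?_ h2
      rw [pt_uval _ (hat' p _) h0]
      have hval : ∀ Q ∈ (D.filter p).support, (D.filter p) Q = D P₀ := by
        intro Q hQ
        rw [Finsupp.support_filter, Finset.mem_filter] at hQ
        rw [Finsupp.filter_apply_pos p D hQ.2]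
        obtain ⟨σ, hσ⟩ := hQ.2
        rw [hσ, hD.apply]
      have h3 : ((D.filter p).prod fun Q n => (θ₀ - Q.x) ^ n) = (∏ Q ∈ (D.filter p).support, (θ₀ - Q.x)) ^ D P₀ := by
        rw [← Finset.prod_zpow]
        unfold Finsupp.prod
        exact Finset.prod_congr rfl fun Q hQ => by rw [hval Q hQ]
      rw [h3]
      refine QV.zpow (pt_orbit H h0 _ P₀ (fun Q => ?_) (pt_unram D hat hP₀)) _
      rw [Finsupp.support_filter, Finset.mem_filter]
      constructor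
      · exact fun h => h.2
      · rintro ⟨σ, rfl⟩
        refine ⟨?_, ⟨σ, rfl⟩⟩
        rw [Finsupp.mem_support_iff, hD.apply]
        exact hD₀

/-- The element attached to a Tate cocycle which is a coboundary in the Jacobian is in the group of the points. -/
theorem mem_ptGroup (H : LHyp ℓ k F L P ζ) (hζ : (zA F L Ω ζ) ^ ℓ = 1) (hirr : Irreducible (curveL k F L P))
    (hsep : (curveL k F L P).Separable) (hmon : (curveL k F L P).Monic)
    (h0 : (cOver k F L Ω P).eval θ₀ = 0) {c : Coch ℓ k F L Ω P} (hc : TrJ c) {u : Ω}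
    (hu : u ∈ IntermediateField.adjoin L {θ₀}) (hu0 : u ≠ 0)
    (hk : IsKum ζ θ₀ (fun σ => vJ (zA F L Ω ζ) hζ (c 1 σ)) u) :
    Units.mk0 u hu0 ∈ ptGroup ℓ (curveL k F L P) θ₀ := by
  have hζ' : IsPrimitiveRoot (zA F L Ω ζ) ℓ := zA_prim H
  obtain ⟨A, hA⟩ := hc.2 1
  have hR : ∀ σ : Ω ≃ₐ[L] Ω, symJ (toSym P (galA k F σ)) (ℓ • A) = ℓ • A := by
    intro σ
    have h1 := hc.1.smul 0 σ
    rw [hc.1.zero, zero_add, hA σ, smul_sub, sub_eq_zero, push_eq] at h1
    rw [map_nsmul, h1]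
  obtain ⟨D, hD, hDs, hDa⟩ := exists_stable_unram H hirr hsep h0 (ℓ • A) hR
  have h1 : vJ (zA F L Ω ζ) hζ A - zJ (zA F L Ω ζ) hζ (vJ (zA F L Ω ζ) hζ A) = cl D := by
    rw [hD]
    exact vJ_sub_zJ (zA F L Ω ζ) hζ' A
  have h2 := isKum_cl H hζ hsep hmon h0 _ D h1 hDs hDa
  have h3 : IsKum ζ θ₀ (fun σ => vJ (zA F L Ω ζ) hζ (c 1 σ)) (uval D θ₀) := by
    refine Eq.mp (congrArg (fun a => IsKum ζ θ₀ a _) ?_) h2
    funext σ
    rw [hA σ, vJ_sub, push_eq, vJ_symJ _ _ _ (zA_fixed ζ (galA k F σ))]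
  obtain ⟨q, hq, w, hw, hw0, hqw⟩ := isKum_unique H hsep h0 hk h3
  refine QV.mem (QV.of_pow hq ?_) hu hu0
  rw [hqw]
  exact (QV.powl hw hw0).mul ((qv_uval H h0 D hDs hDa).pow q)

end

end Pool.Agent.Lib.MP_89bcae_ag.Zq
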