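import Mathlib
import Pool.Agent.Lib.MP_89bcae_ag.Zq.MainJ
import Pool.Agent.Lib.MP_89bcae_ag.Zq.PtB
import Pool.Agent.Lib.MP_89bcae_ag.Zq.Br

/-!
# The final theorems
-/

attribute [local instance 100000] Pool.Agent.Lib.MP_89bcae_ag.Brt.tffFields
attribute [local instance 100000] Pool.Agent.Lib.MP_89bcae_ag.Wt.ifrNF Pool.Agent.Lib.MP_89bcae_ag.Wt.iddNF

open Polynomial IsDedekindDomain

open scoped Classical

namespace Pool.Agent.Lib.MP_89bcae_ag.Zq

open Pool.Agent.Lib.MP_89bcae_ag.Wt Pool.Agent.Lib.MP_89bcae_ag.Wt.Lns Pool.Agent.Lib.MP_89bcae_ag.Bra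
  Pool.Agent.Lib.MP_89bcae_ag.Brt Pool.Agent.Lib.MP_89bcae_ag.Zc

open Pool.Agent.Lib.MP_89bcae_ag.Zp (IsBranchCurve unramified IsRegular UB ltprop_ub l5_regular lhyp_of good_of norm_pow)

open Pool.Agent.Lib.MP_89bcae_ag.Zs hiding IsBranchCurve IsCritical IsSymplectic IsOrthogonal IsSmoothAt unramified
  critical_contra l3_val l4_chart lf_z isBranchCurve_red isCritical_red

section

variable {k F L Ω : Type} [Field k] [Field F] [Algebra k F] [IsAlgClosure k F] [Field L] [Algebra F[X] L]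
  [IsFractionRing F[X] L] [Field Ω] [Algebra L Ω] [IsAlgClosure L Ω] {ℓ e : ℕ} {f : k[X][X]} {ζ : k}

/-- The elements attached to the unramified cocycles are in the group `unramified`. -/
theorem contains_unramified (hℓ : ℓ.Prime) (hk : (ℓ : k) ≠ 0) (hζ : IsPrimitiveRoot ζ ℓ) (hB : IsBranchCurve ℓ e F f)
    {E : Type} [Field E] [Algebra F E] {t x : E}
    [hG : IsGood ℓ (cOver k F L Ω f)] :
    Contains (L := L) (Ω := Ω) ζ (UB F ℓ (curveL k F L f)) t x (unramified ℓ e F f t x) := by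
  intro lam ι h1 h2 h3 hroot hfin hadj hz c hc hLT u hu
  have H : LHyp ℓ k F L f ζ := lhyp_of hℓ hk hζ hB
  obtain ⟨hsep, hG₀⟩ := good_of (Ω := Ω) (L := L) hℓ hk hB
  have hz' : IsPrimitiveRoot (zA F L Ω ζ) ℓ := zA_prim H
  have hirr : Irreducible (curveL k F L f) := by
    have h1 : (Zs.ext F f).Monic := hB.monic.map _
    have h2 := (h1.irreducible_iff_irreducible_map_fraction_map (K := L)).1 hB.irreducible
    rwa [← map_base_eq] at h2
  let _ : Algebra L E := lam.toAlgebra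
  let _ : Algebra E Ω := ι.toAlgebra
  have htow : IsScalarTower L E Ω := IsScalarTower.of_algebraMap_eq fun z => (h1 z).symm
  have hfin' : FiniteDimensional L E := hfin
  have hzF : IsPrimitiveRoot (algebraMap k F ζ) ℓ := hζ.map_of_injective (algebraMap k F).injective
  have hzeq : zA F L Ω ζ = algebraMap L Ω (algebraMap F[X] L (C (algebraMap k F ζ))) := by
    show algebraMap L Ω (algebraMap F[X] L ((C ζ).map (algebraMap k F))) = _
    rw [map_C]
  obtain ⟨z, hz1, hz2, hz3⟩ := hu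
  refine ⟨?_, fun O hO hR => ?_⟩
  · have hℓL : (ℓ : L) ≠ 0 := by
      intro h
      apply hk
      have h5 : ((algebraMap F[X] L).comp ((C : F →+* F[X]).comp (algebraMap k F))) (ℓ : k) = 0 := by
        rw [map_natCast]
        exact h
      exact (_root_.map_eq_zero _).1 h5
    have hzL : algebraMap L Ω (zA F L L ζ) = zA F L Ω ζ := by
      show algebraMap L Ω (algebraMap L L (algebraMap F[X] L ((C ζ).map (algebraMap k F)))) = _
      rfl
    refine norm_pow (L := L) (Ω := Ω) (P := curveL k F L f) hℓL (hB.monic.map _) hirr hsep lam ι h1 h2 h3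
      hroot hadj (ζ := zA F L L ζ) (by
        show (algebraMap L L (algebraMap F[X] L ((C ζ).map (algebraMap k F)))) ^ ℓ = 1
        rw [map_C, ← map_pow, ← map_pow, ← map_pow, ← map_pow, hζ.pow_eq_one, map_one, map_one, map_one, map_one]) (fun σ => ?_) u.ne_zero hz2
    obtain ⟨n, hn1, -, hn3⟩ := hz3 σ
    refine ⟨n, fun θ hθ => ?_, hn3⟩
    rw [hzL]
    exact hn1 θ hθ
  · have hzL : zA F L L ζ = algebraMap F[X] L (C (algebraMap k F ζ)) := by
      show algebraMap L L (algebraMap F[X] L ((C ζ).map (algebraMap k F))) = _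
      rw [map_C]
      rfl
    refine l5_regular (L := L) (Ω := Ω) (ζ := algebraMap k F ζ) (z := z)
      (c := fun σ => vJ (zA F L Ω ζ) hz (c 1 σ)) hℓ hk hB hzF ?_ ?_
      (by rw [← hzeq]; exact hz) ?_ (fun c => (h2 c).symm)
      (x := x) hroot (fun e => (hadj _).2 ⟨e, rfl⟩) hz2 O hO ?_
    · rw [← hzL]
      exact ⟨hz1, hz3⟩
    · exact ltprop_ub.vJ hz (hLT 1)
    · intro σ
      have h4 := vJ_sub_zJ (zA F L Ω ζ) hz' (c 1 σ)
      rw [hc.smul 0 σ, hc.zero, sub_eq_zero] at h4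
      exact (G04_zJ_congr hzeq.symm _ hz _).trans h4.symm
    · show IsRegular e F f (lam (algebraMap F[X] L X)) x O
      rw [h3]
      exact hR

/-- The invariant classes are trivial. -/
theorem ntg_unramified [hl : Fact ℓ.Prime] (hk : (ℓ : k) ≠ 0) (hζ : IsPrimitiveRoot ζ ℓ) (hB : IsBranchCurve ℓ e F f)
    {E : Type} [Field E] [Algebra F E] {t x : E} (hE : IsCurveField F f t x)
    [hG : IsGood ℓ (cOver k F L Ω f)]
    (hC : IsRigid ℓ k F t x (unramified ℓ e F f t x) (powers ℓ E))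
    (k' : IntermediateField k F) [FiniteDimensional k k'] :
    NTg ℓ 1 (curveL k F L f) (UB F ℓ (curveL k F L f)) (AutK k F L Ω k') := by
  have H : LHyp ℓ k F L f ζ := lhyp_of hl.out hk hζ hB
  obtain ⟨hsep, hG₀⟩ := good_of (Ω := Ω) (L := L) hl.out hk hB
  have hirr : Irreducible (curveL k F L f) := by
    have h1 : (Zs.ext F f).Monic := hB.monic.map _
    have h2 := (h1.irreducible_iff_irreducible_map_fraction_map (K := L)).1 hB.irreducible
    rwa [← map_base_eq] at h2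
  exact ntg_gen hζ hB.monic H hirr hsep hE ltprop_ub (Zp.powers_le_unramified ℓ e f t x)
    (contains_unramified hl.out hk hζ hB) hC k'

/-- The invariant classes come from points. -/
theorem ntj_unramified [hl : Fact ℓ.Prime] (hk : (ℓ : k) ≠ 0) (hζ : IsPrimitiveRoot ζ ℓ) (hB : IsBranchCurve ℓ e F f)
    {E : Type} [Field E] [Algebra F E] {t x : E} (hE : IsCurveField F f t x)
    [hG : IsGood ℓ (cOver k F L Ω f)]
    (hC : IsRigid ℓ k F t x (unramified ℓ e F f t x) (points ℓ F f t x))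
    (k' : IntermediateField k F) [FiniteDimensional k k'] :
    NTJ ℓ (curveL k F L f) (UB F ℓ (curveL k F L f)) (AutK k F L Ω k') := by
  have H : LHyp ℓ k F L f ζ := lhyp_of hl.out hk hζ hB
  obtain ⟨hsep, hG₀⟩ := good_of (Ω := Ω) (L := L) hl.out hk hB
  have hirr : Irreducible (curveL k F L f) := by
    have h1 : (Zs.ext F f).Monic := hB.monic.map _
    have h2 := (h1.irreducible_iff_irreducible_map_fraction_map (K := L)).1 hB.irreducible
    rwa [← map_base_eq] at h2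
  have hmon : (curveL k F L f).Monic := hB.monic.map _
  refine ntj_gen hζ hB.monic H hirr hsep hE ltprop_ub
    (contains_unramified hl.out hk hζ hB) (fun θ₀ h0 hz c hc u hu hk => ?_) hC k'
  have h := mem_ptGroup H hz hirr hsep hmon h0 hc hu u.ne_zero hk
  rwa [Units.mk0_val] at h

end

/-! ### The reduction to the fields which contain the roots of unity -/

section

variable {ℓ e : ℕ} {k F : Type} [Field k] [Field F] [Algebra k F] (k₁ : IntermediateField k F) {f : k[X][X]}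

lemma points_red {E : Type} [Field E] [Algebra F E] (t x : E) :
    points ℓ F (red k₁ f) t x = points ℓ F f t x := by
  unfold points
  rw [ext_red]

lemma isRigid_red [Fact ℓ.Prime] {ζ : F} (hζ : ζ ^ ℓ = 1) (hk₁ : k₁ = IntermediateField.adjoin k {ζ}) {E : Type} [Field E]
    [Algebra F E] {t x : E} {U V : Subgroup Eˣ} (h : IsRigid ℓ k F t x U V) : IsRigid ℓ k₁ F t x U V := by
  have h0 := galois_red k₁ hζ hk₁ t x
  have e1 : ∀ N r, IsLarge ℓ k₁ F t x V N r = IsLarge ℓ k F t x V N r := by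
    intro N r
    unfold IsLarge
    rw [h0]
  have e2 : ∀ N r, IsTwisted ℓ k₁ F t x V N r = IsTwisted ℓ k F t x V N r := by
    intro N r
    unfold IsTwisted
    rw [h0]
  intro N h1 h2 h3 r hr
  rw [h0] at h3
  rcases h N h1 h2 h3 r hr with h4 | h4 | h4
  · exact Or.inl (by rw [e1]; exact h4)
  · exact Or.inr (Or.inl (by rw [e2]; exact h4))
  · refine Or.inr (Or.inr fun ⟨n, σ, Γ, π, hL⟩ => h4 ⟨n, σ, Γ, π, ?_⟩)
    exact ⟨hL.finite, hL.comm, hL.cyclotomic, hL.add, hL.range, hL.kernel, by rw [← h0]; exact hL.lift⟩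

end

lemma ntj_mono {ℓ : ℕ} {L Ω : Type} [Field L] [Field Ω] [Algebra L Ω] {f : L[X]}
    {LT : ((Ω ≃ₐ[L] Ω) → JacOver ℓ f Ω) → Prop} {Γ Γ' : Set (Ω ≃+* Ω)} (h : Γ' ⊆ Γ)
    (hN : NTJ ℓ f LT Γ') : NTJ ℓ f LT Γ :=
  fun c hc hLT hfix => hN c hc hLT fun γ hγ hγΓ => hfix γ hγ (h hγΓ)

lemma ntj_congr {ℓ : ℕ} {F L Ω : Type} [Field F] [Field L] [Algebra F[X] L] [Field Ω] [Algebra L Ω] {p q : L[X]}
    (h : p = q) [IsGood ℓ (p.map (algebraMap L Ω))] [IsGood ℓ (q.map (algebraMap L Ω))] {Γ : Set (Ω ≃+* Ω)}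
    (hN : NTJ ℓ p (UB F ℓ p) Γ) : NTJ ℓ q (UB F ℓ q) Γ := by
  subst h
  exact hN

/-- A finite extension of `k` which contains the roots of unity. -/
theorem exists_red {ℓ : ℕ} (hℓ : ℓ.Prime) {k F : Type} [Field k] [Field F] [Algebra k F]
    [IsAlgClosure k F] (hk : (ℓ : k) ≠ 0) :
    ∃ (ζ : F) (k₁ : IntermediateField k F) (hζk : ζ ∈ k₁), IsPrimitiveRoot ζ ℓ ∧ k₁ = IntermediateField.adjoin k {ζ} ∧
      FiniteDimensional k k₁ ∧ IsAlgClosure k₁ F ∧ IsPrimitiveRoot (⟨ζ, hζk⟩ : k₁) ℓ ∧ (ℓ : k₁) ≠ 0 := by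
  have hFa : IsAlgClosed F := IsAlgClosure.isAlgClosed k
  have hF0 : (ℓ : F) ≠ 0 := by
    rw [← map_natCast (algebraMap k F)]
    exact (_root_.map_ne_zero _).mpr hk
  have : NeZero (ℓ : F) := ⟨hF0⟩
  have : NeZero ℓ := ⟨hℓ.ne_zero⟩
  obtain ⟨ζ, hζ⟩ : ∃ ζ : F, IsPrimitiveRoot ζ ℓ :=
    HasEnoughRootsOfUnity.exists_primitiveRoot F ℓ
  obtain ⟨k₁, hk₁⟩ : ∃ k₁ : IntermediateField k F, k₁ = IntermediateField.adjoin k {ζ} := ⟨_, rfl⟩
  have hζk : ζ ∈ k₁ := by
    rw [hk₁]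
    exact IntermediateField.mem_adjoin_simple_self k ζ
  have hfin : FiniteDimensional k k₁ := by
    rw [hk₁]
    exact IntermediateField.adjoin.finiteDimensional
      ((IsAlgClosure.isAlgebraic (R := k) (K := F)).isAlgebraic ζ).isIntegral
  have halg : Algebra.IsAlgebraic k F := IsAlgClosure.isAlgebraic
  have hcl : IsAlgClosure k₁ F := ⟨hFa, Algebra.IsAlgebraic.tower_top (K := k) k₁⟩
  have hζ₁ : IsPrimitiveRoot (⟨ζ, hζk⟩ : k₁) ℓ :=
    IsPrimitiveRoot.of_map_of_injective (f := algebraMap k₁ F) hζ (algebraMap k₁ F).injective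
  have hk₁0 : (ℓ : k₁) ≠ 0 := by
    rw [← map_natCast (algebraMap k k₁)]
    exact (_root_.map_ne_zero _).mpr hk
  exact ⟨ζ, k₁, hζk, hζ, hk₁, hfin, hcl, hζ₁, hk₁0⟩

/-- The theorem with the criterion for all classes. -/
theorem coverTate_of_rigid {ℓ e : ℕ} [hl : Fact ℓ.Prime] {k F : Type} [Field k] [Field F] [Algebra k F]
    [IsAlgClosure k F] (hk : (ℓ : k) ≠ 0) {f : k[X][X]} (hB : IsBranchCurve ℓ e F f)
    {E : Type} [Field E] [Algebra F E] {t x : E} (hE : IsCurveField F f t x)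
    (hC : IsRigid ℓ k F t x (unramified ℓ e F f t x) (powers ℓ E)) : CoverTate ℓ F f := by
  have hℓ : ℓ.Prime := hl.out
  obtain ⟨ζ, k₁, hζk, hζ, hk₁, hfin, hcl, hζ₁, hk₁0⟩ := exists_red hℓ (k := k) (F := F) hk
  refine Zp.coverTate_of' hℓ hk hB fun L Ω _ _ _ _ _ _ _ k' hk' => ?_
  obtain ⟨k'', h1, h2⟩ := exists_autK (L := L) (Ω := Ω) k₁ k' hfin hk'
  have hgood : IsGood ℓ (((red k₁ f).map (base k₁ F L L)).map (algebraMap L Ω)) := by
    rw [map_base_red]
    infer_instance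
  have hC' : IsRigid ℓ k₁ F t x (unramified ℓ e F (red k₁ f) t x) (powers ℓ E) := by
    rw [Zp.unramified_red]
    exact isRigid_red k₁ hζ.pow_eq_one hk₁ hC
  have h3 := ntg_unramified (ζ := (⟨ζ, hζk⟩ : k₁)) (f := red k₁ f) (L := L) (Ω := Ω) (hG := hgood) hk₁0 hζ₁
    (Zp.isBranchCurve_red k₁ hB) (isCurveField_red k₁ hE) hC' k''
  exact ntg_mono h2 (Zp.ntg_congr (map_base_red (L := L) k₁ (f := f)) h3)

/-- The theorem with the criterion relative to the classes of the points. -/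
theorem brauer_of_rigid {ℓ e : ℕ} [hl : Fact ℓ.Prime] {k F : Type} [Field k] [Field F] [Algebra k F]
    [IsAlgClosure k F] (hk : (ℓ : k) ≠ 0) {f : k[X][X]} (hB : IsBranchCurve ℓ e F f)
    {E : Type} [Field E] [Algebra F E] {t x : E} (hE : IsCurveField F f t x)
    (hC : IsRigid ℓ k F t x (unramified ℓ e F f t x) (points ℓ F f t x)) :
    ∀ (K S : Type) [Field K] [Algebra F K] [Field S] [Algebra K S] [IsAlgClosure K S] (t x y : K),
      IsCoverField ℓ F f t x y → ∀ k' : IntermediateField k F, FiniteDimensional k k' →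
        BrauerInvariantsTrivial ℓ S k' t x y := by
  have hℓ : ℓ.Prime := hl.out
  obtain ⟨ζ, k₁, hζk, hζ, hk₁, hfin, hcl, hζ₁, hk₁0⟩ := exists_red hℓ (k := k) (F := F) hk
  refine brauer_of_ntj hℓ hk hB fun L Ω _ _ _ _ _ _ _ k' hk' => ?_
  obtain ⟨k'', h1, h2⟩ := exists_autK (L := L) (Ω := Ω) k₁ k' hfin hk'
  have hgood : IsGood ℓ (((red k₁ f).map (base k₁ F L L)).map (algebraMap L Ω)) := by
    rw [map_base_red]
    infer_instance
  have hC' : IsRigid ℓ k₁ F t x (unramified ℓ e F (red k₁ f) t x) (points ℓ F (red k₁ f) t x) := by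
    rw [Zp.unramified_red, points_red]
    exact isRigid_red k₁ hζ.pow_eq_one hk₁ hC
  have h3 := ntj_unramified (ζ := (⟨ζ, hζk⟩ : k₁)) (f := red k₁ f) (L := L) (Ω := Ω) (hG := hgood) hk₁0 hζ₁
    (Zp.isBranchCurve_red k₁ hB) (isCurveField_red k₁ hE) hC' k''
  exact ntj_mono h2 (ntj_congr (map_base_red (L := L) k₁ (f := f)) h3)

end Pool.Agent.Lib.MP_89bcae_ag.Zq
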