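import Pool.Agent.Lib.MP_89bcae_ag.Zq.DefsJ
import Pool.Agent.Lib.MP_89bcae_ag.Zq.Rig
import Pool.Agent.Lib.MP_89bcae_ag.Z.Crit

/-!
# Symplectic or orthogonal images satisfy the criterion of Minkowski and Schur
-/

open scoped Classical

namespace Pool.Agent.Lib.MP_89bcae_ag.Zq

open Pool.Agent.Lib.MP_89bcae_ag.Zs (powers galois absSymp absOrth range_congr stab actU)

section Abs

/-- The powers of a transvection. -/
theorem transv_pow {K V : Type*} [Field K] [AddCommGroup V] [Module K V] (B : LinearMap.BilinForm K V)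
    (halt : ∀ v, B v v = 0) (v x : V) (n : ℕ) :
    (fun y => ZSymp.transv B halt v y)^[n] x = x + n • (B x v • v) := by
  induction n with
  | zero => rw [Function.iterate_zero, id, zero_smul, add_zero]
  | succ n ih =>
    have h1 : B (x + n • (B x v • v)) v = B x v := by
      rw [map_add, LinearMap.add_apply, map_nsmul, LinearMap.smul_apply, map_smul, LinearMap.smul_apply, halt,
        smul_zero, smul_zero, add_zero]
    rw [Function.iterate_succ_apply', ih, ZSymp.transv_apply, h1, succ_nsmul, add_assoc]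

/-- Two transvections of order `l` which do not commute. -/
theorem exists_transv {l : ℕ} {V : Type*} [AddCommGroup V] [Module (ZMod l) V] [hl : Fact l.Prime]
    (B : LinearMap.BilinForm (ZMod l) V) (halt : ∀ v, B v v = 0) (hnd : ∀ v, (∀ w, B v w = 0) → v = 0)
    (hV : ∃ v : V, v ≠ 0) :
    ∃ f f' : V ≃+ V, (∀ x y, B (f x) (f y) = B x y) ∧ (∀ x y, B (f' x) (f' y) = B x y) ∧
      (∀ x, (fun y => f y)^[l] x = x) ∧ (∀ x, (fun y => f' y)^[l] x = x) ∧ ∃ x, f (f' x) ≠ f' (f x) := by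
  obtain ⟨v, hv⟩ := hV
  obtain ⟨w, hw⟩ : ∃ w, B v w ≠ 0 := by
    by_contra h
    push Not at h
    exact hv (hnd v h)
  have hl0 : ∀ x : V, l • x = 0 := by
    intro x
    rw [← Nat.cast_smul_eq_nsmul (ZMod l), ZMod.natCast_self, zero_smul]
  refine ⟨ZSymp.transv B halt v, ZSymp.transv B halt w, ZSymp.transv_isom B halt v, ZSymp.transv_isom B halt w,
    fun x => ?_, fun x => ?_, v, fun h => ?_⟩
  · rw [transv_pow, hl0, add_zero]
  · rw [transv_pow, hl0, add_zero]
  · rw [ZSymp.transv_apply B halt v v, halt, zero_smul, add_zero, ZSymp.transv_apply, ZSymp.transv_apply,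
      map_add, LinearMap.add_apply, halt, zero_add, map_smul, LinearMap.smul_apply, ZSymp.skew B halt w v,
      smul_eq_mul] at h
    have h1 : (B v w * -B v w) • v = 0 := add_eq_left.1 h
    rcases smul_eq_zero.1 h1 with h2 | h2
    · rcases mul_eq_zero.1 h2 with h3 | h3
      · exact hw h3
      · exact hw (neg_eq_zero.1 h3)
    · exact hv h2

theorem exists_transv' {l : ℕ} {V : Type*} [AddCommGroup V] [hl : Fact l.Prime] (hV : ∀ v : V, l • v = 0)
    (e : V →+ V →+ ZMod l) (halt : ∀ v, e v v = 0) (hnd : ∀ v, (∀ w, e v w = 0) → v = 0)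
    (hV0 : ∃ v : V, v ≠ 0) :
    ∃ f f' : V ≃+ V, (∀ x y, e (f x) (f y) = e x y) ∧ (∀ x y, e (f' x) (f' y) = e x y) ∧
      (∀ x, (fun y => f y)^[l] x = x) ∧ (∀ x, (fun y => f' y)^[l] x = x) ∧ ∃ x, f (f' x) ≠ f' (f x) := by
  let m : Module (ZMod l) V := AddCommGroup.zmodModule hV
  exact @exists_transv l V _ m hl (@ZSymp.bil l hl V _ m e) halt hnd hV0

variable {Γ W : Type*} [Group Γ] [AddCommGroup W] [DistribMulAction Γ W]

/-- If all the isometries of a nondegenerate alternating form on `U` come from `Γ`, then a nonzero subgroup `N` of `U`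
stable under `Γ` is `U`, and two elements of `Γ` whose `l`-th powers act trivially on `N` do not commute on `N`. -/
theorem absTwisted {l : ℕ} [hl : Fact l.Prime] (U : AddSubgroup W)
    (hU : ∀ u : U, l • u = 0) (e : U →+ U →+ ZMod l) (halt : ∀ v, e v v = 0)
    (hnd : ∀ v, (∀ w, e v w = 0) → v = 0)
    (hiso : ∀ f : U ≃+ U, (∀ v w, e (f v) (f w) = e v w) → ∃ g : Γ, ∀ v : U, g • (v : W) = f v)
    (N : AddSubgroup W) (hNU : N ≤ U) (hne : N ≠ ⊥) (hN : ∀ g : Γ, ∀ v ∈ N, g • v ∈ N) :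
    N = U ∧ ∃ g g' : Γ, (∀ v ∈ N, g ^ l • v = v) ∧ (∀ v ∈ N, g' ^ l • v = v) ∧
      ∃ v ∈ N, (g * g') • v ≠ (g' * g) • v := by
  have hN1 : N.addSubgroupOf U ≠ ⊥ := by
    intro h
    apply hne
    rw [AddSubgroup.addSubgroupOf_eq_bot] at h
    rw [eq_bot_iff]
    intro x hx
    have h1 := h.le_bot ⟨hx, hNU hx⟩
    exact h1
  have hUN : U ≤ N := by
    let act := actU U (stab U : Subgroup Γ) (fun γ hγ u hu => (hγ u).2 hu)
    have h := ZSymp.irreducible (G := (stab U : Subgroup Γ)) e hU halt hnd ?_ (N.addSubgroupOf U) ?_ hN1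
    · rwa [AddSubgroup.addSubgroupOf_eq_top] at h
    · intro f hf
      obtain ⟨γ, hγ⟩ := hiso f hf
      refine ⟨⟨γ, fun u => ⟨fun hu => ?_, fun hu => ?_⟩⟩, fun v => Subtype.ext (hγ v)⟩
      · have h1 := hγ (f.symm ⟨γ • u, hu⟩)
        rw [AddEquiv.apply_symm_apply] at h1
        have h2 := smul_left_cancel γ h1
        rw [← h2]
        exact (f.symm ⟨γ • u, hu⟩).2
      · have h1 := hγ ⟨u, hu⟩
        change γ • u = _ at h1
        rw [h1]
        exact (f ⟨u, hu⟩).2
    · intro g v hv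
      rw [AddSubgroup.mem_addSubgroupOf] at hv ⊢
      exact hN g v hv
  have hNU' : N = U := le_antisymm hNU hUN
  refine ⟨hNU', ?_⟩
  have hV0 : ∃ v : U, v ≠ 0 := by
    by_contra h
    push Not at h
    apply hne
    rw [eq_bot_iff]
    intro y hy
    have h1 := h ⟨y, hNU hy⟩
    rw [AddSubgroup.mem_bot]
    exact congrArg Subtype.val h1
  obtain ⟨f, f', hf, hf', hfl, hfl', y, hy⟩ := exists_transv' hU e halt hnd hV0
  obtain ⟨g, hg⟩ := hiso f hf
  obtain ⟨g', hg'⟩ := hiso f' hf'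
  have hgp : ∀ (f : U ≃+ U) (g : Γ), (∀ u : U, g • (u : W) = f u) → (∀ x, (fun y => f y)^[l] x = x) →
      ∀ a ∈ N, g ^ l • a = a := by
    intro f g hg hfl a ha
    have h1 : ∀ (n : ℕ) (u : U), g ^ n • (u : W) = ((fun z => f z)^[n] u : U) := by
      intro n
      induction n with
      | zero =>
        intro u
        rw [pow_zero, one_smul, Function.iterate_zero, id]
      | succ n ih =>
        intro u
        rw [pow_succ, mul_smul, hg, ih, Function.iterate_succ_apply]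
    have h2 := h1 l ⟨a, hNU ha⟩
    rw [hfl] at h2
    exact h2
  refine ⟨g, g', hgp f g hg hfl, hgp f' g' hg' hfl', y, hNU' ▸ y.2, fun h => hy ?_⟩
  rw [mul_smul, mul_smul, hg', hg, hg, hg'] at h
  exact Subtype.ext h

end Abs

section

variable {ℓ : ℕ} {k F E : Type} [Field k] [Field F] [Algebra k F] [Field E] [Algebra F E] {t x : E}
  {V U : Subgroup Eˣ}

/-- The group `U / V`, written additively. -/
def quo (V U : Subgroup Eˣ) : AddSubgroup (Additive (Eˣ ⧸ V)) :=
  Subgroup.toAddSubgroup (U.map (QuotientGroup.mk' V))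

theorem exists_rep (c : quo V U) :
    ∃ u ∈ U, Additive.ofMul (QuotientGroup.mk u : Eˣ ⧸ V) = (c : Additive (Eˣ ⧸ V)) := by
  obtain ⟨u, hu, h⟩ := c.2
  exact ⟨u, hu, h⟩

/-- A representative. -/
noncomputable def rep (c : quo V U) : Eˣ := Classical.choose (exists_rep c)

theorem rep_mem (c : quo V U) : rep c ∈ U := (Classical.choose_spec (exists_rep c)).1

theorem rep_mk (c : quo V U) : Additive.ofMul (QuotientGroup.mk (rep c) : Eˣ ⧸ V) = (c : Additive (Eˣ ⧸ V)) :=
  (Classical.choose_spec (exists_rep c)).2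

/-- The class of an element of `U`. -/
def cls {u : Eˣ} (hu : u ∈ U) : quo V U := ⟨Additive.ofMul (QuotientGroup.mk u : Eˣ ⧸ V), ⟨u, hu, rfl⟩⟩

theorem cls_eq {u v : Eˣ} (hu : u ∈ U) (hv : v ∈ U) : (cls hu : quo V U) = cls hv ↔ u / v ∈ V := by
  rw [← QuotientGroup.eq_iff_div_mem]
  constructor
  · intro h
    exact Additive.ofMul.injective (congrArg Subtype.val h)
  · intro h
    exact Subtype.ext (congrArg Additive.ofMul h)

theorem cls_rep (c : quo V U) : cls (rep_mem c) = c := Subtype.ext (rep_mk c)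

theorem cls_mul {u v : Eˣ} (hu : u ∈ U) (hv : v ∈ U) : (cls (mul_mem hu hv) : quo V U) = cls hu + cls hv := rfl

theorem rep_cls {u : Eˣ} (hu : u ∈ U) : rep (cls hu : quo V U) / u ∈ V :=
  (cls_eq (rep_mem _) hu).1 (cls_rep _)

theorem rep_add (c d : quo V U) : rep (c + d) / (rep c * rep d) ∈ V := by
  rw [← cls_eq (rep_mem _) (mul_mem (rep_mem c) (rep_mem d)), cls_mul (rep_mem c) (rep_mem d), cls_rep,
    cls_rep, cls_rep]

theorem cls_eq_zero {u : Eˣ} (hu : u ∈ U) : (cls hu : quo V U) = 0 ↔ u ∈ V := by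
  have h : (0 : quo V U) = cls U.one_mem := rfl
  rw [h, cls_eq, div_one]

theorem card_quo : Nat.card (quo V U) = V.relIndex U := by
  have h1 := Subgroup.relIndex_ker U (QuotientGroup.mk' V)
  rw [QuotientGroup.ker_mk'] at h1
  rw [h1]
  exact Nat.card_congr (Equiv.subtypeEquiv Additive.toMul (fun _ => Iff.rfl))

theorem quo_smul (hV : powers ℓ E ≤ V) (u : quo V U) : ℓ • u = 0 := by
  have h1 : ℓ • (u : Additive (Eˣ ⧸ V)) = 0 := by
    rw [← rep_mk u]
    apply Additive.toMul.injective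
    change (QuotientGroup.mk (rep u) : Eˣ ⧸ V) ^ ℓ = 1
    rw [← QuotientGroup.mk_pow, QuotientGroup.eq_one_iff]
    exact hV ⟨rep u, rfl⟩
  exact Subtype.ext h1

/-! ### Pairings -/

section pairing

variable {e : Eˣ → Eˣ → ZMod ℓ} (he : IsNondegeneratePairing ℓ V U e) (hVU : V ≤ U)

include he hVU

theorem pairing_left {u u' v : Eˣ} (_ : u ∈ U) (hu' : u' ∈ U) (hv : v ∈ U) (h : u / u' ∈ V) :
    e u v = e u' v := by
  have h2 := he.mul_left _ (hVU h) u' hu' v hv
  rw [div_mul_cancel, (he.left _ (hVU h)).2 h v hv, zero_add] at h2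
  exact h2

theorem pairing_right {u v v' : Eˣ} (hu : u ∈ U) (_ : v ∈ U) (hv' : v' ∈ U) (h : v / v' ∈ V) :
    e u v = e u v' := by
  have h2 := he.mul_right u hu _ (hVU h) v' hv'
  rw [div_mul_cancel, (he.right _ (hVU h)).2 h u hu, zero_add] at h2
  exact h2

theorem pairing_congr {u u' v v' : Eˣ} (hu : u ∈ U) (hu' : u' ∈ U) (hv : v ∈ U) (hv' : v' ∈ U) (h : u / u' ∈ V)
    (h' : v / v' ∈ V) : e u v = e u' v' :=
  (pairing_left he hVU hu hu' hv h).trans (pairing_right he hVU hu' hv hv' h')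

/-- The pairing on `U / V`. -/
noncomputable def pairing : quo V U →+ quo V U →+ ZMod ℓ :=
  AddMonoidHom.mk' (fun c => AddMonoidHom.mk' (fun d => e (rep c) (rep d)) (fun d d' => by
      rw [← he.mul_right _ (rep_mem c) _ (rep_mem d) _ (rep_mem d')]
      exact pairing_right he hVU (rep_mem c) (rep_mem _) (mul_mem (rep_mem d) (rep_mem d')) (rep_add d d')))
    (fun c c' => by
      ext d
      show e (rep (c + c')) (rep d) = e (rep c) (rep d) + e (rep c') (rep d)
      rw [← he.mul_left _ (rep_mem c) _ (rep_mem c') _ (rep_mem d)]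
      exact pairing_left he hVU (rep_mem _) (mul_mem (rep_mem c) (rep_mem c')) (rep_mem d) (rep_add c c'))

theorem pairing_apply (c d : quo V U) : pairing he hVU c d = e (rep c) (rep d) := rfl

theorem pairing_nd (c : quo V U) (h : ∀ d, pairing he hVU c d = 0) : c = 0 := by
  have h1 : ∀ v ∈ U, e (rep c) v = 0 := by
    intro v hv
    have h2 := h (cls hv)
    rw [pairing_apply] at h2
    rw [← h2]
    refine pairing_right he hVU (rep_mem c) hv (rep_mem _) ?_
    rw [← inv_div]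
    exact V.inv_mem (rep_cls hv)
  rw [← cls_rep c, cls_eq_zero]
  exact (he.left _ (rep_mem c)).1 h1

end pairing

/-! ### Automorphisms -/

/-- The function on `Eˣ` attached to an automorphism of `U / V`. -/
noncomputable def fn (f : quo V U ≃+ quo V U) (u : Eˣ) : Eˣ := if hu : u ∈ U then rep (f (cls hu)) else 1

theorem fn_apply (f : quo V U ≃+ quo V U) {u : Eˣ} (hu : u ∈ U) : fn f u = rep (f (cls hu)) := dif_pos hu

theorem cls_fn (f : quo V U ≃+ quo V U) {u : Eˣ} (hu : u ∈ U) (h : fn f u ∈ U) :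
    (cls h : quo V U) = f (cls hu) := by
  have h1 : ∀ w (hw : w ∈ U), w = rep (f (cls hu)) → (cls hw : quo V U) = f (cls hu) := by
    rintro w hw rfl
    exact cls_rep _
  exact h1 _ h (fn_apply f hu)

theorem fn_mem (f : quo V U ≃+ quo V U) {u : Eˣ} (hu : u ∈ U) : fn f u ∈ U := by
  rw [fn_apply f hu]
  exact rep_mem _

theorem fn_isInjectiveEndomorphism (f : quo V U ≃+ quo V U) : IsInjectiveEndomorphism V U (fn f) := by
  refine ⟨fun u hu => fn_mem f hu, fun u hu v hv => ?_, fun u hu => ?_⟩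
  · rw [← cls_eq (fn_mem f (mul_mem hu hv)) (mul_mem (fn_mem f hu) (fn_mem f hv)),
      cls_mul (fn_mem f hu) (fn_mem f hv), cls_fn f (mul_mem hu hv), cls_fn f hu, cls_fn f hv, cls_mul hu hv,
      map_add]
  · rw [← cls_eq_zero (fn_mem f hu), cls_fn f hu, map_eq_zero_iff f f.injective, cls_eq_zero]

/-- The Galois group acts on `Eˣ / V`. -/
@[reducible] noncomputable def actV (ℓ : ℕ) (k F : Type) {E : Type} [Field k] [Field F] [Algebra k F] [Field E]
    [Algebra F E] (t x : E) {V : Subgroup Eˣ}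
    (hG : ∀ γ ∈ galois ℓ k F t x, ∀ u ∈ V, Units.map (γ : E →* E) u ∈ V) :
    DistribMulAction (galois ℓ k F t x) (Additive (Eˣ ⧸ V)) :=
  actQ (galois ℓ k F t x).subtype fun g => hG g g.2

variable (hG : ∀ γ ∈ galois ℓ k F t x, ∀ u ∈ V, Units.map (γ : E →* E) u ∈ V)

theorem actV_mk (γ : galois ℓ k F t x) (u : Eˣ) :
    (actV ℓ k F t x hG).smul γ (Additive.ofMul (QuotientGroup.mk u : Eˣ ⧸ V)) =
      Additive.ofMul (QuotientGroup.mk (Units.map ((γ : E ≃+* E) : E →* E) u)) := rfl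

theorem induced (f : quo V U ≃+ quo V U) (hf : IsInducedBy ℓ k F t x V U (fn f)) :
    ∃ γ : galois ℓ k F t x, ∀ v : quo V U,
      (actV ℓ k F t x hG).smul γ (v : Additive (Eˣ ⧸ V)) = f v := by
  obtain ⟨γ, hγ, h⟩ := hf
  refine ⟨⟨γ, hγ⟩, fun v => ?_⟩
  have h1 := h (rep v) (rep_mem v)
  rw [fn_apply f (rep_mem v), cls_rep, ← QuotientGroup.eq_iff_div_mem] at h1
  rw [← rep_mk v, actV_mk, ← rep_mk (f v)]
  exact congrArg Additive.ofMul h1

/-- The criterion for the subgroups of `U / V`. -/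
theorem transfer (h : ∀ N : AddSubgroup (Additive (Eˣ ⧸ V)), N ≤ quo V U → N ≠ ⊥ →
      (∀ γ : galois ℓ k F t x, ∀ v ∈ N, (actV ℓ k F t x hG).smul γ v ∈ N) →
      ∀ r, Nat.card N = ℓ ^ r → r + padicValNat ℓ r.factorial <
      padicValNat ℓ (Nat.card (Set.range fun (γ : galois ℓ k F t x) (v : N) =>
        (actV ℓ k F t x hG).smul γ (v : Additive (Eˣ ⧸ V)))))
    (N : Subgroup Eˣ) (hVN : V < N) (hNU : N ≤ U) (hN : ∀ γ ∈ galois ℓ k F t x, ∀ u ∈ N, Units.map (γ : E →* E) u ∈ N)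
    (r : ℕ) (hr : V.relIndex N = ℓ ^ r) : IsLarge ℓ k F t x V N r := by
  have hsm : ∀ (γ : galois ℓ k F t x) (u : Eˣ), (actV ℓ k F t x hG).smul γ (Additive.ofMul (QuotientGroup.mk u : Eˣ ⧸ V)) =
      Additive.ofMul (QuotientGroup.mk (Units.map ((γ : E ≃+* E) : E →* E) u)) := fun γ u => rfl
  set N1 : AddSubgroup (Additive (Eˣ ⧸ V)) := quo V N with hN1
  have hmem : ∀ u : Eˣ, u ∈ N → Additive.ofMul (QuotientGroup.mk u : Eˣ ⧸ V) ∈ N1 :=
    fun u hu => ⟨u, hu, rfl⟩
  have hmem' : ∀ w ∈ N1, ∃ u ∈ N, w = Additive.ofMul (QuotientGroup.mk u : Eˣ ⧸ V) := by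
    rintro w ⟨u, hu, hw⟩
    exact ⟨u, hu, hw.symm⟩
  have h := h N1 ?_ ?_ ?_ r (card_quo.trans hr)
  · refine h.trans_eq (congrArg (padicValNat ℓ) (range_congr _ _ Additive.toMul
      (fun u => ⟨Additive.ofMul (QuotientGroup.mk (u : Eˣ) : Eˣ ⧸ V), hmem u u.2⟩) ?_ ?_))
    · intro w
      obtain ⟨u, hu, hw⟩ := hmem' w w.2
      exact ⟨⟨u, hu⟩, Subtype.ext hw.symm⟩
    · intro γ u
      rw [hsm]
      rfl
  · intro w hw
    obtain ⟨u, hu, rfl⟩ := hmem' w hw
    exact ⟨u, hNU hu, rfl⟩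
  · intro hbot
    obtain ⟨u, hu, huP⟩ := Set.exists_of_ssubset hVN
    have h1 := hmem u hu
    rw [hbot, AddSubgroup.mem_bot] at h1
    apply huP
    exact (QuotientGroup.eq_one_iff u).1 h1
  · intro γ w hw
    obtain ⟨u, hu, rfl⟩ := hmem' w hw
    rw [hsm]
    exact hmem _ (hN γ γ.2 u hu)

include hG

/-- If all the automorphisms of a nondegenerate alternating pairing on `U / V` come from the Galois group, then the
subgroups of `U / V` satisfy one of the criteria of Minkowski and Schur and of Jordan. -/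
theorem HasSymplecticImage.isLarge [hl : Fact ℓ.Prime] (hPV : powers ℓ E ≤ V) (hVU : V ≤ U)
    (h : HasSymplecticImage ℓ k F t x V U) (N : Subgroup Eˣ) (hVN : V < N) (hNU : N ≤ U)
    (hN : ∀ γ ∈ galois ℓ k F t x, ∀ u ∈ N, Units.map (γ : E →* E) u ∈ N) (r : ℕ) (hr : V.relIndex N = ℓ ^ r) :
    IsLarge ℓ k F t x V N r ∨ IsTwisted ℓ k F t x V N r := by
  obtain ⟨hl2, g, hg | hg, hcard, e, he, halt, hiso⟩ := h
  swap
  · right
    have hmem : ∀ {u : Eˣ}, u ∈ N → Additive.ofMul (QuotientGroup.mk u : Eˣ ⧸ V) ∈ quo V N := fun hu => ⟨_, hu, rfl⟩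
    have hdiv : ∀ u u' : Eˣ, (Additive.ofMul (QuotientGroup.mk u : Eˣ ⧸ V)) =
        Additive.ofMul (QuotientGroup.mk u' : Eˣ ⧸ V) ↔ u / u' ∈ V := by
      intro u u'
      rw [← QuotientGroup.eq_iff_div_mem]
      exact Iff.rfl
    have h1 := @absTwisted (galois ℓ k F t x) (Additive (Eˣ ⧸ V)) _ _ (actV ℓ k F t x hG) ℓ hl
      (quo V U) (quo_smul hPV) (pairing he hVU) (fun c => halt _ (rep_mem c)) (pairing_nd he hVU)
      (fun f hf => induced hG f (hiso _ (fn_isInjectiveEndomorphism f) fun u hu v hv => by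
        have h6 := hf (cls hu) (cls hv)
        rw [pairing_apply, pairing_apply] at h6
        rw [fn_apply f hu, fn_apply f hv, h6]
        exact pairing_congr he hVU (rep_mem _) hu (rep_mem _) hv (rep_cls hu) (rep_cls hv)))
      (quo V N) (by
        rintro w ⟨u, hu, rfl⟩
        exact ⟨u, hNU hu, rfl⟩) (by
        intro hbot
        obtain ⟨u, hu, huP⟩ := Set.exists_of_ssubset hVN
        have h1 := hmem hu
        rw [hbot, AddSubgroup.mem_bot] at h1
        exact huP ((QuotientGroup.eq_one_iff u).1 h1)) (by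
        rintro γ w ⟨u, hu, rfl⟩
        exact ⟨_, hN γ γ.2 u hu, rfl⟩)
    obtain ⟨h2, γ, γ', h3, h4, w, hw, h5⟩ := h1
    have h6 : r = 2 * g := by
      apply Nat.pow_right_injective hl.out.two_le
      show ℓ ^ r = ℓ ^ (2 * g)
      rw [← hr, ← hcard, ← card_quo, ← card_quo, h2]
    obtain ⟨u, hu, rfl⟩ := hw
    have hk : ∀ (γ : galois ℓ k F t x), (∀ v ∈ quo V N, (actV ℓ k F t x hG).smul (γ ^ ℓ) v = v) →
        ∀ u ∈ N, Units.map (((γ : E ≃+* E) ^ ℓ ^ 1 : E ≃+* E) : E →* E) u / u ∈ V := by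
      intro γ hγ u hu
      have h7 := hγ _ (hmem hu)
      rw [actV_mk, hdiv] at h7
      rw [pow_one]
      exact h7
    refine ⟨?_, γ, γ.2, γ', γ'.2, 1, hk γ h3, hk γ' h4, u, hu, fun h8 => h5 ?_⟩
    · rw [h6]
      have h7 : 13 * (2 * g) = 26 * g := by ring
      rw [h7]
      exact hg
    · exact (hdiv _ _).2 h8
  left
  refine transfer hG (fun N hNU hne hN r hr => ?_) N hVN hNU hN r hr
  have h1 := @absSymp (galois ℓ k F t x) (Additive (Eˣ ⧸ V)) _ _ (actV ℓ k F t x hG) ℓ hl hl2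
    (quo V U) (quo_smul hPV) (pairing he hVU) (fun c => halt _ (rep_mem c)) (pairing_nd he hVU)
    (fun f hf => induced hG f (hiso _ (fn_isInjectiveEndomorphism f) fun u hu v hv => by
      have h6 := hf (cls hu) (cls hv)
      rw [pairing_apply, pairing_apply] at h6
      rw [fn_apply f hu, fn_apply f hv, h6]
      exact pairing_congr he hVU (rep_mem _) hu (rep_mem _) hv (rep_cls hu) (rep_cls hv)))
    g hg (by rw [card_quo, hcard]) N hNU hne hN r hr
  exact h1

/-- If all the automorphisms of a nondegenerate quadratic form on `U / V` come from the Galois group, `ℓ = 2`,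
`g ≥ 5`, then the subgroups of `U / V` satisfy the criterion of Minkowski and Schur. -/
theorem HasOrthogonalImage.isLarge (hPV : powers ℓ E ≤ V) (hVU : V ≤ U)
    (h : HasOrthogonalImage ℓ k F t x V U) (N : Subgroup Eˣ) (hVN : V < N) (hNU : N ≤ U)
    (hN : ∀ γ ∈ galois ℓ k F t x, ∀ u ∈ N, Units.map (γ : E →* E) u ∈ N) (r : ℕ) (hr : V.relIndex N = ℓ ^ r) :
    IsLarge ℓ k F t x V N r := by
  obtain ⟨rfl, g, hg, hcard, q, hq, he, hiso⟩ := h
  -- `q` depends only on the class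
  have hqc : ∀ {u u' : Eˣ}, u ∈ U → u' ∈ U → u / u' ∈ V → q u = q u' := by
    intro u u' hu hu' h
    have h3 := (he.left _ (hVU h)).2 h u' hu'
    simp only [div_mul_cancel, hq _ h, sub_zero] at h3
    exact sub_eq_zero.1 h3
  refine transfer hG (fun N hNU hne hN r hr => ?_) N hVN hNU hN r hr
  have h1 := @absOrth (galois 2 k F t x) (Additive (Eˣ ⧸ V)) _ _ (actV 2 k F t x hG)
    (quo V U) (quo_smul hPV) (fun c => q (rep c)) (pairing he hVU) (fun c d => by
      rw [pairing_apply, hqc (rep_mem _) (mul_mem (rep_mem c) (rep_mem d)) (rep_add c d)]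
      ring) (pairing_nd he hVU)
    (fun f hf => induced hG f (hiso _ (fn_isInjectiveEndomorphism f) fun u hu => by
      have h6 := hf (cls hu)
      rw [fn_apply f hu, h6]
      exact hqc (rep_mem _) hu (rep_cls hu)))
    g hg (by rw [card_quo, hcard]) N hNU hne hN r hr
  exact h1

/-- All the three forms of the hypothesis on the image of the Galois group imply the criterion. -/
theorem isRigid_of [hl : Fact ℓ.Prime] (hPV : powers ℓ E ≤ V) (hVU : V ≤ U)
    (h : IsRigid ℓ k F t x U V ∨ HasSymplecticImage ℓ k F t x V U ∨ HasOrthogonalImage ℓ k F t x V U) :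
    IsRigid ℓ k F t x U V := by
  rcases h with h | h | h
  · exact h
  · intro N hVN hNU hN r hr
    rcases h.isLarge hG hPV hVU N hVN hNU hN r hr with h1 | h1
    · exact Or.inl h1
    · exact Or.inr (Or.inl h1)
  · exact fun N hVN hNU hN r hr => Or.inl (h.isLarge hG hPV hVU N hVN hNU hN r hr)

end

end Pool.Agent.Lib.MP_89bcae_ag.Zq
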