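import Mathlib
import Pool.Agent.Lib.MP_89bcae_ag.Z.Defs

/-!
# Large images of the Galois group

Here `V ≤ U` are subgroups of `Eˣ`. The functions on the group `U / V`, the pairings and the automorphisms are given by
functions of elements of `Eˣ`.
-/

namespace Pool.Agent.Lib.MP_89bcae_ag.Zq

open Pool.Agent.Lib.MP_89bcae_ag.Zs (galois)

/-- The function `e` induces a nondegenerate pairing on `U / V` with values in `ℤ/ℓ`. -/
structure IsNondegeneratePairing (ℓ : ℕ) {E : Type} [Field E] (V U : Subgroup Eˣ) (e : Eˣ → Eˣ → ZMod ℓ) : Prop where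
  mul_left : ∀ u ∈ U, ∀ v ∈ U, ∀ w ∈ U, e (u * v) w = e u w + e v w
  mul_right : ∀ u ∈ U, ∀ v ∈ U, ∀ w ∈ U, e u (v * w) = e u v + e u w
  left : ∀ u ∈ U, (∀ v ∈ U, e u v = 0) ↔ u ∈ V
  right : ∀ v ∈ U, (∀ u ∈ U, e u v = 0) ↔ v ∈ V

/-- The function `φ` induces an injective endomorphism of `U / V`. -/
structure IsInjectiveEndomorphism {E : Type} [Field E] (V U : Subgroup Eˣ) (φ : Eˣ → Eˣ) : Prop where
  mem : ∀ u ∈ U, φ u ∈ U
  mul : ∀ u ∈ U, ∀ v ∈ U, φ (u * v) / (φ u * φ v) ∈ V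
  injective : ∀ u ∈ U, φ u ∈ V ↔ u ∈ V

/-- The endomorphism of `U / V` induced by `φ` is the one of an element `γ` of the Galois group (see `galois`). -/
def IsInducedBy (ℓ : ℕ) (k F : Type) {E : Type} [Field k] [Field F] [Algebra k F] [Field E] [Algebra F E]
    (t x : E) (V U : Subgroup Eˣ) (φ : Eˣ → Eˣ) : Prop :=
  ∃ γ ∈ galois ℓ k F t x, ∀ u ∈ U, Units.map (γ : E →* E) u / φ u ∈ V

/-- The prime `ℓ` is odd, the group `U / V` has `ℓ ^ (2 g)` elements, with `g ≥ 3` or `ℓ > (26 g) ^ (2 g)`, and there is a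
nondegenerate alternating pairing on `U / V`, with values in the group of order `ℓ`, such that all the automorphisms of
`U / V` which preserve the pairing are induced by elements of the Galois group. -/
def HasSymplecticImage (ℓ : ℕ) (k F : Type) {E : Type} [Field k] [Field F] [Algebra k F] [Field E] [Algebra F E]
    (t x : E) (V U : Subgroup Eˣ) : Prop :=
  ℓ ≠ 2 ∧ ∃ g : ℕ, (3 ≤ g ∨ (26 * g) ^ (2 * g) < ℓ) ∧ V.relIndex U = ℓ ^ (2 * g) ∧
    ∃ e : Eˣ → Eˣ → ZMod ℓ, IsNondegeneratePairing ℓ V U e ∧ (∀ u ∈ U, e u u = 0) ∧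
      ∀ φ : Eˣ → Eˣ, IsInjectiveEndomorphism V U φ →
        (∀ u ∈ U, ∀ v ∈ U, e (φ u) (φ v) = e u v) → IsInducedBy ℓ k F t x V U φ

/-- The prime `ℓ` is `2`, the group `U / V` has `2 ^ (2 g)` elements with `g ≥ 5`, and there is a function `q` on `U / V`
with values in the group of order `2`, such that `q(u v) - q(u) - q(v)` is a nondegenerate pairing (in other words, `q` is
a nondegenerate quadratic form) and that all the automorphisms of `U / V` which preserve `q` are induced by elements of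
the Galois group. -/
def HasOrthogonalImage (ℓ : ℕ) (k F : Type) {E : Type} [Field k] [Field F] [Algebra k F] [Field E] [Algebra F E]
    (t x : E) (V U : Subgroup Eˣ) : Prop :=
  ℓ = 2 ∧ ∃ g : ℕ, 5 ≤ g ∧ V.relIndex U = ℓ ^ (2 * g) ∧
    ∃ q : Eˣ → ZMod ℓ, (∀ u ∈ V, q u = 0) ∧
      IsNondegeneratePairing ℓ V U (fun u v => q (u * v) - q u - q v) ∧
      ∀ φ : Eˣ → Eˣ, IsInjectiveEndomorphism V U φ → (∀ u ∈ U, q (φ u) = q u) →
        IsInducedBy ℓ k F t x V U φ

end Pool.Agent.Lib.MP_89bcae_ag.Zq
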